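import Pool.Agent.QUY.Rkb

/-!
# QUY/Cut: deletion of the elements outside of `G`

`rst L G`: the coordinates outside of `G` become zero (the elements outside of `G` become loops).
-/

set_option autoImplicit false

noncomputable section

open scoped Classical

namespace Pool.Agent.QUY

open Pool.Agent.FRM Pool.Agent.QUS Pool.Agent.QUE
open Pool.Agent.QU (Fm van spt dg EqOn EqD InV TP Itv Sub Rich InVs)

section

variable {K : Type} [Field K] {E : Type}

/-- the restriction to `G` -/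
def rst (L : Submodule K (E → K)) (G : Finset E) : Submodule K (E → K) := L.map (cut (G : Set E))

theorem cut_in {v : E → K} {G : Finset E} {e : E} (h : e ∈ G) : cut (G : Set E) v e = v e :=
  if_pos (Finset.mem_coe.2 h)

theorem cut_out {v : E → K} {G : Finset E} {e : E} (h : e ∉ G) : cut (G : Set E) v e = 0 :=
  if_neg fun h1 => h (Finset.mem_coe.1 h1)

variable {L : Submodule K (E → K)} {G S T A : Finset E} {b e : E}

theorem rst_mem {v : E → K} (hv : v ∈ L) : cut (G : Set E) v ∈ rst L G := Submodule.mem_map_of_mem hv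

theorem sup_rst : Sup (rst L G) G := by
  rintro v ⟨u, -, rfl⟩ e he
  exact cut_out he

theorem isB_rst (hT : IsB L T) (h : ∀ b ∈ T, b ∉ G → ∀ e ∈ G, fv L T b e = 0) : IsB (rst L G) (T ∩ G) := by
  refine ⟨?_, fun b hb => ?_⟩
  · rintro v ⟨u, hu, rfl⟩ h0
    funext e
    by_cases he : e ∈ G
    · rw [cut_in he]
      refine zero_of_adapt hT h hu (fun b hb hbG => ?_) e he
      rw [← cut_in (v := u) hbG]
      exact h0 b (Finset.mem_inter.2 ⟨hb, hbG⟩)
    · rw [cut_out he]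
      rfl
  · obtain ⟨hb1, hb2⟩ := Finset.mem_inter.1 hb
    refine ⟨_, rst_mem (fv_mem hT hb1), ?_, fun s hs hsb => ?_⟩
    · rw [cut_in hb2, fv_self hT hb1]
    · rw [cut_in (Finset.mem_inter.1 hs).2, fv_oth hT hb1 (Finset.mem_inter.1 hs).1 hsb]

theorem fv_rst (hT : IsB L T) (h : ∀ b ∈ T, b ∉ G → ∀ e ∈ G, fv L T b e = 0) (hb : b ∈ T ∩ G) :
    fv (rst L G) (T ∩ G) b = cut (G : Set E) (fv L T b) := by
  obtain ⟨hb1, hb2⟩ := Finset.mem_inter.1 hb
  refine fv_uniq (isB_rst hT h) hb (rst_mem (fv_mem hT hb1)) ?_ fun s hs hsb => ?_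
  · rw [cut_in hb2, fv_self hT hb1]
  · rw [cut_in (Finset.mem_inter.1 hs).2, fv_oth hT hb1 (Finset.mem_inter.1 hs).1 hsb]

variable [Fintype E]

theorem rk_rst (L : Submodule K (E → K)) (G A : Finset E) : rk (rst L G) A = rk L (A ∩ G) := by
  obtain ⟨T, hT, h1, h2⟩ := exists_chain L (A := A ∩ G) (B := G) Finset.inter_subset_right
  have h3 : ∀ b ∈ T ∩ G, b ∉ A → ∀ e ∈ A, fv (rst L G) (T ∩ G) b e = 0 := by
    intro b hb hbA e he
    rw [fv_rst hT h2 hb]
    by_cases heG : e ∈ G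
    · rw [cut_in heG]
      exact h1 b (Finset.mem_inter.1 hb).1 (fun h => hbA (Finset.mem_inter.1 h).1) e (Finset.mem_inter.2 ⟨he, heG⟩)
    · exact cut_out heG
  rw [rk_eq (isB_rst hT h2) h3, rk_eq hT h1, Finset.inter_assoc, Finset.inter_comm G A]

theorem rk_rst_sub (h : A ⊆ G) : rk (rst L G) A = rk L A := by
  rw [rk_rst, Finset.inter_eq_left.2 h]

end

section

variable {E : Type} [Fintype E]

theorem u2m_rst {Φ : Submodule KU (E → KU)} (h : U2M Φ) (G : Finset E) : U2M (rst Φ G) := by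
  intro S hS b hb e he
  have hSG : S ⊆ G := sub_of_sup hS sup_rst
  obtain ⟨h1, h2⟩ := isB_iff.1 hS
  rw [rk_rst_sub hSG] at h1
  rw [rk_rst, Finset.univ_inter] at h2
  obtain ⟨T, hT, hST, hTG⟩ := exists_ext h1 hSG
  have h3 : T ∩ G = S := inter_of_adapt hT hST hSG h2 hTG
  by_cases heG : e ∈ G
  · have heT : e ∉ T := fun h4 => he (by rw [← h3]; exact Finset.mem_inter.2 ⟨h4, heG⟩)
    have h4 : fv (rst Φ G) S b e = fv Φ T b e := by
      have h5 := fv_rst hT hTG (b := b) (by rw [h3]; exact hb)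
      rw [h3] at h5
      rw [h5, cut_in heG]
    rw [h4]
    exact h T hT b (hST hb) e heT
  · exact Or.inl (fv_out sup_rst hS hb heG)

theorem cls_rst {L : Submodule F4 (E → F4)} (h : Cls L) (G : Finset E) : Cls (rst L G) := by
  obtain ⟨Φ, h1, h2⟩ := h
  refine ⟨rst Φ G, fun S => isB_congr ?_, u2m_rst h2 G⟩
  funext A
  rw [rk_rst, rk_rst, rk_congr h1]

/-- `Rich` depends only on the ranks of the subsets of `q.2` -/
theorem rich_congr {r r' : Finset E → ℤ} {q : Itv E} (h : ∀ A ⊆ q.2, r A = r' A) (hr : Rich r q) : Rich r' q := by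
  obtain ⟨h1, h2, h3⟩ := hr
  have hsub : ∀ i ∈ QUB.gs q, i ∈ q.2 := fun i hi => (Finset.mem_sdiff.1 hi).1
  refine ⟨h1, h2, ?_⟩
  rcases h3 with ⟨h3, h4⟩ | ⟨h3, h4⟩
  · left
    refine ⟨by rw [← h _ (Finset.Subset.refl _), ← h _ h1, h3], fun i hi j hj hij => ?_⟩
    rw [← h, ← h _ h1, h4 i hi j hj hij]
    refine Finset.union_subset h1 fun y hy => ?_
    rcases Finset.mem_insert.1 hy with rfl | hy
    · exact hsub _ hi
    · rw [Finset.mem_singleton.1 hy]
      exact hsub _ hj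
  · right
    refine ⟨by rw [← h _ (Finset.Subset.refl _), ← h _ h1, h3], fun i hi j hj k hk hij hik hjk => ?_⟩
    rw [← h, ← h _ h1, h4 i hi j hj k hk hij hik hjk]
    refine Finset.union_subset h1 fun y hy => ?_
    rcases Finset.mem_insert.1 hy with rfl | hy
    · exact hsub _ hi
    rcases Finset.mem_insert.1 hy with rfl | hy
    · exact hsub _ hj
    · rw [Finset.mem_singleton.1 hy]
      exact hsub _ hk

theorem spt_rst {L : Submodule F4 (E → F4)} {G B : Finset E} (h : B ⊆ G) : spt (WW (rst L G)) B = spt (WW L) B := by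
  ext d
  constructor
  · rintro ⟨hd, h0⟩
    refine ⟨?_, h0⟩
    rintro u ⟨v, hv, hu⟩
    rw [← hd (fun e => cut (G : Set E) v e ^ 2) ⟨_, rst_mem hv, fun _ => rfl⟩]
    refine Finset.sum_congr rfl fun e _ => ?_
    by_cases he : e ∈ B
    · rw [hu, cut_in (h he)]
    · rw [h0 e he, mul_zero, mul_zero]
  · rintro ⟨hd, h0⟩
    refine ⟨?_, h0⟩
    rintro u ⟨v, ⟨v, hv, rfl⟩, hu⟩
    rw [← hd (fun e => v e ^ 2) ⟨_, hv, fun _ => rfl⟩]
    refine Finset.sum_congr rfl fun e _ => ?_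
    by_cases he : e ∈ B
    · rw [hu, cut_in (h he)]
    · rw [h0 e he, mul_zero, mul_zero]

theorem invs_rst {L : Submodule F4 (E → F4)} {G : Finset E} {p : Itv E} (hp : p.2 ⊆ G) {T : Fm F4 E}
    (hT : InVs (tp (rst L G)) p T) :
    InVs (tp L) p (T.compl₁₂ (cut (G : Set E)) LinearMap.id) := by
  obtain ⟨h1, h2⟩ := hT
  refine ⟨?_, ?_⟩
  · intro c hc d hd hcd
    rw [LinearMap.compl₁₂_apply]
    refine h1 _ ⟨rst_mem hc.1, fun x hx => ?_⟩ d ?_ fun x => ?_
    · by_cases hxG : x ∈ G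
      · rw [cut_in hxG, hc.2 x hx]
      · exact cut_out hxG
    · show d ∈ spt (WW (rst L G)) p.2
      rw [spt_rst hp]
      exact hd
    · by_cases hxG : x ∈ G
      · rw [cut_in hxG]
        exact hcd x
      · rw [cut_out hxG, zero_mul]
  · intro q hq hr he
    have hqG : q.2 ⊆ G := hq.2.trans hp
    refine h2 q hq (rich_congr (fun A hA => (rk_rst_sub (hA.trans hqG)).symm) hr) ?_
    obtain ⟨l, hl⟩ := he
    refine ⟨l, ?_⟩
    rintro c ⟨⟨u, hu, rfl⟩, hc0⟩ d hd
    have hd' : d ∈ spt (WW L) q.2 := by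
      rw [← spt_rst hqG]
      exact hd
    have h3 := hl u ⟨hu, fun x hx => by
      rw [← cut_in (v := u) (hqG (hr.1 hx))]
      exact hc0 x hx⟩ d hd'
    rw [LinearMap.compl₁₂_apply] at h3
    rw [LinearMap.id_apply] at h3
    rw [h3]
    show (0 : Fm F4 E) u d + dg l u d = (0 : Fm F4 E) _ d + dg l _ d
    rw [LinearMap.zero_apply, LinearMap.zero_apply, Pool.Agent.QU.dg_apply, Pool.Agent.QU.dg_apply]
    refine congrArg _ (Finset.sum_congr rfl fun x _ => ?_)
    by_cases hxG : x ∈ G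
    · rw [cut_in hxG]
    · rw [hd.2 x fun h4 => hxG (hqG h4), mul_zero, mul_zero, mul_zero, mul_zero]

end

end Pool.Agent.QUY
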