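import Pool.Agent.QUY.Dua
import Pool.Agent.QUY.Cut

/-!
# QUY/Min: minors

`van L C` as a representation of the contraction (the elements of `C` become loops), `minor`: the whole box of a representation of the minor
(with the elements outside of the box as loops) instead of the box.
-/

set_option autoImplicit false

noncomputable section

open scoped Classical

namespace Pool.Agent.QUY

open Pool.Agent.FRM Pool.Agent.QUS Pool.Agent.QUE
open Pool.Agent.QU (Fm van spt dg EqOn EqD InV TP Itv Sub Rich InVs)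

section

variable {K : Type} [Field K] {E : Type} [Fintype E]

private theorem Min_van_van (L : Submodule K (E → K)) (C A : Finset E) : van (van L C) A = van L (A ∪ C) := by
  ext v
  constructor
  · rintro ⟨⟨h1, h2⟩, h3⟩
    refine ⟨h1, fun x hx => ?_⟩
    rcases Finset.mem_union.1 hx with h | h
    · exact h3 x h
    · exact h2 x h
  · rintro ⟨h1, h2⟩
    exact ⟨⟨h1, fun x hx => h2 x (Finset.mem_union_right _ hx)⟩, fun x hx => h2 x (Finset.mem_union_left _ hx)⟩

theorem rk_van (L : Submodule K (E → K)) (C A : Finset E) : rk (van L C) A = rk L (A ∪ C) - rk L C := by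
  rw [rk, rk, rk, Min_van_van]
  ring

end

section

variable {E : Type} [Fintype E]

private theorem Min_mem {L : Submodule F4 (E → F4)} {d : E → F4} : d ∈ WW L ↔ ∀ v ∈ L, ∑ e, v e ^ 2 * d e = 0 := by
  constructor
  · intro h v hv
    exact h (fun e => v e ^ 2) ⟨v, hv, fun _ => rfl⟩
  · rintro h u ⟨v, hv, hu⟩
    rw [← h v hv]
    exact Finset.sum_congr rfl fun e _ => by rw [hu]

private theorem Min_cut (C : Finset E) (v d : E → F4) :
    ∑ e, cut ((Cᶜ : Finset E) : Set E) v e ^ 2 * d e = ∑ e, v e ^ 2 * cut ((Cᶜ : Finset E) : Set E) d e := by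
  refine Finset.sum_congr rfl fun e _ => ?_
  by_cases he : e ∈ Cᶜ
  · rw [cut_in he, cut_in he]
  · rw [cut_out he, cut_out he, zero_pow two_ne_zero, zero_mul, mul_zero]

theorem van_eq (L : Submodule F4 (E → F4)) (C : Finset E) : van L C = rst (WW (rst (WW L) Cᶜ)) Cᶜ := by
  ext v
  constructor
  · rintro ⟨hv, h0⟩
    have h1 : cut ((Cᶜ : Finset E) : Set E) v = v := by
      funext e
      by_cases he : e ∈ Cᶜ
      · exact cut_in he
      · rw [cut_out he, h0 e (not_not.1 fun h => he (Finset.mem_compl.2 h))]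
    refine ⟨v, Min_mem.2 ?_, h1⟩
    rintro u ⟨d, hd, rfl⟩
    rw [Min_cut, h1]
    rw [← ww_ww L] at hv
    exact Min_mem.1 hv d hd
  · rintro ⟨u, hu, rfl⟩
    refine ⟨?_, fun x hx => cut_out fun h => (Finset.mem_compl.1 h) hx⟩
    rw [← ww_ww L]
    refine Min_mem.2 fun d hd => ?_
    rw [← Min_cut]
    exact Min_mem.1 hu _ (rst_mem hd)

theorem cls_van {L : Submodule F4 (E → F4)} (h : Cls L) (C : Finset E) : Cls (van L C) := by
  rw [van_eq]
  exact cls_rst (cls_ww (cls_rst (cls_ww h) _)) _

/-- the vectors of the dual of the contraction are the vectors of the dual outside of `C` -/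
theorem ww_van {L : Submodule F4 (E → F4)} {C : Finset E} {d : E → F4} (hd : d ∈ WW (van L C)) :
    ∃ d' ∈ WW L, ∀ x, x ∉ C → d' x = d x := by
  have h1 : WW ((rst (WW L) Cᶜ).comap (cut ((Cᶜ : Finset E) : Set E))) = van L C := by
    ext v
    constructor
    · intro hv
      refine ⟨?_, fun x hx => ?_⟩
      · rw [← ww_ww L]
        exact Min_mem.2 fun d hd => Min_mem.1 hv d (Submodule.mem_comap.2 (rst_mem hd))
      · have h2 := Min_mem.1 hv (Pi.single x 1) (by
          rw [Submodule.mem_comap]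
          have h3 : cut ((Cᶜ : Finset E) : Set E) (Pi.single x (1 : F4)) = 0 := by
            funext e
            by_cases he : e ∈ Cᶜ
            · rw [cut_in he]
              have h4 : e ≠ x := fun h => (Finset.mem_compl.1 he) (h ▸ hx)
              exact Pi.single_eq_of_ne h4 _
            · rw [cut_out he]
              rfl
          rw [h3]
          exact Submodule.zero_mem _)
        rw [Finset.sum_eq_single x (fun e _ he => by rw [Pi.single_eq_of_ne he, zero_pow two_ne_zero, zero_mul])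
          (fun h => absurd (Finset.mem_univ x) h), Pi.single_eq_same, one_pow, one_mul] at h2
        exact h2
    · rintro ⟨hv, h0⟩
      refine Min_mem.2 fun d hd => ?_
      obtain ⟨d', hd', he⟩ := Submodule.mem_comap.1 hd
      have h2 : ∑ e, d e ^ 2 * v e = ∑ e, d' e ^ 2 * v e := by
        refine Finset.sum_congr rfl fun e _ => ?_
        by_cases hC : e ∈ C
        · rw [h0 e hC, mul_zero, mul_zero]
        · have h3 := congrFun he e
          rw [cut_in (Finset.mem_compl.2 hC), cut_in (Finset.mem_compl.2 hC)] at h3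
          rw [h3]
      rw [h2]
      rw [← ww_ww L] at hv
      exact Min_mem.1 hv d' hd'
  rw [← h1, ww_ww] at hd
  obtain ⟨d', hd', he⟩ := Submodule.mem_comap.1 hd
  refine ⟨d', hd', fun x hx => ?_⟩
  have h3 := congrFun he x
  rwa [cut_in (Finset.mem_compl.2 hx), cut_in (Finset.mem_compl.2 hx)] at h3

theorem ww_mono {L L' : Submodule F4 (E → F4)} (h : L ≤ L') : WW L' ≤ WW L :=
  fun _ hd => Min_mem.2 fun v hv => Min_mem.1 hd v (h hv)

theorem minor {L : Submodule F4 (E → F4)} {p : Itv E} (hL : Cls L) (hp : p.1 ⊆ p.2) :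
    ∃ L' : Submodule F4 (E → F4), Cls L' ∧ (∀ A, rk L' A = rk L ((A ∩ p.2) ∪ p.1) - rk L p.1) ∧
      ((∃ T, InVs (tp L') (∅, Finset.univ) T) → ∃ T, InVs (tp L) p T) := by
  refine ⟨van (rst L p.2) p.1, cls_van (cls_rst hL _) _, fun A => ?_, ?_⟩
  · rw [rk_van, rk_rst, rk_rst, Finset.union_inter_distrib_right, Finset.inter_eq_left.2 hp]
  rintro ⟨T, h1, h2⟩
  have hsp : ∀ {d : E → F4}, d ∈ spt (WW L) p.2 → d ∈ WW (van (rst L p.2) p.1) := by
    intro d hd
    rw [← spt_rst (Finset.Subset.refl p.2)] at hd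
    exact ww_mono (fun v (hv : v ∈ van (rst L p.2) p.1) => hv.1) hd.1
  have hcu : ∀ {c : E → F4}, c ∈ van L p.1 → cut ((p.2 : Finset E) : Set E) c ∈ van (rst L p.2) p.1 := by
    intro c hc
    refine ⟨rst_mem hc.1, fun x hx => ?_⟩
    rw [cut_in (hp hx), hc.2 x hx]
  refine ⟨T.compl₁₂ (cut ((p.2 : Finset E) : Set E)) LinearMap.id, ?_, ?_⟩
  · intro c hc d hd hcd
    rw [LinearMap.compl₁₂_apply]
    refine h1 _ ⟨hcu hc, fun x hx => absurd hx (Finset.notMem_empty x)⟩ d
      ⟨hsp hd, fun x hx => absurd (Finset.mem_univ x) hx⟩ fun x => ?_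
    by_cases hxG : x ∈ p.2
    · rw [cut_in hxG]
      exact hcd x
    · rw [cut_out hxG, zero_mul]
  · intro q hq hr he
    have hq2 : q.2 ⊆ p.2 := hq.2
    have hq1 : p.1 ⊆ q.1 := hq.1
    have hrk : ∀ A : Finset E, A ⊆ q.2 → rk (van (rst L p.2) p.1) A = rk L (A ∪ p.1) - rk L p.1 := by
      intro A hA
      rw [rk_van, rk_rst, rk_rst, Finset.union_inter_distrib_right, Finset.inter_eq_left.2 hp,
        Finset.inter_eq_left.2 (hA.trans hq2)]
    have hrk2 : ∀ A : Finset E, A ⊆ q.2 → q.1 ⊆ A → rk (van (rst L p.2) p.1) A = rk L A - rk L p.1 := by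
      intro A hA hA2
      rw [hrk A hA, Finset.union_eq_left.2 (hq1.trans hA2)]
    refine h2 q ⟨Finset.empty_subset _, Finset.subset_univ _⟩ ?_ ?_
    · show Rich (rk (van (rst L p.2) p.1)) q
      have hsub : ∀ i ∈ QUB.gs q, i ∈ q.2 := fun i hi => (Finset.mem_sdiff.1 hi).1
      obtain ⟨g1, g2, g3⟩ := hr
      refine ⟨g1, g2, ?_⟩
      have e2 := hrk2 q.2 (Finset.Subset.refl _) g1
      have e1 := hrk2 q.1 g1 (Finset.Subset.refl _)
      rcases g3 with ⟨g3, g4⟩ | ⟨g3, g4⟩
      · left
        have g3' : rk L q.2 = rk L q.1 + 2 := g3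
        refine ⟨by omega, fun i hi j hj hij => ?_⟩
        have g5 : rk L (q.1 ∪ {i, j}) = rk L q.1 + 2 := g4 i hi j hj hij
        have e3 := hrk2 (q.1 ∪ {i, j}) (Finset.union_subset g1 fun y hy => by
          rcases Finset.mem_insert.1 hy with rfl | hy
          · exact hsub _ hi
          · rw [Finset.mem_singleton.1 hy]
            exact hsub _ hj) Finset.subset_union_left
        omega
      · right
        have g3' : rk L q.2 = rk L q.1 + 3 := g3
        refine ⟨by omega, fun i hi j hj k hk hij hik hjk => ?_⟩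
        have g5 : rk L (q.1 ∪ {i, j, k}) = rk L q.1 + 3 := g4 i hi j hj k hk hij hik hjk
        have e3 := hrk2 (q.1 ∪ {i, j, k}) (Finset.union_subset g1 fun y hy => by
          rcases Finset.mem_insert.1 hy with rfl | hy
          · exact hsub _ hi
          rcases Finset.mem_insert.1 hy with rfl | hy
          · exact hsub _ hj
          · rw [Finset.mem_singleton.1 hy]
            exact hsub _ hk) Finset.subset_union_left
        omega
    · obtain ⟨l, hl⟩ := he
      refine ⟨l, ?_⟩
      rintro c ⟨hc, hc0⟩ d ⟨hd, hd0⟩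
      have hd' : d ∈ WW (van (rst L p.2) p.1) := hd
      obtain ⟨d', hd'W, hdd⟩ := ww_van hd'
      have hd's : d' ∈ spt (WW L) q.2 := by
        rw [← spt_rst hq2]
        refine ⟨hd'W, fun x hx => ?_⟩
        rw [hdd x fun h => hx (hr.1 (hq1 h)), hd0 x hx]
      have hcL : c ∈ van (rst L p.2) p.1 := hc
      obtain ⟨⟨u, hu, huc⟩, hc1⟩ := id hcL
      have hu0 : u ∈ van L q.1 := ⟨hu, fun x hx => by
        rw [← cut_in (v := u) (hq2 (hr.1 hx)), huc]
        exact hc0 x hx⟩
      have h3 := hl u hu0 d' hd's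
      rw [LinearMap.compl₁₂_apply, LinearMap.id_apply, huc] at h3
      have h4 : T c (d - d') = 0 := by
        refine h1 c ⟨hcL, fun x hx => absurd hx (Finset.notMem_empty x)⟩ (d - d')
          ⟨Submodule.sub_mem _ hd' ?_, fun x hx => absurd (Finset.mem_univ x) hx⟩ fun x => ?_
        · exact hsp (by
            refine ⟨hd's.1, fun x hx => hd's.2 x fun h => hx (hq2 h)⟩)
        · by_cases hx : x ∈ p.1
          · rw [hc1 x hx, zero_mul]
          · rw [Pi.sub_apply, hdd x hx, sub_self, mul_zero]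
      rw [map_sub, sub_eq_zero] at h4
      rw [h4, h3]
      show (0 : Fm F4 E) u d' + dg l u d' = (0 : Fm F4 E) _ d + dg l _ d
      rw [LinearMap.zero_apply, LinearMap.zero_apply, Pool.Agent.QU.dg_apply, Pool.Agent.QU.dg_apply]
      refine congrArg _ (Finset.sum_congr rfl fun x _ => ?_)
      by_cases hxG : x ∈ p.2
      · have h5 : c x = u x := by
          rw [← huc, cut_in hxG]
        by_cases hx1 : x ∈ p.1
        · rw [h5, hu0.2 x (hq1 hx1)]
          ring
        · rw [h5, hdd x hx1]
      · rw [hd's.2 x fun h => hxG (hq2 h), hd0 x fun h => hxG (hq2 h)]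
        ring

end

end Pool.Agent.QUY
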