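import Pool.Agent.QUY.Exm
import Pool.Agent.FRM.Une1

/-!
# QUY/ExU: the exchange preserves the class

Every fundamental vector of `Φ.map (exl x y z w)` is the image of a multiple by an element of the group of a fundamental vector of `Φ`.
-/

set_option autoImplicit false

noncomputable section

open scoped Classical

namespace Pool.Agent.QUY

open Pool.Agent.FRM Pool.Agent.QUS Pool.Agent.QUE

/-- zero or in the group -/
def ZG (a : KU) : Prop := a = 0 ∨ InG a

theorem zg_mul {a b : KU} (h : InG a) (hb : ZG b) : ZG (a * b) := by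
  rcases hb with h0 | h1
  · exact Or.inl (by rw [h0, mul_zero])
  · exact Or.inr (inG_mul h h1)

theorem zg_neg {a : KU} (h : ZG a) : ZG (-a) := by
  rcases h with h0 | h1
  · exact Or.inl (by rw [h0, neg_zero])
  · exact Or.inr (inG_neg h1)

theorem zg_div {a b : KU} (h : InG a) (hb : ZG b) : ZG (b / a) := by
  rw [div_eq_mul_inv, mul_comm]
  exact zg_mul (inG_inv h) hb

theorem zg_zero : ZG 0 := Or.inl rfl

variable {E : Type} [Fintype E] {Φ : Submodule KU (E → KU)} {x y z : E} {w : E → KU} {S : Finset E} {b e : E}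

omit [Fintype E] in
private theorem ExU_fv (hS : IsB (Φ.map (exl x y z w)) S) (hb : b ∈ S) {c : E → KU} (hc : c ∈ Φ)
    (h1 : exl x y z w c b = 1) (h0 : ∀ s ∈ S, s ≠ b → exl x y z w c s = 0) (he : ZG (exl x y z w c e)) :
    ZG (fv (Φ.map (exl x y z w)) S b e) := by
  rw [fv_uniq hS hb (Submodule.mem_map_of_mem hc) h1 h0]
  exact he

private theorem ExU_rk (hS : IsB (Φ.map (exl x y z w)) S) {T : Finset E} (h : Tri Φ x y z w)
    (hr : rk (Φ.map (exl x y z w)) S = rk Φ T - 1) (hc : T.card = S.card + 1) : IsB Φ T := by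
  obtain ⟨h1, h2⟩ := isB_iff.1 hS
  have h3 : rk (Φ.map (exl x y z w)) Finset.univ = rk Φ Finset.univ - 1 := by
    rw [rk_ex2 h (Or.inl ⟨Finset.mem_univ x, Finset.mem_univ y⟩)]
    congr 2
    ext e
    simp
  refine isB_iff.2 ⟨?_, ?_⟩
  · rw [hc]
    push_cast
    omega
  · rw [hc]
    push_cast
    omega

private theorem ExU_u0x (h : Tri Φ x y z w) (hΦ : U2M Φ) (hwz : InG (w z)) (hS : IsB (Φ.map (exl x y z w)) S)
    (hx : x ∉ S) (hy : y ∉ S) (hz : z ∉ S) (hb : b ∈ S) : ZG (fv (Φ.map (exl x y z w)) S b x) := by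
  have hB : IsB Φ (insert y S) := ExU_rk hS h (rk_ex0 h hx hy hz (Or.inr (Or.inl rfl))) (Finset.card_insert_of_notMem hy)
  have hbB : b ∈ insert y S := Finset.mem_insert_of_mem hb
  have hne : ∀ s ∈ S, s ≠ x ∧ s ≠ y ∧ s ≠ z := fun s hs =>
    ⟨fun h1 => hx (h1 ▸ hs), fun h1 => hy (h1 ▸ hs), fun h1 => hz (h1 ▸ hs)⟩
  obtain ⟨b1, b2, b3⟩ := hne b hb
  refine ExU_fv hS hb (fv_mem hB hbB) ?_ (fun s hs hsb => ?_) ?_
  · rw [exl_out b1 b2 b3, fv_self hB hbB]
  · obtain ⟨s1, s2, s3⟩ := hne s hs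
    rw [exl_out s1 s2 s3, fv_oth hB hbB (Finset.mem_insert_of_mem hs) hsb]
  · rw [exl_x, fv_oth hB hbB (Finset.mem_insert_self y S) (Ne.symm b2), zero_div, zero_sub]
    refine zg_neg (zg_div hwz (hΦ _ hB b hbB z ?_))
    rw [Finset.mem_insert, not_or]
    exact ⟨h.hyz.symm, hz⟩

private theorem ExU_u0 (h : Tri Φ x y z w) (hΦ : U2M Φ) (hwx : InG (w x)) (hwy : InG (w y)) (hwz : InG (w z))
    (hS : IsB (Φ.map (exl x y z w)) S)
    (hx : x ∉ S) (hy : y ∉ S) (hz : z ∉ S) (hb : b ∈ S) (he : e ∉ S) : ZG (fv (Φ.map (exl x y z w)) S b e) := by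
  by_cases e1 : e = x
  · rw [e1]
    exact ExU_u0x h hΦ hwz hS hx hy hz hb
  by_cases e2 : e = y
  · rw [e2]
    rw [h.exl_rot] at hS ⊢
    exact ExU_u0x h.rot hΦ hwx hS hy hz hx hb
  by_cases e3 : e = z
  · rw [e3]
    rw [h.exl_rot, h.rot.exl_rot] at hS ⊢
    exact ExU_u0x h.rot.rot hΦ hwy hS hz hx hy hb
  have hB : IsB Φ (insert y S) := ExU_rk hS h (rk_ex0 h hx hy hz (Or.inr (Or.inl rfl))) (Finset.card_insert_of_notMem hy)
  have hbB : b ∈ insert y S := Finset.mem_insert_of_mem hb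
  have hne : ∀ s ∈ S, s ≠ x ∧ s ≠ y ∧ s ≠ z := fun s hs =>
    ⟨fun h1 => hx (h1 ▸ hs), fun h1 => hy (h1 ▸ hs), fun h1 => hz (h1 ▸ hs)⟩
  obtain ⟨b1, b2, b3⟩ := hne b hb
  refine ExU_fv hS hb (fv_mem hB hbB) ?_ (fun s hs hsb => ?_) ?_
  · rw [exl_out b1 b2 b3, fv_self hB hbB]
  · obtain ⟨s1, s2, s3⟩ := hne s hs
    rw [exl_out s1 s2 s3, fv_oth hB hbB (Finset.mem_insert_of_mem hs) hsb]
  · rw [exl_out e1 e2 e3]
    refine hΦ _ hB b hbB e ?_
    rw [Finset.mem_insert, not_or]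
    exact ⟨e2, he⟩

private theorem ExU_u1 (h : Tri Φ x y z w) (hΦ : U2M Φ) (hwx : InG (w x)) (hwy : InG (w y)) (hwz : InG (w z))
    (hS : IsB (Φ.map (exl x y z w)) S)
    (hx : x ∈ S) (hy : y ∉ S) (hz : z ∉ S) (hb : b ∈ S) (he : e ∉ S) : ZG (fv (Φ.map (exl x y z w)) S b e) := by
  have hz' : z ∉ S.erase x := fun h1 => hz (Finset.mem_of_mem_erase h1)
  have hy' : y ∉ insert z (S.erase x) := by
    rw [Finset.mem_insert, not_or]
    exact ⟨h.hyz, fun h1 => hy (Finset.mem_of_mem_erase h1)⟩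
  have hB : IsB Φ (insert y (insert z (S.erase x))) := by
    refine ExU_rk hS h (rk_ex1 h hx hy hz) ?_
    rw [Finset.card_insert_of_notMem hy', Finset.card_insert_of_notMem hz', Finset.card_erase_add_one hx]
  have myB : y ∈ insert y (insert z (S.erase x)) := Finset.mem_insert_self y _
  have mzB : z ∈ insert y (insert z (S.erase x)) := Finset.mem_insert_of_mem (Finset.mem_insert_self z _)
  have mB : ∀ s ∈ S, s ≠ x → s ∈ insert y (insert z (S.erase x)) := fun s hs hsx =>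
    Finset.mem_insert_of_mem (Finset.mem_insert_of_mem (Finset.mem_erase.2 ⟨hsx, hs⟩))
  have nB : ∀ {f : E}, f ≠ y → f ≠ z → (f = x ∨ f ∉ S) → f ∉ insert y (insert z (S.erase x)) := by
    intro f f1 f2 f3 hf
    rcases Finset.mem_insert.1 hf with hf | hf
    · exact f1 hf
    rcases Finset.mem_insert.1 hf with hf | hf
    · exact f2 hf
    · rcases f3 with f3 | f3
      · exact (Finset.mem_erase.1 hf).1 f3
      · exact f3 (Finset.mem_erase.1 hf).2
  have xB : x ∉ insert y (insert z (S.erase x)) := nB h.hxy h.hzx.symm (Or.inl rfl)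
  have hne : ∀ s ∈ S, s ≠ y ∧ s ≠ z := fun s hs => ⟨fun h1 => hy (h1 ▸ hs), fun h1 => hz (h1 ▸ hs)⟩
  have hex : e ≠ x := fun h1 => he (h1 ▸ hx)
  by_cases hbx : b = x
  · subst hbx
    by_cases e3 : e = z
    · refine ExU_fv hS hb (c := -(w z) • fv Φ (insert y (insert z (S.erase b))) z) (Φ.smul_mem _ (fv_mem hB mzB)) ?_
        (fun s hs hsb => ?_) ?_
      · rw [exl_x, Pi.smul_apply, Pi.smul_apply, fv_self hB mzB, fv_oth hB mzB myB h.hyz, smul_eq_mul, smul_eq_mul, mul_zero,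
          zero_div, mul_one, neg_div, div_self h.wz]
        ring
      · obtain ⟨s2, s3⟩ := hne s hs
        rw [exl_out hsb s2 s3, Pi.smul_apply, fv_oth hB mzB (mB s hs hsb) s3, smul_zero]
      · rw [e3, exl_z h.hzx h.hyz, Pi.smul_apply, Pi.smul_apply, fv_oth hB mzB myB h.hyz, smul_eq_mul, smul_eq_mul, mul_zero,
          zero_div, sub_zero, neg_mul, neg_div]
        exact zg_neg (zg_div hwx (zg_mul hwz (hΦ _ hB z mzB b xB)))
    · refine ExU_fv hS hb (c := w y • fv Φ (insert y (insert z (S.erase b))) y) (Φ.smul_mem _ (fv_mem hB myB)) ?_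
        (fun s hs hsb => ?_) ?_
      · rw [exl_x, Pi.smul_apply, Pi.smul_apply, fv_self hB myB, fv_oth hB myB mzB h.hyz.symm, smul_eq_mul, smul_eq_mul, mul_zero,
          zero_div, mul_one, div_self h.wy, sub_zero]
      · obtain ⟨s2, s3⟩ := hne s hs
        rw [exl_out hsb s2 s3, Pi.smul_apply, fv_oth hB myB (mB s hs hsb) s2, smul_zero]
      · by_cases e2 : e = y
        · rw [e2, exl_y h.hxy, Pi.smul_apply, Pi.smul_apply, fv_oth hB myB mzB h.hyz.symm, smul_eq_mul, smul_eq_mul, mul_zero,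
            zero_div, zero_sub]
          exact zg_neg (zg_div hwx (zg_mul hwy (hΦ _ hB y myB b xB)))
        · rw [exl_out hex e2 e3, Pi.smul_apply, smul_eq_mul]
          exact zg_mul hwy (hΦ _ hB y myB e (nB e2 e3 (Or.inr he)))
  · obtain ⟨b2, b3⟩ := hne b hb
    have hbB := mB b hb hbx
    refine ExU_fv hS hb (fv_mem hB hbB) ?_ (fun s hs hsb => ?_) ?_
    · rw [exl_out hbx b2 b3, fv_self hB hbB]
    · by_cases hsx : s = x
      · rw [hsx, exl_x, fv_oth hB hbB myB b2.symm, fv_oth hB hbB mzB b3.symm, zero_div, zero_div, sub_zero]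
      · obtain ⟨s2, s3⟩ := hne s hs
        rw [exl_out hsx s2 s3, fv_oth hB hbB (mB s hs hsx) hsb]
    · by_cases e2 : e = y
      · rw [e2, exl_y h.hxy, fv_oth hB hbB mzB b3.symm, zero_div, zero_sub]
        exact zg_neg (zg_div hwx (hΦ _ hB b hbB x xB))
      by_cases e3 : e = z
      · rw [e3, exl_z h.hzx h.hyz, fv_oth hB hbB myB b2.symm, zero_div, sub_zero]
        exact zg_div hwx (hΦ _ hB b hbB x xB)
      · rw [exl_out hex e2 e3]
        exact hΦ _ hB b hbB e (nB e2 e3 (Or.inr he))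

private theorem ExU_u2 (h : Tri Φ x y z w) (hΦ : U2M Φ) (hwx : InG (w x)) (hwy : InG (w y)) (hwz : InG (w z))
    (hS : IsB (Φ.map (exl x y z w)) S)
    (hx : x ∈ S) (hy : y ∈ S) (hz : z ∉ S) (hb : b ∈ S) (he : e ∉ S) : ZG (fv (Φ.map (exl x y z w)) S b e) := by
  have hB : IsB Φ (insert z S) := by
    refine ExU_rk hS h ?_ (Finset.card_insert_of_notMem hz)
    rw [rk_ex2 h (Or.inl ⟨hx, hy⟩)]
    congr 2
    ext f
    simp only [Finset.mem_union, Finset.mem_insert, Finset.mem_singleton]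
    constructor
    · rintro (h1 | rfl | rfl | rfl)
      · exact Or.inr h1
      · exact Or.inr hx
      · exact Or.inr hy
      · exact Or.inl rfl
    · rintro (h1 | h1)
      · exact Or.inr (Or.inr (Or.inr h1))
      · exact Or.inl h1
  have mB : ∀ s ∈ S, s ∈ insert z S := fun s hs => Finset.mem_insert_of_mem hs
  have mzB : z ∈ insert z S := Finset.mem_insert_self z S
  have hsz : ∀ s ∈ S, s ≠ z := fun s hs h1 => hz (h1 ▸ hs)
  have hex : e ≠ x := fun h1 => he (h1 ▸ hx)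
  have hey : e ≠ y := fun h1 => he (h1 ▸ hy)
  by_cases hbx : b = x
  · subst hbx
    have my := mB y hy
    refine ExU_fv hS hb (c := w y • fv Φ (insert z S) y) (Φ.smul_mem _ (fv_mem hB my)) ?_ (fun s hs hsb => ?_) ?_
    · rw [exl_x, Pi.smul_apply, Pi.smul_apply, fv_self hB my, fv_oth hB my mzB h.hyz.symm, smul_eq_mul, smul_eq_mul, mul_zero,
        zero_div, mul_one, div_self h.wy, sub_zero]
    · by_cases hsy : s = y
      · rw [hsy, exl_y h.hxy, Pi.smul_apply, Pi.smul_apply, fv_oth hB my mzB h.hyz.symm, fv_oth hB my (mB b hb) h.hxy,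
          smul_zero, zero_div, zero_div, sub_zero]
      · rw [exl_out hsb hsy (hsz s hs), Pi.smul_apply, fv_oth hB my (mB s hs) hsy, smul_zero]
    · by_cases e3 : e = z
      · rw [e3, exl_z h.hzx h.hyz, Pi.smul_apply, Pi.smul_apply, fv_self hB my, fv_oth hB my (mB b hb) h.hxy,
          smul_zero, zero_div, smul_eq_mul, mul_one, div_self h.wy, zero_sub]
        exact Or.inr (inG_neg inG_one)
      · rw [exl_out hex hey e3, Pi.smul_apply, smul_eq_mul]
        refine zg_mul hwy (hΦ _ hB y my e ?_)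
        rw [Finset.mem_insert, not_or]
        exact ⟨e3, he⟩
  by_cases hby : b = y
  · subst hby
    have mx := mB x hx
    refine ExU_fv hS hb (c := -(w x) • fv Φ (insert z S) x) (Φ.smul_mem _ (fv_mem hB mx)) ?_ (fun s hs hsb => ?_) ?_
    · rw [exl_y h.hxy, Pi.smul_apply, Pi.smul_apply, fv_self hB mx, fv_oth hB mx mzB h.hzx, smul_zero, zero_div,
        smul_eq_mul, mul_one, neg_div, div_self h.wx]
      ring
    · by_cases hsx : s = x
      · rw [hsx, exl_x, Pi.smul_apply, Pi.smul_apply, fv_oth hB mx mzB h.hzx, fv_oth hB mx (mB b hb) h.hxy.symm,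
          smul_zero, zero_div, zero_div, sub_zero]
      · rw [exl_out hsx hsb (hsz s hs), Pi.smul_apply, fv_oth hB mx (mB s hs) hsx, smul_zero]
    · by_cases e3 : e = z
      · rw [e3, exl_z h.hzx h.hyz, Pi.smul_apply, Pi.smul_apply, fv_self hB mx, fv_oth hB mx (mB b hb) h.hxy.symm,
          smul_zero, zero_div, smul_eq_mul, mul_one, neg_div, div_self h.wx, sub_zero]
        exact Or.inr (inG_neg inG_one)
      · rw [exl_out hex hey e3, Pi.smul_apply, smul_eq_mul, neg_mul]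
        refine zg_neg (zg_mul hwx (hΦ _ hB x mx e ?_))
        rw [Finset.mem_insert, not_or]
        exact ⟨e3, he⟩
  · have hbB := mB b hb
    have hbz := hsz b hb
    refine ExU_fv hS hb (fv_mem hB hbB) ?_ (fun s hs hsb => ?_) ?_
    · rw [exl_out hbx hby hbz, fv_self hB hbB]
    · by_cases hsx : s = x
      · rw [hsx, exl_x, fv_oth hB hbB (mB y hy) (Ne.symm hby), fv_oth hB hbB mzB hbz.symm, zero_div, zero_div, sub_zero]
      by_cases hsy : s = y
      · rw [hsy, exl_y h.hxy, fv_oth hB hbB (mB x hx) (Ne.symm hbx), fv_oth hB hbB mzB hbz.symm, zero_div, zero_div, sub_zero]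
      · rw [exl_out hsx hsy (hsz s hs), fv_oth hB hbB (mB s hs) hsb]
    · by_cases e3 : e = z
      · rw [e3, exl_z h.hzx h.hyz, fv_oth hB hbB (mB x hx) (Ne.symm hbx), fv_oth hB hbB (mB y hy) (Ne.symm hby),
          zero_div, zero_div, sub_zero]
        exact zg_zero
      · rw [exl_out hex hey e3]
        refine hΦ _ hB b hbB e ?_
        rw [Finset.mem_insert, not_or]
        exact ⟨e3, he⟩

private theorem ExU_u3 (h : Tri Φ x y z w) (hS : IsB (Φ.map (exl x y z w)) S) (hx : x ∈ S) (hy : y ∈ S) (hz : z ∈ S) : False := by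
  obtain ⟨h1, -⟩ := isB_iff.1 hS
  rw [rk_ex2 h (Or.inl ⟨hx, hy⟩)] at h1
  have h2 : S ∪ {x, y, z} = S := by
    refine Finset.union_eq_left.2 fun f hf => ?_
    simp only [Finset.mem_insert, Finset.mem_singleton] at hf
    rcases hf with rfl | rfl | rfl <;> assumption
  rw [h2] at h1
  obtain ⟨T, hT, hA⟩ := isB_adapt Φ S
  have h3 := rk_eq hT hA
  have h4 : (T ∩ S).card ≤ S.card := Finset.card_le_card Finset.inter_subset_right
  omega

theorem u2m_ex (h : Tri Φ x y z w) (hΦ : U2M Φ) (hwx : InG (w x)) (hwy : InG (w y)) (hwz : InG (w z)) :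
    U2M (Φ.map (exl x y z w)) := by
  intro S hS b hb e he
  show ZG _
  by_cases hx : x ∈ S <;> by_cases hy : y ∈ S <;> by_cases hz : z ∈ S
  · exact (ExU_u3 h hS hx hy hz).elim
  · exact ExU_u2 h hΦ hwx hwy hwz hS hx hy hz hb he
  · rw [h.exl_rot, h.rot.exl_rot] at hS ⊢
    exact ExU_u2 h.rot.rot hΦ hwz hwx hwy hS hz hx hy hb he
  · exact ExU_u1 h hΦ hwx hwy hwz hS hx hy hz hb he
  · rw [h.exl_rot] at hS ⊢
    exact ExU_u2 h.rot hΦ hwy hwz hwx hS hy hz hx hb he
  · rw [h.exl_rot] at hS ⊢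
    exact ExU_u1 h.rot hΦ hwy hwz hwx hS hy hz hx hb he
  · rw [h.exl_rot, h.rot.exl_rot] at hS ⊢
    exact ExU_u1 h.rot.rot hΦ hwz hwx hwy hS hz hx hy hb he
  · exact ExU_u0 h hΦ hwx hwy hwz hS hx hy hz hb he

end Pool.Agent.QUY
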