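import Pool.Agent.QUY.ExQ
import Pool.Agent.QUY.ExU

/-!
# QUY/Exc: the Delta-Y exchange in box form

`{x, y, z}` is a triad of the minor `p` of `L`: a cocircuit of the restriction to `p.2` which is contained in `gs p`.  The exchange `L'` has the same ground set, is in the class,
its rank on `p` is smaller by one, and `V_*(L', p)` nonempty implies `V_*(L, p)` nonempty.  Dually for a triangle (`QUY/Dua`).
-/

set_option autoImplicit false

noncomputable section

open scoped Classical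

namespace Pool.Agent.QUY

open Pool.Agent.FRM Pool.Agent.QUS Pool.Agent.QUE
open Pool.Agent.QU (Fm van spt dg EqOn EqD InV TP Itv Sub Rich InVs)

variable {E : Type} [Fintype E]

/-- a triad `{x, y, z}` of the minor `p` (for the rank function `r`) -/
structure Triad (r : Finset E → ℤ) (p : Itv E) (x y z : E) : Prop where
  hxy : x ≠ y
  hyz : y ≠ z
  hzx : z ≠ x
  gx : x ∈ QUB.gs p
  gy : y ∈ QUB.gs p
  gz : z ∈ QUB.gs p
  lt : r (p.2 \ {x, y, z}) + 1 = r p.2
  ix : r (insert x (p.2 \ {x, y, z})) = r p.2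
  iy : r (insert y (p.2 \ {x, y, z})) = r p.2
  iz : r (insert z (p.2 \ {x, y, z})) = r p.2

section

variable {K : Type} [Field K]

/-- a vector supported in the triad, normalised at `x` -/
private theorem Exc_tri {L : Submodule K (E → K)} {p : Itv E} {x y z : E} (h : Triad (rk L) p x y z) {w : E → K} (hw : w ∈ L)
    (h0 : ∀ e ∈ p.2 \ {x, y, z}, w e = 0) (ho : ∀ e, e ∉ p.2 → w e = 0) (hx : w x ≠ 0) : Tri L x y z w := by
  have hs : ∀ i ∈ p.2, insert i (p.2 \ {x, y, z}) ⊆ p.2 := fun i hi => Finset.insert_subset hi Finset.sdiff_subset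
  have hxp : x ∈ p.2 := (Finset.mem_sdiff.1 h.gx).1
  have key : ∀ i ∈ p.2, rk L (insert i (p.2 \ {x, y, z})) = rk L p.2 → w i ≠ 0 := by
    intro i hi hr hwi
    refine hx (van_of_rk (hs i hi) hr hw (fun e he => ?_) x hxp)
    rcases Finset.mem_insert.1 he with rfl | he
    · exact hwi
    · exact h0 e he
  refine ⟨h.hxy, h.hyz, h.hzx, hw, hx, key y (Finset.mem_sdiff.1 h.gy).1 h.iy, key z (Finset.mem_sdiff.1 h.gz).1 h.iz, ?_⟩
  intro e h1 h2 h3
  by_cases he : e ∈ p.2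
  · refine h0 e (Finset.mem_sdiff.2 ⟨he, ?_⟩)
    simp only [Finset.mem_insert, Finset.mem_singleton, not_or]
    exact ⟨h1, h2, h3⟩
  · exact ho e he

private theorem Exc_vec {L : Submodule K (E → K)} {p : Itv E} {x y z : E} (h : Triad (rk L) p x y z) :
    ∃ w ∈ L, (∀ e ∈ p.2 \ {x, y, z}, w e = 0) ∧ w x = 1 := by
  refine exists_vec ?_
  rw [h.ix, ← h.lt]
  omega

end

/-- the vector over the 2-uniform partial field -/
private theorem Exc_u {Φ : Submodule KU (E → KU)} {p : Itv E} {x y z : E} (h : Triad (rk Φ) p x y z) (hΦ : U2M Φ)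
    (hu : rk Φ Finset.univ = rk Φ p.2) (ho : ∀ e, e ∉ p.2 → rk Φ {e} = 0) :
    ∃ w, Tri Φ x y z w ∧ InG (w x) ∧ InG (w y) ∧ InG (w z) := by
  set A := p.2 \ {x, y, z} with hA
  have hxA : x ∉ A := by simp [hA]
  have hyA : y ∉ A := by simp [hA]
  have hzA : z ∉ A := by simp [hA]
  obtain ⟨S, hS, h1, h2⟩ := exists_chain Φ (Finset.subset_insert x A)
  have r1 := rk_eq hS h1
  have r2 := rk_eq hS h2
  have r3 := (isB_iff.1 hS).2
  rw [hu] at r3
  have r4 := h.ix
  have r5 := h.lt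
  rw [← hA] at r4 r5
  have hsub : S ⊆ insert x A := by
    have h3 : (S ∩ insert x A).card = S.card := by
      have : ((S ∩ insert x A).card : ℤ) = S.card := by rw [← r2, r4, r3]
      exact_mod_cast this
    have h4 := Finset.eq_of_subset_of_card_le (Finset.inter_subset_left (s₁ := S) (s₂ := insert x A)) h3.ge
    exact Finset.inter_eq_left.1 h4
  have hxS : x ∈ S := by
    by_contra hx
    have h3 : S ∩ A = S := Finset.inter_eq_left.2 fun e he =>
      (Finset.mem_insert.1 (hsub he)).resolve_left fun h4 => hx (h4 ▸ he)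
    rw [h3] at r1
    omega
  have nS : ∀ i, i ≠ x → i ∉ A → i ∉ S := fun i hi1 hi2 hi => (Finset.mem_insert.1 (hsub hi)).elim hi1 hi2
  have wx : fv Φ S x x = 1 := fv_self hS hxS
  have hT : Tri Φ x y z (fv Φ S x) := by
    refine Exc_tri h (fv_mem hS hxS) (fun e he => h1 x hxS hxA e he) (fun e he => ?_) (by rw [wx]; exact one_ne_zero)
    refine van_of_rk (A := ∅) (B := {e}) (Finset.empty_subset _) ?_ (fv_mem hS hxS)
      (fun f hf => absurd hf (Finset.notMem_empty f)) e (Finset.mem_singleton_self e)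
    rw [ho e he, (isRk Φ).empty]
  refine ⟨_, hT, by rw [wx]; exact inG_one, ?_, ?_⟩
  · exact (hΦ S hS x hxS y (nS y h.hxy.symm hyA)).resolve_left hT.wy
  · exact (hΦ S hS x hxS z (nS z h.hzx hzA)).resolve_left hT.wz

/-- the Delta-Y exchange of a triad, with the ranks of the sets which contain the triad -/
theorem delta_y' {L : Submodule F4 (E → F4)} {p : Itv E} {x y z : E} (hL : Cls L) (hp : p.1 ⊆ p.2) (h : Triad (rk L) p x y z) :
    ∃ L' : Submodule F4 (E → F4), Cls L' ∧ rk L' p.2 - rk L' p.1 = rk L p.2 - rk L p.1 - 1 ∧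
      (∀ A ⊆ p.2, x ∈ A → y ∈ A → z ∈ A → rk L' A = rk L A - 1) ∧
      ((∃ T, InVs (tp L') p T) → ∃ T, InVs (tp L) p T) := by
  obtain ⟨Φ, hΦ1, hΦ2⟩ := cls_rst hL p.2
  have hrk := rk_congr hΦ1
  have hsub : ∀ i ∈ p.2, insert i (p.2 \ {x, y, z}) ⊆ p.2 := fun i hi => Finset.insert_subset hi Finset.sdiff_subset
  have hx2 := (Finset.mem_sdiff.1 h.gx).1
  have hy2 := (Finset.mem_sdiff.1 h.gy).1
  have hz2 := (Finset.mem_sdiff.1 h.gz).1
  have hx1 := (Finset.mem_sdiff.1 h.gx).2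
  have hy1 := (Finset.mem_sdiff.1 h.gy).2
  have hz1 := (Finset.mem_sdiff.1 h.gz).2
  have h2 : Triad (rk (rst L p.2)) p x y z := by
    refine ⟨h.hxy, h.hyz, h.hzx, h.gx, h.gy, h.gz, ?_, ?_, ?_, ?_⟩
    · rw [rk_rst_sub Finset.sdiff_subset, rk_rst_sub (Finset.Subset.refl _)]
      exact h.lt
    · rw [rk_rst_sub (hsub x hx2), rk_rst_sub (Finset.Subset.refl _)]
      exact h.ix
    · rw [rk_rst_sub (hsub y hy2), rk_rst_sub (Finset.Subset.refl _)]
      exact h.iy
    · rw [rk_rst_sub (hsub z hz2), rk_rst_sub (Finset.Subset.refl _)]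
      exact h.iz
  obtain ⟨w, hw, hw0, hwx⟩ := Exc_vec h2
  have hT : Tri (rst L p.2) x y z w := Exc_tri h2 hw hw0 (fun e he => sup_rst w hw e he) (by rw [hwx]; exact one_ne_zero)
  have hu : ∃ w', Tri Φ x y z w' ∧ InG (w' x) ∧ InG (w' y) ∧ InG (w' z) := by
    refine Exc_u (p := p) (by rw [hrk]; exact h2) hΦ2 ?_ fun e he => ?_
    · rw [hrk, rk_rst, rk_rst, Finset.univ_inter, Finset.inter_self]
    · rw [hrk, rk_rst, Finset.singleton_inter_of_notMem he, (isRk L).empty]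
  obtain ⟨w', hT', g1, g2, g3⟩ := hu
  refine ⟨(rst L p.2).map (exl x y z w), ⟨Φ.map (exl x y z w'), fun S => isB_congr (rk_ex_congr hT' hT hrk),
    u2m_ex hT' hΦ2 g1 g2 g3⟩, ?_, fun A hA h1 h2 h3 => ?_, fun hV => ?_⟩
  · have u2 : p.2 ∪ {x, y, z} = p.2 := by
      refine Finset.union_eq_left.2 fun f hf => ?_
      simp only [Finset.mem_insert, Finset.mem_singleton] at hf
      rcases hf with rfl | rfl | rfl <;> assumption
    rw [rk_ex2 hT (Or.inl ⟨hx2, hy2⟩), u2, rk_ex0 hT hx1 hy1 hz1 (Or.inl rfl),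
      rk_insert hT.mem (fun e he => hT.out e (ne_in hx1 he) (ne_in hy1 he) (ne_in hz1 he)) hT.wx,
      rk_rst_sub (Finset.Subset.refl _), rk_rst_sub hp]
    ring
  · have u2 : A ∪ {x, y, z} = A := by
      refine Finset.union_eq_left.2 fun f hf => ?_
      simp only [Finset.mem_insert, Finset.mem_singleton] at hf
      rcases hf with rfl | rfl | rfl <;> assumption
    rw [rk_ex2 hT (Or.inl ⟨h1, h2⟩), u2, rk_rst_sub hA]
  · obtain ⟨T, hTT⟩ := exists_ex hT hx2 hy2 hz2 hx1 hy1 hz1 hV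
    exact ⟨_, invs_rst (Finset.Subset.refl _) hTT⟩

/-- the Delta-Y exchange of a triad -/
theorem delta_y {L : Submodule F4 (E → F4)} {p : Itv E} {x y z : E} (hL : Cls L) (hp : p.1 ⊆ p.2) (h : Triad (rk L) p x y z) :
    ∃ L' : Submodule F4 (E → F4), Cls L' ∧ rk L' p.2 - rk L' p.1 = rk L p.2 - rk L p.1 - 1 ∧
      ((∃ T, InVs (tp L') p T) → ∃ T, InVs (tp L) p T) := by
  obtain ⟨L', h1, h2, -, h3⟩ := delta_y' hL hp h
  exact ⟨L', h1, h2, h3⟩

/-- a disjoint triad is a triad of the exchange -/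
theorem delta_y2 {L : Submodule F4 (E → F4)} {p : Itv E} {x y z x' y' z' : E} (hL : Cls L) (hp : p.1 ⊆ p.2) (h : Triad (rk L) p x y z)
    (h' : Triad (rk L) p x' y' z') (hd : Disjoint ({x, y, z} : Finset E) {x', y', z'}) :
    ∃ L' : Submodule F4 (E → F4), Cls L' ∧ rk L' p.2 - rk L' p.1 = rk L p.2 - rk L p.1 - 1 ∧
      Triad (rk L') p x' y' z' ∧ ((∃ T, InVs (tp L') p T) → ∃ T, InVs (tp L) p T) := by
  obtain ⟨L', h1, h2, h3, h4⟩ := delta_y' hL hp h
  have hx2 := (Finset.mem_sdiff.1 h.gx).1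
  have hy2 := (Finset.mem_sdiff.1 h.gy).1
  have hz2 := (Finset.mem_sdiff.1 h.gz).1
  have mA : ∀ e ∈ ({x, y, z} : Finset E), e ∈ p.2 → e ∈ p.2 \ {x', y', z'} := fun e he h2 =>
    Finset.mem_sdiff.2 ⟨h2, Finset.disjoint_left.1 hd he⟩
  have ax := mA x (by simp) hx2
  have ay := mA y (by simp) hy2
  have az := mA z (by simp) hz2
  have e1 := h3 _ (Finset.sdiff_subset (s := p.2) (t := {x', y', z'})) ax ay az
  have e2 := h3 p.2 (Finset.Subset.refl _) hx2 hy2 hz2
  have e3 : ∀ i ∈ p.2, rk L' (insert i (p.2 \ {x', y', z'})) = rk L (insert i (p.2 \ {x', y', z'})) - 1 := fun i hi =>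
    h3 _ (Finset.insert_subset hi Finset.sdiff_subset) (Finset.mem_insert_of_mem ax) (Finset.mem_insert_of_mem ay)
      (Finset.mem_insert_of_mem az)
  refine ⟨L', h1, h2, ⟨h'.hxy, h'.hyz, h'.hzx, h'.gx, h'.gy, h'.gz, ?_, ?_, ?_, ?_⟩, h4⟩
  · rw [e1, e2]
    have := h'.lt
    omega
  · rw [e3 _ (Finset.mem_sdiff.1 h'.gx).1, e2, h'.ix]
  · rw [e3 _ (Finset.mem_sdiff.1 h'.gy).1, e2, h'.iy]
  · rw [e3 _ (Finset.mem_sdiff.1 h'.gz).1, e2, h'.iz]

end Pool.Agent.QUY
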