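import Pool.Agent.QUY.Rkb
import Pool.Agent.QUS.Du

/-!
# QUY/Dua: duality

`WW L = ort (fro L)` is the orthogonal space of the Frobenius twist of `L`; `rk_ww`: its rank function, `ww_ww`: twice the dual,
`tp_ww`: the twisted pair, `cls_ww`: the class is closed under duality (the orthogonal space `dl Φ univ` with the trivial star operation).
-/

set_option autoImplicit false

noncomputable section

open scoped Classical

namespace Pool.Agent.QUY

open Pool.Agent.FRM Pool.Agent.QUS Pool.Agent.QUE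
open Pool.Agent.QU (Fm van spt dg EqOn EqD InV TP Itv Sub Rich InVs)

variable {E : Type} [Fintype E]

private theorem dua_spt (L : Submodule F4 (E → F4)) : spt (WW L) Finset.univ = WW L := by
  ext d
  exact ⟨fun h => h.1, fun h => ⟨h, fun x hx => absurd (Finset.mem_univ x) hx⟩⟩

theorem rk_ww (L : Submodule F4 (E → F4)) : rk (WW L) = QUB.rd (rk L) := by
  have hc : ∀ A : Finset E, van (WW L) A = spt (WW L) Aᶜ := by
    intro A
    rw [← Pool.Agent.QU.van_compl, compl_compl]
  have h0 := finrank_spt L Finset.univ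
  rw [dua_spt] at h0
  funext A
  have h1 := finrank_spt L Aᶜ
  have h2 : (A.card : ℤ) + (Aᶜ).card = (Finset.univ : Finset E).card := by
    rw [Finset.card_univ]
    exact_mod_cast Finset.card_add_card_compl A
  unfold QUB.rd
  rw [rk, hc A]
  linarith

private theorem dua_sq {ι : Type} (T : Finset ι) (f : ι → F4) : (∑ s ∈ T, f s) ^ 2 = ∑ s ∈ T, f s ^ 2 := by
  induction T using Finset.induction_on with
  | empty => simp
  | insert a T ha ih => rw [Finset.sum_insert ha, Finset.sum_insert ha, F4.add_sq, ih]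

private theorem dua_le (L : Submodule F4 (E → F4)) : L ≤ WW (WW L) := by
  intro v hv
  rintro u ⟨d, hd, hu⟩
  have h1 : ∑ e, v e ^ 2 * d e = 0 := hd (fun e => v e ^ 2) ⟨v, hv, fun e => rfl⟩
  have h2 : ∑ e, u e * v e = (∑ e, v e ^ 2 * d e) ^ 2 := by
    rw [dua_sq]
    exact Finset.sum_congr rfl fun e _ => by rw [hu, mul_pow, F4.pow22, mul_comm]
  rw [h2, h1, zero_pow two_ne_zero]

theorem ww_ww (L : Submodule F4 (E → F4)) : WW (WW L) = L := by
  refine (Submodule.eq_of_le_of_finrank_eq (dua_le L) ?_).symm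
  have h1 : (Module.finrank F4 L : ℤ) = Module.finrank F4 (WW (WW L)) := by
    rw [← rk_univ, ← rk_univ, rk_ww, rk_ww, QUB.rd_rd (isRk L)]
  exact_mod_cast h1

private theorem dua_ext {S T : TP F4 E} (h1 : S.U = T.U) (h2 : S.W = T.W) (h3 : S.r = T.r) : S = T := by
  cases S
  cases T
  dsimp only at h1 h2 h3
  subst h1 h2 h3
  rfl

theorem tp_ww (L : Submodule F4 (E → F4)) : tp (WW L) = (tp L).dual := by
  exact dua_ext rfl (ww_ww L) (rk_ww L)

private theorem dua_neg {x : KU} (h : InG x) : InG (-x) := by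
  obtain ⟨u, rfl⟩ := h
  refine ⟨(u.1, u.2.1, u.2.2.1, u.2.2.2.1, u.2.2.2.2.1, u.2.2.2.2.2 + 1), ?_⟩
  have h1 : ∀ z : ZMod 2, ((-1 : KU)) ^ (z + 1).val = - (-1) ^ z.val := by
    intro z
    have h2 : z = 0 ∨ z = 1 := by
      revert z
      decide
    rcases h2 with rfl | rfl
    · have e1 : ((0 : ZMod 2) + 1).val = 1 := rfl
      have e2 : (0 : ZMod 2).val = 0 := rfl
      rw [e1, e2, pow_one, pow_zero]
    · have e1 : ((1 : ZMod 2) + 1).val = 0 := rfl
      have e2 : (1 : ZMod 2).val = 1 := rfl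
      rw [e1, e2, pow_one, pow_zero, neg_neg]
  unfold ev
  dsimp only
  rw [h1, mul_neg]

private theorem dua_isB (L : Submodule F4 (E → F4)) (S : Finset E) : IsB (WW L) (Finset.univ \ S) ↔ IsB L S := by
  rw [isB_iff, isB_iff, rk_ww]
  have h1 : Finset.univ \ S = Sᶜ := rfl
  have h2 := (isRk L).empty
  have h3 : (S.card : ℤ) + (Sᶜ).card = (Finset.univ : Finset E).card := by
    rw [Finset.card_univ]
    exact_mod_cast Finset.card_add_card_compl S
  rw [h1]
  unfold QUB.rd
  rw [compl_compl, Finset.compl_univ, h2]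
  constructor
  · rintro ⟨h4, h5⟩
    constructor <;> linarith
  · rintro ⟨h4, h5⟩
    constructor <;> linarith

theorem cls_ww {L : Submodule F4 (E → F4)} (h : Cls L) : Cls (WW L) := by
  obtain ⟨Φ, hB, hU⟩ := h
  let : StarRing KU := starRingOfComm
  have hst : ∀ x : KU, star x = x := fun _ => rfl
  have hG : Sup Φ (Finset.univ : Finset E) := fun v _ e he => absurd (Finset.mem_univ e) he
  obtain ⟨T, hT⟩ := exists_isB Φ
  have hcc : ∀ S : Finset E, Finset.univ \ (Finset.univ \ S) = S := fun S =>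
    Finset.sdiff_sdiff_eq_self (Finset.subset_univ S)
  have hdl : ∀ S : Finset E, IsB (dl Φ Finset.univ) (Finset.univ \ S) ↔ IsB Φ S := fun S =>
    isB_dl hG ⟨T, hT⟩ (Finset.subset_univ S)
  refine ⟨dl Φ Finset.univ, fun S => ?_, fun S hS b hb e he => ?_⟩
  · rw [← hcc S, hdl, dua_isB, hB]
  · obtain ⟨R, rfl⟩ : ∃ R : Finset E, S = Finset.univ \ R := ⟨Finset.univ \ S, (hcc S).symm⟩
    have hR : IsB Φ R := (hdl R).1 hS
    have heR : e ∈ R := by
      by_contra h1
      exact he (Finset.mem_sdiff.2 ⟨Finset.mem_univ e, h1⟩)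
    rw [fv_dl hG hR heR hb, hst]
    rcases hU R hR e heR b (Finset.mem_sdiff.1 hb).2 with h1 | h1
    · left
      rw [h1, neg_zero]
    · right
      exact dua_neg h1

theorem invs_of_ww {L : Submodule F4 (E → F4)} {p : Itv E} (h : ∃ T, InVs (tp (WW L)) (QUB.dp p) T) :
    ∃ T, InVs (tp L) p T := by
  obtain ⟨T, hT⟩ := h
  rw [tp_ww] at hT
  refine ⟨LinearMap.flip T, ?_⟩
  rw [← Pool.Agent.QU.inVs_dual]
  exact hT

end Pool.Agent.QUY
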