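import Pool.Agent.QUY.Defs
import Pool.Agent.QUE.Chr
import Pool.Agent.QUE.Tr
import Pool.Agent.QUA.Phi

/-!
# QUY/Ent: the entries with respect to any basis are quotients of subdeterminants

`Ent_val`: the determinants of `fv Φ R (σ k) (τ l)` are zero or in the group, by expansion along the columns `l` with `τ l ∈ R`.
`u2m_rowL`: for another basis `S` with the enumeration `τ` the determinant for `τ` is not zero, and `fv Φ S (τ k) e` times this determinant is the
determinant for `Function.update τ k e` (Cramer).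
`cls_of_u2g`: `Φ = rowL A (rws t)`; the bases of `Φ` and of `rowL (sqm g) (rws t)` are the same by `QUA.phi_det`, `QUE.det_sq`, `QUE.det_ne_iff`.
-/

set_option autoImplicit false

noncomputable section

open scoped Classical

namespace Pool.Agent.QUY

open Pool.Agent.FRM Pool.Agent.QUS Pool.Agent.QUE

variable {E : Type} [Fintype E]

omit [Fintype E] in
private theorem Ent_enum (A : Finset E) {m : ℕ} (h : A.card = m) :
    ∃ f : Fin m → E, Function.Injective f ∧ Finset.univ.image f = A := by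
  refine ⟨fun k => ((A.equivFinOfCardEq h).symm k : E), ?_, ?_⟩
  · exact Subtype.val_injective.comp (A.equivFinOfCardEq h).symm.injective
  · ext x
    rw [Finset.mem_image]
    constructor
    · rintro ⟨k, -, rfl⟩
      exact ((A.equivFinOfCardEq h).symm k).2
    · intro hx
      exact ⟨A.equivFinOfCardEq h ⟨x, hx⟩, Finset.mem_univ _, by simp⟩

private theorem Ent_pow {x : KU} (h : InG x) (n : ℕ) : InG ((-1) ^ n * x) := by
  rcases neg_one_pow_eq_or KU n with h1 | h1
  · rw [h1, one_mul]
    exact h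
  · rw [h1, neg_one_mul]
    exact inG_neg h

omit [Fintype E] in
private theorem Ent_val {A : E → E → KU} {R : Finset E}
    (h : ∀ (m : ℕ) (f g : Fin m → E), (∀ k, f k ∈ R) → (∀ k, g k ∉ R) →
      (Matrix.of fun k l => A (f k) (g l)).det = 0 ∨ InG (Matrix.of fun k l => A (f k) (g l)).det) (r : ℕ) :
    ∀ (σ τ : Fin r → E), Function.Injective σ → (∀ k, σ k ∈ R) →
      (Matrix.of fun k l => fv (rowL A R) R (σ k) (τ l)).det = 0 ∨
        InG (Matrix.of fun k l => fv (rowL A R) R (σ k) (τ l)).det := by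
  have hR := isB_rowL A R
  induction r with
  | zero =>
    intro σ τ _ _
    rw [Matrix.det_fin_zero]
    exact Or.inr inG_one
  | succ r ih =>
    intro σ τ hi hσ
    by_cases hall : ∀ l, τ l ∉ R
    · have e : (Matrix.of fun k l => fv (rowL A R) R (σ k) (τ l)) = Matrix.of fun k l => A (σ k) (τ l) := by
        ext k l
        exact fv_rowL (hσ k) (hall l)
      rw [e]
      exact h _ σ τ hσ hall
    · push Not at hall
      obtain ⟨l₀, hl₀⟩ := hall
      by_cases hex : ∃ k₀, τ l₀ = σ k₀
      · obtain ⟨k₀, hk₀⟩ := hex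
        have e0 : (Matrix.of fun k l => fv (rowL A R) R (σ k) (τ l)).det = (-1) ^ ((k₀ : ℕ) + (l₀ : ℕ)) *
            (Matrix.of fun k l => fv (rowL A R) R (σ (k₀.succAbove k)) (τ (l₀.succAbove l))).det := by
          rw [Matrix.det_succ_column _ l₀, Finset.sum_eq_single k₀]
          · have e1 : (Matrix.of fun k l => fv (rowL A R) R (σ k) (τ l)) k₀ l₀ = 1 := by
              show fv (rowL A R) R (σ k₀) (τ l₀) = 1
              rw [hk₀]
              exact fv_self hR (hσ k₀)
            rw [e1, mul_one]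
            rfl
          · intro k _ hk
            have e1 : (Matrix.of fun k l => fv (rowL A R) R (σ k) (τ l)) k l₀ = 0 :=
              fv_oth hR (hσ k) hl₀ fun h1 => hk (hi (h1.symm.trans hk₀))
            rw [e1, mul_zero, zero_mul]
          · intro h1
            exact absurd (Finset.mem_univ _) h1
        rw [e0]
        rcases ih (fun k => σ (k₀.succAbove k)) (fun l => τ (l₀.succAbove l)) (hi.comp Fin.succAbove_right_injective)
            (fun k => hσ _) with h0 | h0
        · left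
          rw [h0, mul_zero]
        · exact Or.inr (Ent_pow h0 _)
      · left
        exact Matrix.det_eq_zero_of_column_eq_zero l₀ fun k => fv_oth hR (hσ k) hl₀ fun h1 => hex ⟨k, h1⟩

omit [Fintype E] in
private theorem Ent_mul {Φ : Submodule KU (E → KU)} {S : Finset E} (hS : IsB Φ S) {r : ℕ} {τ : Fin r → E}
    (hi : Function.Injective τ) (hτ : Finset.univ.image τ = S) {v : E → KU} (hv : v ∈ Φ) (e : E) :
    v e = ∑ m, v (τ m) * fv Φ S (τ m) e := by
  have h1 := congrFun (expand hS hv) e
  rw [Finset.sum_apply] at h1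
  have h2 : ∑ c ∈ S, (v c • fv Φ S c) e = ∑ m, v (τ m) * fv Φ S (τ m) e := by
    conv_lhs => rw [← hτ]
    rw [Finset.sum_image fun a _ b _ h => hi h, hτ]
    rfl
  exact h1.trans h2

omit [Fintype E] in
private theorem Ent_cr {Φ : Submodule KU (E → KU)} {R S : Finset E} (hR : IsB Φ R) (hS : IsB Φ S) {r : ℕ}
    {σ τ : Fin r → E} (s1 : Function.Injective σ) (s2 : Finset.univ.image σ = R) (t1 : Function.Injective τ)
    (t2 : Finset.univ.image τ = S) :
    (Matrix.of fun k l => fv Φ R (σ k) (τ l)).det ≠ 0 ∧ ∀ (k₀ : Fin r) (e : E),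
      (Matrix.of fun k l => fv Φ R (σ k) (τ l)).det * fv Φ S (τ k₀) e =
        (Matrix.of fun k l => fv Φ R (σ k) (Function.update τ k₀ e l)).det := by
  have hσ : ∀ k, σ k ∈ R := fun k => by
    rw [← s2]
    exact Finset.mem_image_of_mem _ (Finset.mem_univ k)
  have hτ : ∀ k, τ k ∈ S := fun k => by
    rw [← t2]
    exact Finset.mem_image_of_mem _ (Finset.mem_univ k)
  constructor
  · intro h0
    have h1 : (Matrix.of fun k l => fv Φ R (σ k) (τ l)) * (Matrix.of fun k l => fv Φ S (τ k) (σ l)) = 1 := by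
      ext i j
      rw [Matrix.mul_apply]
      refine (Ent_mul hS t1 t2 (fv_mem hR (hσ i)) (σ j)).symm.trans ?_
      rw [Matrix.one_apply]
      split_ifs with hij
      · rw [hij]
        exact fv_self hR (hσ j)
      · exact fv_oth hR (hσ i) (hσ j) fun h => hij (s1 h).symm
    have h2 := congrArg Matrix.det h1
    rw [Matrix.det_mul, h0, zero_mul, Matrix.det_one] at h2
    exact zero_ne_one h2
  · intro k₀ e
    have h2 : (Matrix.of fun k l => fv Φ R (σ k) (τ l)) *
        (1 : Matrix (Fin r) (Fin r) KU).updateCol k₀ (fun m => fv Φ S (τ m) e) =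
          Matrix.of fun k l => fv Φ R (σ k) (Function.update τ k₀ e l) := by
      ext i j
      rw [Matrix.mul_apply]
      refine Eq.trans ?_ (Ent_mul hS t1 t2 (fv_mem hR (hσ i)) (Function.update τ k₀ e j)).symm
      refine Finset.sum_congr rfl fun m _ => ?_
      show fv Φ R (σ i) (τ m) * _ = _
      congr 1
      by_cases hj : j = k₀
      · rw [hj, Matrix.updateCol_self, Function.update_self]
      · rw [Matrix.updateCol_ne hj, Function.update_of_ne hj, Matrix.one_apply]
        split_ifs with hmj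
        · rw [hmj]
          exact (fv_self hS (hτ j)).symm
        · exact (fv_oth hS (hτ m) (hτ j) fun h => hmj (t1 h).symm).symm
    have h3 : ((1 : Matrix (Fin r) (Fin r) KU).updateCol k₀ (fun m => fv Φ S (τ m) e)).det = fv Φ S (τ k₀) e := by
      rw [← Matrix.cramer_apply, Matrix.cramer_one]
      rfl
    rw [← h2, Matrix.det_mul, h3]

omit [Fintype E] in
private theorem Ent_img {A : Finset E} {m : ℕ} (u : {x // x ∈ A} ≃ Fin m) :
    Finset.univ.image (fun k => ((u.symm k : {x // x ∈ A}) : E)) = A := by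
  ext x
  rw [Finset.mem_image]
  constructor
  · rintro ⟨k, -, rfl⟩
    exact (u.symm k).2
  · intro hx
    exact ⟨u ⟨x, hx⟩, Finset.mem_univ _, by rw [Equiv.symm_apply_apply]⟩

private theorem Ent_iff {K K' : Type} [Field K] [Field K'] {R : Finset E} {A : E → E → K} {B : E → E → K'}
    (hdet : ∀ (m : ℕ) (f g : Fin m → E), (∀ k, f k ∈ R) → (∀ k, g k ∉ R) →
      ((Matrix.of fun k l => B (f k) (g l)).det = 0 → (Matrix.of fun k l => A (f k) (g l)).det = 0))
    {S : Finset E} (h : IsB (rowL A R) S) : IsB (rowL B R) S := by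
  have hc : S.card = R.card := card_eq (fun _ _ _ _ _ => uz_field _) h (isB_rowL A R)
  have h1 : (S \ R).card = (R \ S).card := Finset.card_sdiff_comm hc
  obtain ⟨u, -⟩ : ∃ u : {x // x ∈ R \ S} ≃ Fin (R \ S).card, u = u := ⟨Finset.equivFinOfCardEq rfl, rfl⟩
  obtain ⟨v, -⟩ : ∃ v : {x // x ∈ S \ R} ≃ Fin (R \ S).card, v = v := ⟨Finset.equivFinOfCardEq h1, rfl⟩
  have hu := Ent_img u
  have hv := Ent_img v
  have hf : ∀ k, ((u.symm k : {x // x ∈ R \ S}) : E) ∈ R := fun k => (Finset.mem_sdiff.1 (u.symm k).2).1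
  have hg : ∀ k, ((v.symm k : {x // x ∈ S \ R}) : E) ∉ R := fun k => (Finset.mem_sdiff.1 (v.symm k).2).2
  have hS : (R \ Finset.univ.image (fun k => ((u.symm k : {x // x ∈ R \ S}) : E))) ∪
      Finset.univ.image (fun k => ((v.symm k : {x // x ∈ S \ R}) : E)) = S := by
    rw [hu, hv]
    ext x
    rw [Finset.mem_union, Finset.mem_sdiff, Finset.mem_sdiff, Finset.mem_sdiff]
    tauto
  have hfi : Function.Injective fun k => ((u.symm k : {x // x ∈ R \ S}) : E) :=
    Subtype.val_injective.comp u.symm.injective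
  have hgi : Function.Injective fun k => ((v.symm k : {x // x ∈ S \ R}) : E) :=
    Subtype.val_injective.comp v.symm.injective
  have h2 := (det_ne_iff A hf hg).2 ⟨hfi, hgi, by rw [hS]; exact h⟩
  have h3 := ((det_ne_iff B hf hg).1 fun h0 => h2 (hdet _ _ _ hf hg h0)).2.2
  rwa [hS] at h3

theorem u2m_rowL {A : E → E → KU} {R : Finset E}
    (h : ∀ (m : ℕ) (f g : Fin m → E), (∀ k, f k ∈ R) → (∀ k, g k ∉ R) →
      (Matrix.of fun k l => A (f k) (g l)).det = 0 ∨ InG (Matrix.of fun k l => A (f k) (g l)).det) :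
    U2M (rowL A R) := by
  intro S hS b hb e he
  have hR := isB_rowL A R
  obtain ⟨σ, s1, s2⟩ := Ent_enum R rfl
  obtain ⟨τ, t1, t2⟩ := Ent_enum S (card_eq (fun _ _ _ _ _ => uz_field _) hS hR)
  have hσ : ∀ k, σ k ∈ R := fun k => by
    rw [← s2]
    exact Finset.mem_image_of_mem _ (Finset.mem_univ k)
  rw [← t2] at hb
  obtain ⟨k₀, -, rfl⟩ := Finset.mem_image.1 hb
  obtain ⟨h1, h2⟩ := Ent_cr hR hS s1 s2 t1 t2
  have h3 := h2 k₀ e
  have h4 := (Ent_val h _ σ τ s1 hσ).resolve_left h1
  have h5 : fv (rowL A R) S (τ k₀) e = (Matrix.of fun k l => fv (rowL A R) R (σ k) (Function.update τ k₀ e l)).det *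
      ((Matrix.of fun k l => fv (rowL A R) R (σ k) (τ l)).det)⁻¹ := by
    rw [← h3, mul_comm, inv_mul_cancel_left₀ h1]
  rw [h5]
  rcases Ent_val h _ σ (Function.update τ k₀ e) s1 hσ with h6 | h6
  · left
    rw [h6, zero_mul]
  · exact Or.inr (inG_mul h6 (inG_inv h4))

theorem cls_of_u2g {t : E → Bool} {g : E → E → F4} (hm : QUA.Hm t g) (hU : QUA.U2G t g Finset.univ) :
    Cls (rowL (sqm g) (rws t)) := by
  obtain ⟨A, hA, hA'⟩ := hU
  have hrc : ∀ {m : ℕ} {f h : Fin m → E}, (∀ k, f k ∈ rws t) → (∀ k, h k ∉ rws t) → QUA.RC t Finset.univ f h := by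
    intro m f h hf hh
    refine ⟨fun a => ⟨Finset.mem_univ _, ?_⟩, fun b => ⟨Finset.mem_univ _, ?_⟩⟩
    · have h1 := hf a
      simpa [rws] using h1
    · have h1 := hh b
      simpa [rws] using h1
  have key : ∀ (m : ℕ) (f h : Fin m → E), (∀ k, f k ∈ rws t) → (∀ k, h k ∉ rws t) →
      ((Matrix.of fun k l => A (f k) (h l)).det = 0 ↔ (Matrix.of fun k l => sqm g (f k) (h l)).det = 0) := by
    intro m f h hf hh
    have h1 := QUA.phi_det hA hA' m f h (hrc hf hh)
    have h2 : (Matrix.of fun k l => sqm g (f k) (h l)).det = (QUA.sm g f h).det ^ 2 := det_sq g f h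
    rw [h2, pow_eq_zero_iff two_ne_zero]
    exact h1
  refine ⟨rowL A (rws t), fun S => ⟨Ent_iff fun m f h hf hh => (key m f h hf hh).2,
    Ent_iff fun m f h hf hh => (key m f h hf hh).1⟩, u2m_rowL fun m f h hf hh => ?_⟩
  exact hA m f h (hrc hf hh)

end Pool.Agent.QUY
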