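import Pool.Agent.QUY.Asm
import Pool.Agent.QUD.H8

/-!
# QUY/Exist: EXIST of layer D for all boxes of the class
-/

set_option autoImplicit false

noncomputable section

open scoped Classical

namespace Pool.Agent.QUY

open Pool.Agent.FRM Pool.Agent.QUS Pool.Agent.QUE
open Pool.Agent.QU (Itv InVs)

variable {E : Type} [Fintype E] {L : Submodule F4 (E → F4)} {p : Itv E}

theorem exist (hL : Cls L) (hp : p.1 ⊆ p.2) : ∃ T, InVs (tp L) p T :=
  exist_of (fun _ hL' _ hp' h => QUD.h8 hL' hp' h) hL hp

end Pool.Agent.QUY
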