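import Pool.Agent.QUY.Defs

/-!
# QUY/Rkb: the rank function and the bases

The rank function determines the bases and conversely (two fields).
-/

set_option autoImplicit false

noncomputable section

open scoped Classical

namespace Pool.Agent.QUY

open Pool.Agent.QUS Pool.Agent.QUE
open Pool.Agent.QU (van)

variable {K : Type} [Field K] {E : Type} [Fintype E] {L : Submodule K (E → K)} {S A B : Finset E} {b e : E}

theorem rk_univ (L : Submodule K (E → K)) : rk L Finset.univ = Module.finrank K L := by
  have h1 : van L (Finset.univ : Finset E) = ⊥ := by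
    rw [eq_bot_iff]
    intro v hv
    rw [Submodule.mem_bot]
    funext e
    exact hv.2 e (Finset.mem_univ e)
  rw [rk, h1, finrank_bot]
  push_cast
  ring

/-- an independent set is contained in a basis which is adapted to a larger set -/
theorem exists_ext (h : rk L S = S.card) (hSB : S ⊆ B) :
    ∃ T, IsB L T ∧ S ⊆ T ∧ ∀ b ∈ T, b ∉ B → ∀ e ∈ B, fv L T b e = 0 := by
  obtain ⟨T, hT, h1, h2⟩ := exists_chain L hSB
  refine ⟨T, hT, ?_, h2⟩
  have h3 := rk_eq hT h1
  rw [h] at h3
  have h4 : S.card ≤ (T ∩ S).card := by exact_mod_cast h3.le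
  have h5 : T ∩ S = S := Finset.eq_of_subset_of_card_le Finset.inter_subset_right h4
  exact Finset.inter_eq_right.1 h5

theorem isB_iff : IsB L S ↔ rk L S = S.card ∧ rk L Finset.univ = S.card := by
  constructor
  · intro h
    refine ⟨rk_sub_basis h (Finset.Subset.refl S), ?_⟩
    rw [rk_univ, finrank_eq h]
  · rintro ⟨h1, h2⟩
    obtain ⟨T, hT, hST, -⟩ := exists_ext h1 (Finset.Subset.refl S)
    have h3 : T.card = S.card := by
      have h4 := finrank_eq hT
      rw [rk_univ, h4] at h2
      exact_mod_cast h2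
    have h5 : S = T := Finset.eq_of_subset_of_card_le hST h3.le
    rw [h5]
    exact hT

section

variable {K' : Type} [Field K'] {L' : Submodule K' (E → K')}

theorem rk_congr (h : ∀ S, IsB L S ↔ IsB L' S) : rk L = rk L' := by
  funext A
  obtain ⟨S, hS, h1⟩ := isB_adapt L A
  obtain ⟨T, hT, h2⟩ := isB_adapt L' A
  have h3 := rk_eq hS h1
  have h4 := rk_eq hT h2
  have h5 := rk_le (A := A) ((h S).1 hS)
  have h6 := rk_le (A := A) ((h T).2 hT)
  omega

theorem isB_congr (h : rk L = rk L') : IsB L S ↔ IsB L' S := by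
  rw [isB_iff, isB_iff, h]

end

/-- a vector which vanishes on `A` and not at `x` -/
theorem rk_insert {w : E → K} (hw : w ∈ L) (h0 : ∀ e ∈ A, w e = 0) {x : E} (hx : w x ≠ 0) : rk L (insert x A) = rk L A + 1 := by
  have h1 := (isRk L).unit A x
  have h2 := (isRk L).mono A (insert x A) (Finset.subset_insert x A)
  have h3 : rk L A ≠ rk L (insert x A) := by
    intro h
    exact hx (van_of_rk (Finset.subset_insert x A) h hw h0 x (Finset.mem_insert_self x A))
  omega

theorem exists_vec (h : rk L A ≠ rk L (insert b A)) : ∃ w ∈ L, (∀ e ∈ A, w e = 0) ∧ w b = 1 := by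
  by_contra hc
  push Not at hc
  have h1 : van L (insert b A) = van L A := by
    refine le_antisymm (fun v hv => ⟨hv.1, fun x hx => hv.2 x (Finset.mem_insert_of_mem hx)⟩) fun v hv => ⟨hv.1, ?_⟩
    intro x hx
    rcases Finset.mem_insert.1 hx with rfl | hx
    · by_contra h2
      refine hc ((v x)⁻¹ • v) (L.smul_mem _ hv.1) (fun e he => ?_) ?_
      · rw [Pi.smul_apply, hv.2 e he, smul_zero]
      · rw [Pi.smul_apply, smul_eq_mul, inv_mul_cancel₀ h2]
    · exact hv.2 x hx
  apply h
  rw [rk, rk, h1]

/-- a basis is determined by its intersection with a set to which it is adapted and a basis of the restriction -/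
theorem inter_of_adapt {T : Finset E} (hT : IsB L T) (hST : S ⊆ T) (hSB : S ⊆ B) (h : rk L B = S.card)
    (hB : ∀ b ∈ T, b ∉ B → ∀ e ∈ B, fv L T b e = 0) : T ∩ B = S := by
  have h1 := rk_eq hT hB
  rw [h] at h1
  have h2 : (T ∩ B).card = S.card := by exact_mod_cast h1.symm
  exact (Finset.eq_of_subset_of_card_le (Finset.subset_inter hST hSB) h2.le).symm

end Pool.Agent.QUY
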