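import Pool.Agent.QUY.Defs
import Pool.Agent.QUL.LSumS
import Pool.Agent.QUL.LTh

/-!
# QUY/Step: boxes which are not 3-connected

`sum_step`: a box which is not 3-connected has a form in `V_*` if all its minors with fewer elements have (direct sums and 2-sums).
-/

set_option autoImplicit false

noncomputable section

open scoped Classical

namespace Pool.Agent.QUY

open Pool.Agent.FRM Pool.Agent.QUS Pool.Agent.QUE
open Pool.Agent.QU (Fm EqD InV Itv InVs Th3 HasRich Sub TP hb Half)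
open QUB (gs Cn lam Ok Hv)

section

variable {K E : Type} [Field K] [Fintype E]

theorem sum_step (S : TP K E) {p : Itv E} (hp : p.1 ⊆ p.2) (h : ¬ (Cn S.r p ∧ Th3 S.r p))
    (IH : ∀ q : Itv E, q.1 ⊆ q.2 → Sub q p → (gs q).card < (gs p).card → ∃ T, InVs S q T) : ∃ T, InVs S p T := by
  by_cases hC : Cn S.r p
  · have h3 : ¬ Th3 S.r p := fun h3 => h ⟨hC, h3⟩
    unfold Th3 at h3
    push Not at h3
    obtain ⟨A, hA, hA2, hA2', hl⟩ := h3
    have hB : gs p \ A ⊆ gs p := Finset.sdiff_subset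
    have h1 := hC A hA (Finset.card_pos.1 (by omega)) (Finset.card_pos.1 (by omega))
    have hl1 : lam S.r p A = 1 := by omega
    have hl1' : lam S.r p (gs p \ A) = 1 := by
      rw [← hl1]
      exact QUB.lam_compl S.r hp hA
    have hcard : (gs p \ A).card + A.card = (gs p).card := Finset.card_sdiff_add_card_eq_card hA
    obtain ⟨X, b, hX⟩ := Pool.Agent.QU.half_exists S.rk hp hA hl1
    obtain ⟨X', a, hX'⟩ := Pool.Agent.QU.half_exists S.rk hp hB hl1'
    obtain ⟨s1, s2, s3, s4⟩ := Pool.Agent.QU.half_sub hp hA hX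
    obtain ⟨s1', s2', s3', s4'⟩ := Pool.Agent.QU.half_sub hp hB hX'
    obtain ⟨TA, hTA⟩ := IH (hb p A X b) s3 ⟨s1, s2⟩ (by
      rw [s4]
      have := Finset.card_insert_le b A
      omega)
    obtain ⟨TB, hTB⟩ := IH (hb p (gs p \ A) X' a) s3' ⟨s1', s2'⟩ (by
      rw [s4']
      have := Finset.card_insert_le a (gs p \ A)
      omega)
    obtain ⟨T, hT, -, -⟩ := Pool.Agent.QU.two_sum_star S hp hA hl1 hX hX' hTA hTB
    exact ⟨T, hT⟩
  · unfold QUB.Cn at hC
    push Not at hC
    obtain ⟨A, hA, hne, hne', hl⟩ := hC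
    have hcard : (gs p \ A).card + A.card = (gs p).card := Finset.card_sdiff_add_card_eq_card hA
    have hA' : ∀ y, y ∈ A → y ∈ p.2 ∧ y ∉ p.1 := fun y hy => Finset.mem_sdiff.1 (hA hy)
    have c1 := Finset.card_pos.2 hne
    have c2 := Finset.card_pos.2 hne'
    have g1 : gs (p.1, p.1 ∪ A) = A := by
      ext y
      have := hA' y
      simp only [QUB.gs, Finset.mem_sdiff, Finset.mem_union]
      tauto
    have g2 : gs (p.1, p.2 \ A) = gs p \ A := by
      ext y
      simp only [QUB.gs, Finset.mem_sdiff]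
      tauto
    obtain ⟨TA, hTA⟩ := IH (p.1, p.1 ∪ A) Finset.subset_union_left
      ⟨Finset.Subset.refl _, Finset.union_subset hp fun y hy => (hA' y hy).1⟩ (by
      rw [g1]
      omega)
    obtain ⟨TB, hTB⟩ := IH (p.1, p.2 \ A) (fun y hy => Finset.mem_sdiff.2 ⟨hp hy, fun h' => (hA' y h').2 hy⟩)
      ⟨Finset.Subset.refl _, Finset.sdiff_subset⟩ (by
      rw [g2]
      omega)
    obtain ⟨T, hT, -, -⟩ := Pool.Agent.QU.one_sum_star S hp hA (by omega) hTA hTB
    exact ⟨T, hT⟩

/-- a 3-connected box is `Ok` -/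
theorem ok_of_th3 {r : Finset E → ℤ} {p : Itv E} (h3 : Th3 r p) : Ok r p := by
  intro A hA hl hh
  obtain ⟨⟨N, -, hN⟩, ⟨N', -, hN'⟩⟩ := hh
  have c1 : 2 ≤ A.card := by
    have := Finset.card_le_card (Finset.inter_subset_right : N ∩ A ⊆ A)
    omega
  have c2 : 2 ≤ (gs p \ A).card := by
    have := Finset.card_le_card (Finset.inter_subset_right : N' ∩ (gs p \ A) ⊆ gs p \ A)
    omega
  have := h3 A hA c1 c2
  omega

end

end Pool.Agent.QUY
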