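import Pool.Agent.QUE.Tp
import Pool.Agent.QUE.Dt
import Pool.Agent.QUL.LDual

/-!
# QUY: the class of the 2-uniform matroids in box language, duality, deletion, the Delta-Y exchange (layer D of (Q4), MP_f270bf_lc). Definitions

`U2M Φ`: all entries of the subspace `Φ` of `KU ^ E` with respect to all its bases are zero or in the group of the 2-uniform partial field.
`Cls L`: the subspace `L` over the field with four elements has the same bases as some `Φ` with `U2M Φ` (no other relation between `L` and `Φ`).
-/

set_option autoImplicit false

noncomputable section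

open scoped Classical

namespace Pool.Agent.QUY

open Pool.Agent.FRM Pool.Agent.QUS Pool.Agent.QUE

variable {E : Type}

/-- all entries with respect to all bases are zero or in the group of the 2-uniform partial field -/
def U2M (Φ : Submodule KU (E → KU)) : Prop :=
  ∀ S, IsB Φ S → ∀ b ∈ S, ∀ e, e ∉ S → fv Φ S b e = 0 ∨ InG (fv Φ S b e)

/-- the matroid of `L` is 2-uniform -/
def Cls (L : Submodule F4 (E → F4)) : Prop :=
  ∃ Φ : Submodule KU (E → KU), (∀ S, IsB Φ S ↔ IsB L S) ∧ U2M Φ

end Pool.Agent.QUY
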