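import Pool.Agent.QUY.Core
import Pool.Agent.QUY.Step
import Pool.Agent.QUY.Min
import Pool.Agent.QUD.RC
import Pool.Agent.QUN.Fin

/-!
# QUY/Asm: assembly of layer D

`exist_of`: EXIST for all boxes of the class from `core` and the boxes with at most eight elements. Induction on `(n, r)` over all representations in the
class: not rich: `T = 0`; not 3-connected: `sum_step`; `2 r > n`: the dual box (smaller rank); a triad: `delta_y`, also in the dual box if
`2 r = n`; `r ≤ 3`: `QUD.r3` and `minor`; else `core` and `QUN.invs_of_ne`.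
-/

set_option autoImplicit false

noncomputable section

open scoped Classical

namespace Pool.Agent.QUY

open Pool.Agent.FRM Pool.Agent.QUS Pool.Agent.QUE
open Pool.Agent.QU (Fm EqD InV Itv InVs Th3 HasRich)
open QUB (gs Cn)

variable {E : Type} [Fintype E] {L : Submodule F4 (E → F4)} {p : Itv E}

/-- rank at most three -/
theorem low_rank (hL : Cls L) (hp : p.1 ⊆ p.2) (hr : rk L p.2 - rk L p.1 ≤ 3) : ∃ T, InVs (tp L) p T := by
  obtain ⟨L', hL', hrk, hT⟩ := minor hL hp
  refine hT ?_
  obtain ⟨Φ, hB, hU⟩ := hL'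
  obtain ⟨S, hS⟩ := exists_isB L'
  refine QUD.r3 hB hU hS ?_
  have h1 := (isB_iff.1 hS).2
  rw [hrk, Finset.univ_inter, Finset.union_eq_left.2 hp] at h1
  omega

theorem rk_dp (L : Submodule F4 (E → F4)) (hp : p.1 ⊆ p.2) :
    rk (WW L) (QUB.dp p).2 - rk (WW L) (QUB.dp p).1 = (gs p).card - (rk L p.2 - rk L p.1) := by
  have h1 : ((QUB.dp p).1).card + p.2.card = Fintype.card E := by
    show (p.2ᶜ).card + p.2.card = _
    rw [add_comm]
    exact Finset.card_add_card_compl p.2
  have h2 : ((QUB.dp p).2).card + p.1.card = Fintype.card E := by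
    show (p.1ᶜ).card + p.1.card = _
    rw [add_comm]
    exact Finset.card_add_card_compl p.1
  have h3 : (gs p).card + p.1.card = p.2.card := Finset.card_sdiff_add_card_eq_card hp
  have e1 : ((QUB.dp p).1)ᶜ = p.2 := compl_compl p.2
  have e2 : ((QUB.dp p).2)ᶜ = p.1 := compl_compl p.1
  rw [rk_ww]
  unfold QUB.rd
  rw [e1, e2]
  omega

theorem card_dp (p : Itv E) : (gs (QUB.dp p)).card = (gs p).card := by
  have h : gs (QUB.dp p) = gs p := by
    ext y
    show y ∈ p.1ᶜ \ p.2ᶜ ↔ y ∈ p.2 \ p.1
    simp only [Finset.mem_sdiff, Finset.mem_compl]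
    tauto
  rw [h]

theorem wf_dp (hp : p.1 ⊆ p.2) : (QUB.dp p).1 ⊆ (QUB.dp p).2 := Finset.compl_subset_compl.2 hp

/-- corank at most three -/
theorem low_corank (hL : Cls L) (hp : p.1 ⊆ p.2) (hr : (gs p).card - (rk L p.2 - rk L p.1) ≤ 3) : ∃ T, InVs (tp L) p T := by
  refine invs_of_ww (low_rank (cls_ww hL) (wf_dp hp) ?_)
  rw [rk_dp L hp]
  exact hr

/-- EXIST for all boxes, from the boxes with at most eight elements and `core` -/
theorem exist_of (H8 : ∀ L : Submodule F4 (E → F4), Cls L → ∀ p : Itv E, p.1 ⊆ p.2 → (gs p).card ≤ 8 → ∃ T, InVs (tp L) p T)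
    (hL : Cls L) (hp : p.1 ⊆ p.2) : ∃ T, InVs (tp L) p T := by
  have main : ∀ n : ℕ, ∀ k : ℕ, ∀ L : Submodule F4 (E → F4), Cls L → ∀ p : Itv E, p.1 ⊆ p.2 → (gs p).card = n →
      rk L p.2 - rk L p.1 = k → ∃ T, InVs (tp L) p T := by
    intro n
    induction n using Nat.strong_induction_on with
    | _ n ihn =>
      intro k
      induction k using Nat.strong_induction_on with
      | _ k ihk =>
        intro L hL p hp hcard hrk
        have hmono : ∀ L : Submodule F4 (E → F4), ∀ p : Itv E, p.1 ⊆ p.2 → 0 ≤ rk L p.2 - rk L p.1 := fun L p hp =>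
          sub_nonneg.2 ((isRk L).mono _ _ hp)
        -- fewer elements
        have ih1 : ∀ L : Submodule F4 (E → F4), Cls L → ∀ p : Itv E, p.1 ⊆ p.2 → (gs p).card < n → ∃ T, InVs (tp L) p T := by
          intro L hL p hp h
          exact ihn _ h (rk L p.2 - rk L p.1).toNat L hL p hp rfl (Int.toNat_of_nonneg (hmono L p hp)).symm
        -- smaller rank
        have ih2 : ∀ L : Submodule F4 (E → F4), Cls L → ∀ p : Itv E, p.1 ⊆ p.2 → (gs p).card = n → rk L p.2 - rk L p.1 < k →
            ∃ T, InVs (tp L) p T := by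
          intro L hL p hp h h'
          have h0 := hmono L p hp
          exact ihk (rk L p.2 - rk L p.1).toNat (by omega) L hL p hp h (Int.toNat_of_nonneg h0).symm
        -- smaller corank
        have ih3 : ∀ L : Submodule F4 (E → F4), Cls L → ∀ p : Itv E, p.1 ⊆ p.2 → (gs p).card = n →
            (n : ℤ) - (rk L p.2 - rk L p.1) < k → ∃ T, InVs (tp L) p T := by
          intro L hL p hp h h'
          refine invs_of_ww (ih2 (WW L) (cls_ww hL) (QUB.dp p) (wf_dp hp) ((card_dp p).trans h) ?_)
          rw [rk_dp L hp, h]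
          exact h'
        by_cases hR : HasRich (rk L) p
        · by_cases h3 : Cn (rk L) p ∧ Th3 (rk L) p
          · by_cases h8 : (gs p).card ≤ 8
            · exact H8 L hL p hp h8
            · by_cases hr : rk L p.2 - rk L p.1 ≤ 3
              · exact low_rank hL hp hr
              · by_cases hr2 : 2 * (rk L p.2 - rk L p.1) ≤ (gs p).card
                · by_cases hT : ∃ x y z, Triad (rk L) p x y z
                  · obtain ⟨x, y, z, hT⟩ := hT
                    obtain ⟨L', hL', hrk', hT'⟩ := delta_y hL hp hT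
                    exact hT' (ih2 L' hL' p hp hcard (by omega))
                  · push Not at hT
                    by_cases hD : 2 * (rk L p.2 - rk L p.1) = (gs p).card ∧ ∃ x y z, Triad (rk (WW L)) (QUB.dp p) x y z
                    · obtain ⟨hD1, x, y, z, hD⟩ := hD
                      obtain ⟨L', hL', hrk', hT'⟩ := delta_y (cls_ww hL) (wf_dp hp) hD
                      have e1 := rk_dp L hp
                      exact invs_of_ww (hT' (ih2 L' hL' (QUB.dp p) (wf_dp hp) ((card_dp p).trans hcard) (by omega)))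
                    · by_cases hDD : ((gs p).card : ℤ) = 2 * (rk L p.2 - rk L p.1) + 1 ∧ ∃ x y z x' y' z', Triad (rk (WW L)) (QUB.dp p) x y z ∧
                          Triad (rk (WW L)) (QUB.dp p) x' y' z' ∧ Disjoint ({x, y, z} : Finset E) {x', y', z'}
                      · obtain ⟨hD1, x, y, z, x', y', z', hx, hx', hdis⟩ := hDD
                        obtain ⟨L', hL', hrk', hTr, hT'⟩ := delta_y2 (cls_ww hL) (wf_dp hp) hx hx' hdis
                        obtain ⟨L2, hL2, hrk2, hT2⟩ := delta_y hL' (wf_dp hp) hTr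
                        have e1 := rk_dp L hp
                        exact invs_of_ww (hT' (hT2 (ih2 L2 hL2 (QUB.dp p) (wf_dp hp) ((card_dp p).trans hcard) (by omega))))
                      obtain ⟨T, hT1, hT2⟩ := core hL hp h3.1 h3.2 hR (by omega) (by omega) hr2 hT
                        (fun h x y z hx => hD ⟨h, x, y, z, hx⟩)
                        (fun h x y z x' y' z' hx hx' hdis => hDD ⟨h, x, y, z, x', y', z', hx, hx', hdis⟩) (by
                        intro L' hL' p' hp' h
                        rw [hcard, hrk] at h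
                        rcases h with h | ⟨h, h'⟩ | ⟨h, h'⟩
                        · exact ih1 L' hL' p' hp' h
                        · exact ih2 L' hL' p' hp' h h'
                        · exact ih3 L' hL' p' hp' h h')
                      exact ⟨T, QUN.invs_of_ne hL hp h3.1 (ok_of_th3 h3.2) hT1 hT2⟩
                · exact ih3 L hL p hp hcard (by omega)
          · exact sum_step (tp L) hp h3 fun q hq _ hc => ih1 L hL q hq (by omega)
        · refine ⟨0, fun c _ d _ _ => rfl, fun q hq hr => absurd ⟨q, hq, hr⟩ hR⟩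
  exact main _ (rk L p.2 - rk L p.1).toNat L hL p hp rfl (Int.toNat_of_nonneg (sub_nonneg.2 ((isRk L).mono _ _ hp))).symm

end Pool.Agent.QUY
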