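import Pool.Agent.QUT.Rcf
import Pool.Agent.QUT.Flw
import Pool.Agent.QUT.Mdh
import Pool.Agent.QUP.NcCu
import Pool.Agent.QUP.Mx
import Pool.Agent.QUR.SmG
import Pool.Agent.QUR.TcM

/-!
# QUY/NSt: NT case II

From `flt_or`, `nc_cu` (QUP/NcCu), `n_same` (QUR/SmG), `n_mix`, `md_three` (QUP/Mx), `n_tiny` (QUR/TcM).
-/

set_option autoImplicit false

open QUB

namespace Pool.Agent.QU

open Pool.Agent.FRM

variable {E : Type} [Fintype E] [DecidableEq E] {S : TP F4 E} {p : Itv E}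

/-- NT case II -/
theorem n_cw (h : Cw S p) (hNr : NrD S.r p) (hR : HasRich S.r p) (hr : 5 ≤ S.r p.2 - S.r p.1) (h2 : 2 * (S.r p.2 - S.r p.1) ≤ (gs p).card) :
    ∃ T : Fm F4 E, InV S.U S.W p T ∧ ¬ EqD S.U S.W p T 0 := by
  by_cases hok : ∀ a ∈ gs p, ∀ b ∈ gs p, a ≠ b → ∀ s t : Bool, HasRich S.r (rm s a (rm t b p)) → Ok S.r (rm s a (rm t b p))
  · have hu := h.cu hok
    rcases flt_or hu hR (by omega) with g | ⟨W, P, hF, -, hI⟩
    · exact g
    · exact nc_cu S hu hNr hr h2 hF hI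
  · obtain ⟨u₀, s₀, v₀, t₀, X₀, hX₀, -⟩ := rcf_min h hok
    obtain ⟨s, u, t, v, X, hX, hm⟩ := md_min hX₀.md
    have mix : ∀ {u v : E}, Md S.r p true u false v X → ∃ T : Fm F4 E, InV S.U S.W p T ∧ ¬ EqD S.U S.W p T 0 := by
      intro u v hX
      have h3 : 3 ≤ X.card := md_three (s := true) h hX
      by_cases h4 : 4 ≤ X.card
      · exact n_mix h hX hm h4
      · exact n_tiny h (md_rcf3 h hX (by omega)) (by omega)
    cases s <;> cases t
    · exact n_same h hX hm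
    · exact mix hX.symm
    · exact mix hX
    · exact n_same h hX hm

end Pool.Agent.QU
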