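import Pool.Agent.QUY.Exc
import Pool.Agent.QUL.LTh

/-!
# QUY/Sml: the induction hypothesis of layer D
-/

set_option autoImplicit false

noncomputable section

open scoped Classical

namespace Pool.Agent.QUY

open Pool.Agent.FRM Pool.Agent.QUS Pool.Agent.QUE
open Pool.Agent.QU (Fm EqD InV Itv InVs Th3 HasRich)
open QUB (gs Cn)

variable {E : Type} [Fintype E]

/-- all boxes with fewer than `n` elements, and all boxes with `n` elements and rank or corank less than `r`, have forms in `V_*` -/
def Smaller (E : Type) [Fintype E] (n : ℕ) (r : ℤ) : Prop :=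
  ∀ L : Submodule F4 (E → F4), Cls L → ∀ p : Itv E, p.1 ⊆ p.2 →
    ((gs p).card < n ∨ ((gs p).card = n ∧ rk L p.2 - rk L p.1 < r) ∨
      ((gs p).card = n ∧ (n : ℤ) - (rk L p.2 - rk L p.1) < r)) → ∃ T, InVs (tp L) p T

end Pool.Agent.QUY
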