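import Pool.Agent.QUP.NcM
import Pool.Agent.QUY.Min
import Pool.Agent.QUY.Sml
import Pool.Agent.QUW.Fin

/-!
# QUY/Nrd: `NrD` for the boxes of the class
-/

set_option autoImplicit false

noncomputable section

open scoped Classical

namespace Pool.Agent.QUY

open Pool.Agent.FRM Pool.Agent.QUS Pool.Agent.QUE
open Pool.Agent.QU (Fm EqD InV Itv Sub InVs Th3 HasRich NrD)
open QUB (gs Cn)

variable {E : Type} [Fintype E]

/-- the deletions of two elements of a 3-connected box of the class -/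
theorem nrD_cls {L : Submodule F4 (E → F4)} {p : Itv E} (hL : Cls L) (hp : p.1 ⊆ p.2) (hC : Cn (rk L) p) (h3 : Th3 (rk L) p) (hR : HasRich (rk L) p)
    (hn : 4 ≤ (gs p).card) (hall : ∀ w ∈ gs p, ∀ s : Bool, Th3 (rk L) (QUB.rm s w p)) : NrD (rk L) p := by
  intro y hy z hz hyz hry hrz hc hN
  exact Pool.Agent.QW.nr_two (t := true) hL hp h3 hn hyz hy hz (Pool.Agent.QU.th3_cn (tp L).rk hp hC h3 hn hy true)
    (Pool.Agent.QU.th3_ok (hall y hy true)) hry (Pool.Agent.QU.th3_cn (tp L).rk hp hC h3 hn hz true)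
    (Pool.Agent.QU.th3_ok (hall z hz true)) hrz hc hN hR

end Pool.Agent.QUY
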