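import Pool.Agent.QUX.NtOne
import Pool.Agent.QUX.Nt9
import Pool.Agent.QUX.Nt4
import Pool.Agent.QUY.Sml
import Pool.Agent.QUY.NSt
import Pool.Agent.QUY.Nrd

/-!
# QUY/NCore: the statement of `QUY.core` for a box without a triangle

Hypotheses of `n_core`: those of `QUY.core` and `hX`: no triangles. `n_two` is the remaining case: no triangles, no triads, all single
removals 3-connected, rank at least five.
-/

set_option autoImplicit false

noncomputable section

open scoped Classical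

namespace Pool.Agent.QUY

open Pool.Agent.FRM Pool.Agent.QUS Pool.Agent.QUE
open Pool.Agent.QU (Fm EqD InV Itv Sub InVs Th3 HasRich)
open QUB (gs Cn)

variable {E : Type} [Fintype E]

/-- **NT case II**: no triangles, no triads, every single removal 3-connected, rank at least five -/
theorem n_two {L : Submodule F4 (E → F4)} {p : Itv E} (hL : Cls L) (hp : p.1 ⊆ p.2) (hC : Cn (rk L) p) (h3 : Th3 (rk L) p)
    (hR : HasRich (rk L) p) (hr : 5 ≤ rk L p.2 - rk L p.1) (hr2 : 2 * (rk L p.2 - rk L p.1) ≤ (gs p).card)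
    (hT : ∀ x y z, ¬ Triad (rk L) p x y z) (hX : ∀ x y z, ¬ Triad (rk (WW L)) (QUB.dp p) x y z)
    (hall : ∀ w ∈ gs p, ∀ s : Bool, Th3 (rk L) (QUB.rm s w p))
    (ih : ∀ q : Itv E, q.1 ⊆ q.2 → Sub q p → (gs q).card < (gs p).card → ∃ T, InVs (tp L) q T) :
    ∃ T : Fm F4 E, InV L (WW L) p T ∧ ¬ EqD L (WW L) p T 0 := by
  have hn : 10 ≤ (gs p).card := by omega
  have hk := Pool.Agent.QUX.nt_rk hp h3 (by omega) hT hX
  exact Pool.Agent.QU.n_cw (S := tp L) ⟨QUN.nu_of_cls hL, hp, hC, h3, ⟨hk.1, hk.2⟩, hn, hall, ih⟩ (nrD_cls hL hp hC h3 hR (by omega) hall) hR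
    hr hr2

/-- the case without triangles of `core` -/
theorem n_core {L : Submodule F4 (E → F4)} {p : Itv E} (hL : Cls L) (hp : p.1 ⊆ p.2) (hC : Cn (rk L) p) (h3 : Th3 (rk L) p)
    (hR : HasRich (rk L) p) (hn : 9 ≤ (gs p).card) (hr : 4 ≤ rk L p.2 - rk L p.1) (hr2 : 2 * (rk L p.2 - rk L p.1) ≤ (gs p).card)
    (hT : ∀ x y z, ¬ Triad (rk L) p x y z)
    (IH : Smaller E (gs p).card (rk L p.2 - rk L p.1))
    (hX : ∀ x y z, ¬ Triad (rk (WW L)) (QUB.dp p) x y z) :
    ∃ T : Fm F4 E, InV L (WW L) p T ∧ ¬ EqD L (WW L) p T 0 := by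
  have ih : ∀ q : Itv E, q.1 ⊆ q.2 → Sub q p → (gs q).card < (gs p).card → ∃ T, InVs (tp L) q T :=
    fun q hq _ hlt => IH L hL q hq (Or.inl hlt)
  have h5 : 5 ≤ rk L p.2 - rk L p.1 := by
    by_contra hlt
    obtain ⟨x, y, z, h⟩ := Pool.Agent.QUX.nt4 hL hp h3 hR hn (by omega)
    exact hX x y z h
  rcases Pool.Agent.QUX.nt_one hL hp hC h3 hR hn hT hX ih with h | hall
  · exact h
  · exact n_two hL hp hC h3 hR h5 hr2 hT hX hall ih

end Pool.Agent.QUY
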