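import Pool.Agent.QUY.TCore
import Pool.Agent.QUY.NCore

/-!
# QUY/Core: the last statement of layer D (interface)

`core`: `h(M) ≥ 1` for a 3-connected rich box `p` with at least nine elements, `4 ≤ r`, `2 r ≤ n`, no triads (and no triangles if `2 r = n`,
no two disjoint triangles if `2 r + 1 = n`),
if all smaller boxes
(fewer elements, or as many elements and smaller rank or corank) of all representations in the class have forms which are diagonal on no rich minor.
Only one form of `V(p)` which is not diagonal is needed (`QUN.invs_of_ne` does the rest, see `Asm`).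
-/

set_option autoImplicit false

noncomputable section

open scoped Classical

namespace Pool.Agent.QUY

open Pool.Agent.FRM Pool.Agent.QUS Pool.Agent.QUE
open Pool.Agent.QU (Fm EqD InV Itv InVs Th3 HasRich)
open QUB (gs Cn)

variable {E : Type} [Fintype E]

theorem core {L : Submodule F4 (E → F4)} {p : Itv E} (hL : Cls L) (hp : p.1 ⊆ p.2) (hC : Cn (rk L) p) (h3 : Th3 (rk L) p)
    (hR : HasRich (rk L) p) (hn : 9 ≤ (gs p).card) (hr : 4 ≤ rk L p.2 - rk L p.1) (hr2 : 2 * (rk L p.2 - rk L p.1) ≤ (gs p).card)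
    (hT : ∀ x y z, ¬ Triad (rk L) p x y z)
    (hD : 2 * (rk L p.2 - rk L p.1) = (gs p).card → ∀ x y z, ¬ Triad (rk (WW L)) (QUB.dp p) x y z)
    (hDD : ((gs p).card : ℤ) = 2 * (rk L p.2 - rk L p.1) + 1 → ∀ x y z x' y' z', Triad (rk (WW L)) (QUB.dp p) x y z →
      Triad (rk (WW L)) (QUB.dp p) x' y' z' → ¬ Disjoint ({x, y, z} : Finset E) {x', y', z'})
    (IH : Smaller E (gs p).card (rk L p.2 - rk L p.1)) :
    ∃ T : Fm F4 E, InV L (WW L) p T ∧ ¬ EqD L (WW L) p T 0 := by
  by_cases hX : ∃ x y z, Triad (rk (WW L)) (QUB.dp p) x y z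
  · exact t_core hL hp hC h3 hR hn hr hr2 hT hD hDD IH hX
  · exact n_core hL hp hC h3 hR hn hr hr2 hT IH fun x y z h => hX ⟨x, y, z, h⟩

end Pool.Agent.QUY
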