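import Pool.Agent.QUY.ExR

/-!
# QUY/ExQ: the rich five-element minors under the Delta-Y exchange, remaining cases
-/

set_option autoImplicit false

noncomputable section

open scoped Classical

namespace Pool.Agent.QUY

open Pool.Agent.FRM Pool.Agent.QUS Pool.Agent.QUE
open Pool.Agent.QU (Fm van spt dg EqOn EqD InV TP Itv Sub Rich InVs)

variable {E : Type} [Fintype E] {L : Submodule F4 (E → F4)} {x y z : E} {w : E → F4} {p q : Itv E} {T' T : Fm F4 E}

/-- a vector of `WW L` supported in `insert b A` -/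
theorem exists_ct {A : Finset E} {b : E} (hb : b ∉ A) (hr : rk L (insert b A) = rk L A) :
    ∃ d ∈ spt (WW L) (insert b A), d b = 1 := by
  by_contra hc
  push Not at hc
  have h1 : spt (WW L) (insert b A) ≤ spt (WW L) A := by
    rintro d ⟨hd, h0⟩
    refine ⟨hd, fun e he => ?_⟩
    by_cases h2 : e = b
    · by_contra h3
      rw [h2] at h3
      refine hc ((d b)⁻¹ • d) ((spt (WW L) (insert b A)).smul_mem _ ⟨hd, h0⟩) ?_
      rw [Pi.smul_apply, smul_eq_mul, inv_mul_cancel₀ h3]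
    · refine h0 e ?_
      rw [Finset.mem_insert, not_or]
      exact ⟨h2, he⟩
  have h2 := Submodule.finrank_mono h1
  have h3 := finrank_spt L (insert b A)
  have h4 := finrank_spt L A
  rw [Finset.card_insert_of_notMem hb, hr] at h3
  push_cast at h3
  omega

private theorem gs_card {N : Finset E} (h : Tri L x y z w) (hN : N.card = 5) (hx : x ∈ N) (hy : y ∈ N) (hz : z ∈ N) :
    ∃ i j, i ≠ j ∧ N \ {x, y, z} = {i, j} := by
  have h1 : ({x, y, z} : Finset E) ⊆ N := by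
    intro e he
    simp only [Finset.mem_insert, Finset.mem_singleton] at he
    rcases he with rfl | rfl | rfl <;> assumption
  have h2 : ({x, y, z} : Finset E).card = 3 :=
    Finset.card_eq_three.2 ⟨x, y, z, h.hxy, h.hzx.symm, h.hyz, rfl⟩
  have h3 := Finset.card_sdiff_add_card_eq_card h1
  have h4 : (N \ {x, y, z}).card = 2 := by omega
  obtain ⟨i, j, hij, h5⟩ := Finset.card_eq_two.1 h4
  exact ⟨i, j, hij, h5⟩

private theorem not_van (hr : Rich (rk L) q) {A : Finset E} (hA : A ⊆ QUB.gs q) (h3 : 3 ≤ A.card) {v : E → F4} (hv : v ∈ L)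
    (h0 : ∀ e ∈ q.1, v e = 0) (h1 : ∀ e ∈ A, v e = 0) : ∀ e ∈ q.2, v e = 0 := by
  obtain ⟨hq, -, hr⟩ := hr
  obtain ⟨B, hB, hBc⟩ := Finset.exists_subset_card_eq h3
  obtain ⟨i, j, k, hij, hik, hjk, rfl⟩ := Finset.card_eq_three.1 hBc
  have mi : i ∈ A := hB (by simp)
  have mj : j ∈ A := hB (by simp)
  have mk : k ∈ A := hB (by simp)
  have hs : ∀ {e}, e ∈ A → e ∈ q.2 := fun he => (Finset.mem_sdiff.1 (hA he)).1
  rcases hr with ⟨h2, h4⟩ | ⟨h2, h4⟩
  · refine van_of_rk (A := q.1 ∪ {i, j}) (Finset.union_subset hq ?_) ?_ hv fun e he => ?_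
    · intro e he
      rcases Finset.mem_insert.1 he with rfl | he
      · exact hs mi
      · rw [Finset.mem_singleton.1 he]
        exact hs mj
    · rw [h4 i (hA mi) j (hA mj) hij, h2]
    · rcases Finset.mem_union.1 he with he | he
      · exact h0 e he
      rcases Finset.mem_insert.1 he with rfl | he
      · exact h1 _ mi
      · rw [Finset.mem_singleton.1 he]
        exact h1 _ mj
  · refine van_of_rk (A := q.1 ∪ {i, j, k}) (Finset.union_subset hq ?_) ?_ hv fun e he => ?_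
    · intro e he
      simp only [Finset.mem_insert, Finset.mem_singleton] at he
      rcases he with rfl | rfl | rfl
      · exact hs mi
      · exact hs mj
      · exact hs mk
    · rw [h4 i (hA mi) j (hA mj) k (hA mk) hij hik hjk, h2]
    · rcases Finset.mem_union.1 he with he | he
      · exact h0 e he
      simp only [Finset.mem_insert, Finset.mem_singleton] at he
      rcases he with rfl | rfl | rfl
      · exact h1 _ mi
      · exact h1 _ mj
      · exact h1 _ mk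

/-- case (a): the minor of `L` has rank three -/
private theorem rank3 (h : Tri L x y z w) (hx : x ∈ QUB.gs q) (hy : y ∈ QUB.gs q) (hz : z ∈ QUB.gs q) (hr : Rich (rk L) q) :
    rk L q.2 = rk L q.1 + 3 ∧ ∀ i ∈ QUB.gs q, ∀ j ∈ QUB.gs q, ∀ k ∈ QUB.gs q, i ≠ j → i ≠ k → j ≠ k →
      rk L (q.1 ∪ {i, j, k}) = rk L q.1 + 3 := by
  obtain ⟨hq, hc, hr⟩ := hr
  rcases hr with ⟨h2, h4⟩ | h2
  · exfalso
    obtain ⟨i, j, hij, hN⟩ := gs_card h hc hx hy hz
    have hi : i ∈ QUB.gs q \ {x, y, z} := by rw [hN]; simp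
    have hj : j ∈ QUB.gs q \ {x, y, z} := by rw [hN]; simp
    obtain ⟨hi1, hi2⟩ := Finset.mem_sdiff.1 hi
    obtain ⟨hj1, hj2⟩ := Finset.mem_sdiff.1 hj
    simp only [Finset.mem_insert, Finset.mem_singleton, not_or] at hi2 hj2
    refine h.wx (van_of_rk (A := q.1 ∪ {i, j}) (B := q.2) (Finset.union_subset hq ?_) ?_ h.mem (fun e he => ?_) x
      (Finset.mem_sdiff.1 hx).1)
    · intro e he
      rcases Finset.mem_insert.1 he with rfl | he
      · exact (Finset.mem_sdiff.1 hi1).1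
      · rw [Finset.mem_singleton.1 he]
        exact (Finset.mem_sdiff.1 hj1).1
    · rw [h4 i hi1 j hj1 hij, h2]
    · rcases Finset.mem_union.1 he with he | he
      · exact h.out e (ne_in (Finset.mem_sdiff.1 hx).2 he) (ne_in (Finset.mem_sdiff.1 hy).2 he)
          (ne_in (Finset.mem_sdiff.1 hz).2 he)
      rcases Finset.mem_insert.1 he with rfl | he
      · exact h.out _ hi2.1 hi2.2.1 hi2.2.2
      · rw [Finset.mem_singleton.1 he]
        exact h.out _ hj2.1 hj2.2.1 hj2.2.2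
  · exact h2

theorem rich_abs (h : Tri L x y z w) (hx : x ∈ QUB.gs q) (hy : y ∈ QUB.gs q) (hz : z ∈ QUB.gs q) (hr : Rich (rk L) q) :
    Rich (rk (L.map (exl x y z w))) q := by
  obtain ⟨h1, h2⟩ := rank3 h hx hy hz hr
  obtain ⟨hq, hc, -⟩ := hr
  obtain ⟨hx2, hx1⟩ := Finset.mem_sdiff.1 hx
  obtain ⟨hy2, hy1⟩ := Finset.mem_sdiff.1 hy
  obtain ⟨hz2, hz1⟩ := Finset.mem_sdiff.1 hz
  have r1 : rk (L.map (exl x y z w)) q.1 = rk L q.1 := by
    rw [rk_ex0 h hx1 hy1 hz1 (Or.inl rfl), rk_insert h.mem (fun e he => h.out e (ne_in hx1 he) (ne_in hy1 he) (ne_in hz1 he)) h.wx]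
    ring
  have u2 : q.2 ∪ {x, y, z} = q.2 := by
    refine Finset.union_eq_left.2 fun f hf => ?_
    simp only [Finset.mem_insert, Finset.mem_singleton] at hf
    rcases hf with rfl | rfl | rfl <;> assumption
  have r2 : rk (L.map (exl x y z w)) q.2 = rk L q.2 - 1 := by
    rw [rk_ex2 h (Or.inl ⟨hx2, hy2⟩), u2]
  refine ⟨hq, hc, Or.inl ⟨by rw [r1, r2, h1]; ring, fun i hi j hj hij => ?_⟩⟩
  obtain ⟨hi2, hi1⟩ := Finset.mem_sdiff.1 hi
  obtain ⟨hj2, hj1⟩ := Finset.mem_sdiff.1 hj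
  have hxy := h.hxy
  have hyz := h.hyz
  have hzx := h.hzx
  have up : ∀ B : Finset E, B ⊆ q.2 → (∃ a ∈ QUB.gs q, ∃ b ∈ QUB.gs q, ∃ c ∈ QUB.gs q, a ≠ b ∧ a ≠ c ∧ b ≠ c ∧
      q.1 ∪ {a, b, c} ⊆ B) → rk L B = rk L q.1 + 3 := by
    rintro B hB ⟨a, ha, b, hb, c, hc, hab, hac, hbc, hs⟩
    have e1 := (isRk L).mono _ _ hs
    have e2 := (isRk L).mono _ _ hB
    rw [h2 a ha b hb c hc hab hac hbc] at e1
    omega
  have hA : q.1 ∪ {i, j} ⊆ q.2 := by
    refine Finset.union_subset hq fun e he => ?_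
    rcases Finset.mem_insert.1 he with rfl | he
    · exact hi2
    · rw [Finset.mem_singleton.1 he]
      exact hj2
  have hX : ({x, y, z} : Finset E) ⊆ q.2 := by
    intro f hf
    simp only [Finset.mem_insert, Finset.mem_singleton] at hf
    rcases hf with rfl | rfl | rfl <;> assumption
  rw [r1]
  set A := q.1 ∪ {i, j} with hAdef
  have hAm : ∀ {e}, e ∈ A ↔ e ∈ q.1 ∨ e = i ∨ e = j := by
    intro e
    rw [hAdef]
    simp only [Finset.mem_union, Finset.mem_insert, Finset.mem_singleton]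
  -- the number of elements of the triple in `A`
  have case2 : ((x ∈ A ∧ y ∈ A) ∨ (y ∈ A ∧ z ∈ A) ∨ (z ∈ A ∧ x ∈ A)) → rk (L.map (exl x y z w)) A = rk L q.1 + 2 := by
    intro h3
    rw [rk_ex2 h h3, up (A ∪ {x, y, z}) (Finset.union_subset hA hX)
      ⟨x, hx, y, hy, z, hz, hxy, hzx.symm, hyz, Finset.union_subset_union_left (fun e he => hAm.2 (Or.inl he))⟩]
    ring
  by_cases ax : x ∈ A <;> by_cases ay : y ∈ A <;> by_cases az : z ∈ A
  · exact case2 (Or.inl ⟨ax, ay⟩)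
  · exact case2 (Or.inl ⟨ax, ay⟩)
  · exact case2 (Or.inr (Or.inr ⟨az, ax⟩))
  · rw [rk_ex1 h ax ay az, up (insert y (insert z (A.erase x)))]
    · ring
    · intro e he
      rcases Finset.mem_insert.1 he with rfl | he
      · exact hy2
      rcases Finset.mem_insert.1 he with rfl | he
      · exact hz2
      · exact hA (Finset.mem_of_mem_erase he)
    · have hk : ∃ k ∈ QUB.gs q, k ∈ A ∧ k ≠ x := by
        by_cases h3 : i = x
        · exact ⟨j, hj, hAm.2 (Or.inr (Or.inr rfl)), fun h4 => hij (h3.trans h4.symm)⟩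
        · exact ⟨i, hi, hAm.2 (Or.inr (Or.inl rfl)), h3⟩
      obtain ⟨k, hk1, hk2, hk3⟩ := hk
      refine ⟨y, hy, z, hz, k, hk1, hyz, fun h3 => ay (h3 ▸ hk2), fun h3 => az (h3 ▸ hk2), ?_⟩
      intro e he
      simp only [Finset.mem_union, Finset.mem_insert, Finset.mem_singleton] at he
      rcases he with he | rfl | rfl | rfl
      · exact Finset.mem_insert_of_mem (Finset.mem_insert_of_mem (Finset.mem_erase.2 ⟨ne_in hx1 he, hAm.2 (Or.inl he)⟩))
      · simp
      · simp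
      · exact Finset.mem_insert_of_mem (Finset.mem_insert_of_mem (Finset.mem_erase.2 ⟨hk3, hk2⟩))
  · exact case2 (Or.inr (Or.inl ⟨ay, az⟩))
  · rw [rk_ex1' h ax ay az, up (insert z (insert x (A.erase y)))]
    · ring
    · intro e he
      rcases Finset.mem_insert.1 he with rfl | he
      · exact hz2
      rcases Finset.mem_insert.1 he with rfl | he
      · exact hx2
      · exact hA (Finset.mem_of_mem_erase he)
    · have hk : ∃ k ∈ QUB.gs q, k ∈ A ∧ k ≠ y := by
        by_cases h3 : i = y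
        · exact ⟨j, hj, hAm.2 (Or.inr (Or.inr rfl)), fun h4 => hij (h3.trans h4.symm)⟩
        · exact ⟨i, hi, hAm.2 (Or.inr (Or.inl rfl)), h3⟩
      obtain ⟨k, hk1, hk2, hk3⟩ := hk
      refine ⟨z, hz, x, hx, k, hk1, hzx, fun h3 => az (h3 ▸ hk2), fun h3 => ax (h3 ▸ hk2), ?_⟩
      intro e he
      simp only [Finset.mem_union, Finset.mem_insert, Finset.mem_singleton] at he
      rcases he with he | rfl | rfl | rfl
      · exact Finset.mem_insert_of_mem (Finset.mem_insert_of_mem (Finset.mem_erase.2 ⟨ne_in hy1 he, hAm.2 (Or.inl he)⟩))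
      · simp
      · simp
      · exact Finset.mem_insert_of_mem (Finset.mem_insert_of_mem (Finset.mem_erase.2 ⟨hk3, hk2⟩))
  · rw [rk_ex1'' h ax ay az, up (insert x (insert y (A.erase z)))]
    · ring
    · intro e he
      rcases Finset.mem_insert.1 he with rfl | he
      · exact hx2
      rcases Finset.mem_insert.1 he with rfl | he
      · exact hy2
      · exact hA (Finset.mem_of_mem_erase he)
    · have hk : ∃ k ∈ QUB.gs q, k ∈ A ∧ k ≠ z := by
        by_cases h3 : i = z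
        · exact ⟨j, hj, hAm.2 (Or.inr (Or.inr rfl)), fun h4 => hij (h3.trans h4.symm)⟩
        · exact ⟨i, hi, hAm.2 (Or.inr (Or.inl rfl)), h3⟩
      obtain ⟨k, hk1, hk2, hk3⟩ := hk
      refine ⟨x, hx, y, hy, k, hk1, hxy, fun h3 => ax (h3 ▸ hk2), fun h3 => ay (h3 ▸ hk2), ?_⟩
      intro e he
      simp only [Finset.mem_union, Finset.mem_insert, Finset.mem_singleton] at he
      rcases he with he | rfl | rfl | rfl
      · exact Finset.mem_insert_of_mem (Finset.mem_insert_of_mem (Finset.mem_erase.2 ⟨ne_in hz1 he, hAm.2 (Or.inl he)⟩))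
      · simp
      · simp
      · exact Finset.mem_insert_of_mem (Finset.mem_insert_of_mem (Finset.mem_erase.2 ⟨hk3, hk2⟩))
  · rw [rk_ex0 h ax ay az (Or.inl rfl), up (insert x A)]
    · ring
    · exact Finset.insert_subset hx2 hA
    · refine ⟨x, hx, i, hi, j, hj, fun h3 => ax (hAm.2 (Or.inr (Or.inl h3))), fun h3 => ax (hAm.2 (Or.inr (Or.inr h3))), hij, ?_⟩
      intro e he
      simp only [Finset.mem_union, Finset.mem_insert, Finset.mem_singleton] at he
      rcases he with he | rfl | rfl | rfl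
      · exact Finset.mem_insert_of_mem (hAm.2 (Or.inl he))
      · simp
      · exact Finset.mem_insert_of_mem (hAm.2 (Or.inr (Or.inl rfl)))
      · exact Finset.mem_insert_of_mem (hAm.2 (Or.inr (Or.inr rfl)))

/-- the coefficients of a diagonal form on the triple -/
private theorem coef (h : Tri L x y z w) (hF : FP L x y z w p T' T) (hq : Sub q p) (hxp : x ∈ p.2) (hyp : y ∈ p.2) (hzp : z ∈ p.2)
    (hx : x ∈ QUB.gs q) (hy : y ∈ QUB.gs q) (hz : z ∈ QUB.gs q) (hr : Rich (rk L) q) {l : E → F4}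
    (hl : EqOn L (WW L) q T (0 + dg l)) : l x / w x = l y / w y := by
  obtain ⟨h1, h2⟩ := rank3 h hx hy hz hr
  obtain ⟨hq', hc, -⟩ := hr
  obtain ⟨hx2, hx1⟩ := Finset.mem_sdiff.1 hx
  obtain ⟨hy2, hy1⟩ := Finset.mem_sdiff.1 hy
  obtain ⟨hz2, hz1⟩ := Finset.mem_sdiff.1 hz
  obtain ⟨i, j, hij, hN⟩ := gs_card h hc hx hy hz
  have hi : i ∈ QUB.gs q \ {x, y, z} := by rw [hN]; simp
  have hj : j ∈ QUB.gs q \ {x, y, z} := by rw [hN]; simp
  obtain ⟨hi1, hi2⟩ := Finset.mem_sdiff.1 hi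
  obtain ⟨hj1, hj2⟩ := Finset.mem_sdiff.1 hj
  simp only [Finset.mem_insert, Finset.mem_singleton, not_or] at hi2 hj2
  have hxy := h.hxy
  have hyz := h.hyz
  have hzx := h.hzx
  set A := (q.2.erase z).erase x with hA
  have hxA : x ∉ A := Finset.notMem_erase x _
  have hins : insert x A ⊆ q.2 := by
    refine Finset.insert_subset hx2 fun e he => ?_
    exact Finset.mem_of_mem_erase (Finset.mem_of_mem_erase he)
  have hsub : q.1 ∪ {y, i, j} ⊆ A := by
    intro e he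
    simp only [Finset.mem_union, Finset.mem_insert, Finset.mem_singleton] at he
    rw [hA, Finset.mem_erase, Finset.mem_erase]
    rcases he with he | rfl | rfl | rfl
    · exact ⟨ne_in hx1 he, ne_in hz1 he, hq' he⟩
    · exact ⟨hxy.symm, hyz, hy2⟩
    · exact ⟨hi2.1, hi2.2.2, (Finset.mem_sdiff.1 hi1).1⟩
    · exact ⟨hj2.1, hj2.2.2, (Finset.mem_sdiff.1 hj1).1⟩
  have hrk : rk L (insert x A) = rk L A := by
    have e1 := (isRk L).mono _ _ hsub
    rw [h2 y hy i hi1 j hj1 (Ne.symm hi2.2.1) (Ne.symm hj2.2.1) hij] at e1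
    have e2 := (isRk L).mono _ _ hins
    have e3 := (isRk L).mono _ _ (Finset.subset_insert x A)
    omega
  obtain ⟨d, hd, hdx⟩ := exists_ct hxA hrk
  have hdz : d z = 0 := by
    refine hd.2 z ?_
    rw [Finset.mem_insert, not_or]
    exact ⟨hzx, fun h3 => (Finset.mem_erase.1 (Finset.mem_of_mem_erase h3)).1 rfl⟩
  have hdq : d ∈ spt (WW L) q.2 := ⟨hd.1, fun e he => hd.2 e fun h3 => he (hins h3)⟩
  have hdp : d ∈ spt (WW L) p.2 := ⟨hd.1, fun e he => hdq.2 e fun h3 => he (hq.2 h3)⟩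
  have w0 : ∀ e ∈ q.1, w e = 0 := fun e he => h.out e (ne_in hx1 he) (ne_in hy1 he) (ne_in hz1 he)
  have t1 := hF w ⟨h.mem, fun e he => w0 e (hq.1 he)⟩ _ (ssl_spt h hxp hyp hzp hdp)
  rw [psl_ssl h hd.1, h.exl_w, map_zero, LinearMap.zero_apply] at t1
  have t2 := hl w ⟨h.mem, w0⟩ d hdq
  rw [t1, LinearMap.add_apply, LinearMap.add_apply, LinearMap.zero_apply, LinearMap.zero_apply, zero_add,
    Pool.Agent.QU.dg_apply, sum3 h.hxy h.hyz h.hzx, Finset.sum_eq_zero fun e he => by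
      have he' := (Finset.mem_sdiff.1 he).2
      simp only [Finset.mem_insert, Finset.mem_singleton, not_or] at he'
      rw [h.out e he'.1 he'.2.1 he'.2.2]
      ring, hdx, hdz] at t2
  have t3 := ww_rel h hd.1
  rw [hdx, hdz] at t3
  have wx := h.wx
  have wy := h.wy
  rw [div_eq_div_iff wx wy]
  -- `w x ^ 2 + w y ^ 2 * d y = 0`, `l x * w x + l y * w y * d y = 0`
  have t4 : (l x * w y - l y * w x) * (w x * w y) = 0 := by
    linear_combination (-(w y ^ 2)) * t2 - l y * w y * t3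
  rcases mul_eq_zero.1 t4 with t5 | t5
  · exact sub_eq_zero.1 t5
  · rcases mul_eq_zero.1 t5 with t6 | t6
    · exact absurd t6 wx
    · exact absurd t6 wy

/-- case (a) for the forms -/
theorem eqD_abs (h : Tri L x y z w) (hF : FP L x y z w p T' T) (hq : Sub q p) (hxp : x ∈ p.2) (hyp : y ∈ p.2) (hzp : z ∈ p.2)
    (hx : x ∈ QUB.gs q) (hy : y ∈ QUB.gs q) (hz : z ∈ QUB.gs q) (hr : Rich (rk L) q) (hT : EqD L (WW L) q T 0) :
    EqD (L.map (exl x y z w)) (WW (L.map (exl x y z w))) q T' 0 := by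
  obtain ⟨l, hl⟩ := hT
  have c1 := coef h hF hq hxp hyp hzp hx hy hz hr hl
  have c2 := coef h.rot (hF.rot h) hq hyp hzp hxp hy hz hx hr hl
  obtain ⟨hx2, hx1⟩ := Finset.mem_sdiff.1 hx
  obtain ⟨hy2, hy1⟩ := Finset.mem_sdiff.1 hy
  obtain ⟨hz2, hz1⟩ := Finset.mem_sdiff.1 hz
  have wx := h.wx
  have wy := h.wy
  have wz := h.wz
  set m := l x / w x with hm
  have lx : l x = m * w x := (div_mul_cancel₀ _ wx).symm
  have ly : l y = m * w y := by rw [c1, div_mul_cancel₀ _ wy]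
  have lz : l z = m * w z := by rw [c1, c2, div_mul_cancel₀ _ wz]
  refine ⟨fun e => if e = x ∨ e = y ∨ e = z then m else l e, ?_⟩
  rintro c' ⟨⟨c, hc, rfl⟩, hc1⟩ d' ⟨hd, hd0⟩
  have hcq : c ∈ van L q.1 := ⟨hc, fun e he => by
    rw [← exl_out (w := w) (c := c) (ne_in hx1 he) (ne_in hy1 he) (ne_in hz1 he)]
    exact hc1 e he⟩
  have hdq : psl x y z w d' ∈ spt (WW L) q.2 := ⟨(mem_ww_ex h).1 hd, fun e he => by
    rw [psl_out (ne_out hx2 he) (ne_out hy2 he) (ne_out hz2 he)]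
    exact hd0 e he⟩
  have h5 := hF c ⟨hc, fun e he => hcq.2 e (hq.1 he)⟩ d' ⟨hd, fun e he => hd0 e fun h4 => he (hq.2 h4)⟩
  rw [← h5, hl c hcq _ hdq]
  rw [LinearMap.add_apply, LinearMap.add_apply, LinearMap.add_apply, LinearMap.add_apply, LinearMap.zero_apply,
    LinearMap.zero_apply, LinearMap.zero_apply, LinearMap.zero_apply, Pool.Agent.QU.dg_apply, Pool.Agent.QU.dg_apply,
    sum3 h.hxy h.hyz h.hzx, sum3 h.hxy h.hyz h.hzx (fun e => _ * (exl x y z w c e * d' e))]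
  rw [if_pos (Or.inl rfl), if_pos (Or.inr (Or.inl rfl)), if_pos (Or.inr (Or.inr rfl)), exl_x, exl_y h.hxy, exl_z h.hzx h.hyz,
    psl_x, psl_y h.hxy, psl_z h.hzx h.hyz, lx, ly, lz]
  have h6 : ∑ e ∈ Finset.univ \ {x, y, z}, l e * (c e * psl x y z w d' e) =
      ∑ e ∈ Finset.univ \ {x, y, z}, (if e = x ∨ e = y ∨ e = z then m else l e) * (exl x y z w c e * d' e) := by
    refine Finset.sum_congr rfl fun e he => ?_
    have he' := (Finset.mem_sdiff.1 he).2
    simp only [Finset.mem_insert, Finset.mem_singleton, not_or] at he'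
    rw [exl_out he'.1 he'.2.1 he'.2.2, psl_out he'.1 he'.2.1 he'.2.2, if_neg (by
      rw [not_or, not_or]
      exact he')]
  rw [h6, f4_sub, f4_sub, f4_sub]
  field_simp
  ring

/-- case (c) -/
theorem rich_del (h : Tri L x y z w) (hq : q.1 ⊆ q.2) (hx : x ∉ q.2) (hy : y ∉ q.2) (hz : z ∉ q.2) (hr : Rich (rk L) q) :
    Rich (rk L) (insert x q.1, insert x q.2) := by
  obtain ⟨-, hc, hr⟩ := hr
  have hrk : ∀ A ⊆ q.2, rk L (insert x A) = rk L A + 1 := fun A hA =>
    rk_insert h.mem (fun e he => h.out e (ne_in hx (hA he)) (ne_in hy (hA he)) (ne_in hz (hA he))) h.wx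
  have hgs : QUB.gs (insert x q.1, insert x q.2) = QUB.gs q := by
    ext e
    show e ∈ insert x q.2 \ insert x q.1 ↔ e ∈ q.2 \ q.1
    rw [Finset.mem_sdiff, Finset.mem_sdiff, Finset.mem_insert, Finset.mem_insert, not_or]
    constructor
    · rintro ⟨h1 | h1, h2, h3⟩
      · exact absurd h1 h2
      · exact ⟨h1, h3⟩
    · rintro ⟨h1, h2⟩
      exact ⟨Or.inr h1, ne_in hx h1, h2⟩
  have hs : ∀ e ∈ QUB.gs q, e ∈ q.2 := fun e he => (Finset.mem_sdiff.1 he).1
  refine ⟨Finset.insert_subset_insert x hq, by rw [hgs]; exact hc, ?_⟩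
  rw [hgs]
  show (rk L (insert x q.2) = rk L (insert x q.1) + 2 ∧ ∀ i ∈ QUB.gs q, ∀ j ∈ QUB.gs q, i ≠ j →
    rk L (insert x q.1 ∪ {i, j}) = rk L (insert x q.1) + 2) ∨ (rk L (insert x q.2) = rk L (insert x q.1) + 3 ∧
    ∀ i ∈ QUB.gs q, ∀ j ∈ QUB.gs q, ∀ k ∈ QUB.gs q, i ≠ j → i ≠ k → j ≠ k →
      rk L (insert x q.1 ∪ {i, j, k}) = rk L (insert x q.1) + 3)
  rw [hrk _ (Finset.Subset.refl _), hrk _ hq]
  rcases hr with ⟨h1, h2⟩ | ⟨h1, h2⟩
  · refine Or.inl ⟨by rw [h1]; ring, fun i hi j hj hij => ?_⟩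
    rw [Finset.insert_union, hrk, h2 i hi j hj hij]
    · ring
    · refine Finset.union_subset hq fun e he => ?_
      rcases Finset.mem_insert.1 he with rfl | he
      · exact hs _ hi
      · rw [Finset.mem_singleton.1 he]
        exact hs _ hj
  · refine Or.inr ⟨by rw [h1]; ring, fun i hi j hj k hk hij hik hjk => ?_⟩
    rw [Finset.insert_union, hrk, h2 i hi j hj k hk hij hik hjk]
    · ring
    · refine Finset.union_subset hq fun e he => ?_
      simp only [Finset.mem_insert, Finset.mem_singleton] at he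
      rcases he with rfl | rfl | rfl
      · exact hs _ hi
      · exact hs _ hj
      · exact hs _ hk

theorem eqD_del (h : Tri L x y z w) (hy : y ∉ q.2) (hz : z ∉ q.2) (hT : EqD L (WW L) q T 0) :
    EqD L (WW L) (insert x q.1, insert x q.2) T 0 := by
  obtain ⟨l, hl⟩ := hT
  refine ⟨l, fun c hc d hd => hl c ⟨hc.1, fun e he => hc.2 e (Finset.mem_insert_of_mem he)⟩ d ⟨hd.1, fun e he => ?_⟩⟩
  by_cases h1 : e = x
  · have h2 := ww_rel h hd.1
    have h3 : d y = 0 := hd.2 y fun h4 => (Finset.mem_insert.1 h4).elim h.hxy.symm hy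
    have h4 : d z = 0 := hd.2 z fun h4 => (Finset.mem_insert.1 h4).elim h.hzx hz
    rw [h3, h4, mul_zero, mul_zero, add_zero, add_zero] at h2
    rw [h1]
    exact (mul_eq_zero.1 h2).resolve_left (pow_ne_zero 2 h.wx)
  · refine hd.2 e fun h2 => ?_
    exact (Finset.mem_insert.1 h2).elim h1 he

/-- case (b) -/
private theorem case_b (h : Tri L x y z w) (hF : FP L x y z w p T' T) (hx : x ∈ p.2) (hy : y ∈ p.2) (hz : z ∈ p.2)
    (hx1 : x ∉ p.1) (hy1 : y ∉ p.1) (hz1 : z ∉ p.1)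
    (hT : InVs (tp (L.map (exl x y z w))) p T') (hq : Sub q p) (hr : Rich (rk L) q) (hxq : x ∈ q.1) : ¬ EqD L (WW L) q T 0 := by
  intro he
  refine hT.2 (tf x y z q.1, tf x y z q.2) ⟨fun e he => ?_, fun e he => ?_⟩ (rich_tf h hxq hr)
    (eqD_tf h hF hq hy hz hxq (hr.1 hxq) he)
  · show e ∈ tf x y z q.1
    rw [mem_tf, Equiv.swap_apply_of_ne_of_ne (ne_in hy1 he) (ne_in hz1 he)]
    exact ⟨ne_in hx1 he, hq.1 he⟩
  · change e ∈ tf x y z q.2 at he
    obtain ⟨h1, h2⟩ := mem_tf.1 he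
    by_cases h3 : e = y
    · rw [h3]
      exact hy
    by_cases h4 : e = z
    · rw [h4]
      exact hz
    · rw [Equiv.swap_apply_of_ne_of_ne h3 h4] at h2
      exact hq.2 h2

/-- case (d) -/
private theorem case_d (h : Tri L x y z w) (hr : Rich (rk L) q) (hx : x ∉ q.1) (hy : y ∉ q.1) (hz : z ∉ q.1)
    (hn : ¬ (x ∈ q.2 ∧ y ∈ q.2 ∧ z ∈ q.2)) : x ∉ q.2 ∧ y ∉ q.2 ∧ z ∉ q.2 := by
  have h1 : 3 ≤ (QUB.gs q \ {x, y, z}).card := by
    have h2 : (QUB.gs q ∩ {x, y, z}).card ≤ 2 := by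
      have h3 : QUB.gs q ∩ {x, y, z} ⊂ {x, y, z} := by
        refine Finset.ssubset_iff_subset_ne.2 ⟨Finset.inter_subset_right, fun h4 => hn ?_⟩
        have h5 : ∀ e ∈ ({x, y, z} : Finset E), e ∈ q.2 := fun e he => by
          rw [← h4] at he
          exact (Finset.mem_sdiff.1 (Finset.mem_inter.1 he).1).1
        exact ⟨h5 x (by simp), h5 y (by simp), h5 z (by simp)⟩
      have h4 := Finset.card_lt_card h3
      have h5 : ({x, y, z} : Finset E).card ≤ 3 := Finset.card_le_three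
      omega
    have h3 := Finset.card_sdiff_add_card_inter (QUB.gs q) {x, y, z}
    have h4 := hr.2.1
    omega
  have h2 := not_van hr Finset.sdiff_subset h1 h.mem
    (fun e he => h.out e (ne_in hx he) (ne_in hy he) (ne_in hz he)) fun e he => by
      have he' := (Finset.mem_sdiff.1 he).2
      simp only [Finset.mem_insert, Finset.mem_singleton, not_or] at he'
      exact h.out e he'.1 he'.2.1 he'.2.2
  exact ⟨fun h3 => h.wx (h2 x h3), fun h3 => h.wy (h2 y h3), fun h3 => h.wz (h2 z h3)⟩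

/-- the form `T` is diagonal on no rich five-element minor -/
theorem invs_ex (h : Tri L x y z w) (hF : FP L x y z w p T' T) (hx : x ∈ p.2) (hy : y ∈ p.2) (hz : z ∈ p.2)
    (hx1 : x ∉ p.1) (hy1 : y ∉ p.1) (hz1 : z ∉ p.1)
    (hT : InVs (tp (L.map (exl x y z w))) p T') : InVs (tp L) p T := by
  refine ⟨inv_ex h hF hx hy hz hx1 hy1 hz1 hT.1, fun q hq hr => ?_⟩
  change Rich (rk L) q at hr
  show ¬ EqD L (WW L) q T 0
  by_cases qx : x ∈ q.1
  · exact case_b h hF hx hy hz hx1 hy1 hz1 hT hq hr qx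
  by_cases qy : y ∈ q.1
  · exact case_b h.rot (hF.rot h) hy hz hx hy1 hz1 hx1 (by rw [← h.exl_rot]; exact hT) hq hr qy
  by_cases qz : z ∈ q.1
  · exact case_b h.rot.rot ((hF.rot h).rot h.rot) hz hx hy hz1 hx1 hy1 (by rw [← h.rot.exl_rot, ← h.exl_rot]; exact hT) hq hr qz
  by_cases hn : x ∈ q.2 ∧ y ∈ q.2 ∧ z ∈ q.2
  · obtain ⟨n1, n2, n3⟩ := hn
    have g1 : x ∈ QUB.gs q := Finset.mem_sdiff.2 ⟨n1, qx⟩
    have g2 : y ∈ QUB.gs q := Finset.mem_sdiff.2 ⟨n2, qy⟩
    have g3 : z ∈ QUB.gs q := Finset.mem_sdiff.2 ⟨n3, qz⟩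
    intro he
    exact hT.2 q hq (rich_abs h g1 g2 g3 hr) (eqD_abs h hF hq hx hy hz g1 g2 g3 hr he)
  · obtain ⟨n1, n2, n3⟩ := case_d h hr qx qy qz hn
    intro he
    refine case_b h hF hx hy hz hx1 hy1 hz1 hT (q := (insert x q.1, insert x q.2)) ?_ (rich_del h hr.1 n1 n2 n3 hr)
      (Finset.mem_insert_self x _) (eqD_del h n2 n3 he)
    exact ⟨hq.1.trans (Finset.subset_insert x _), Finset.insert_subset hx hq.2⟩

/-- the Delta-Y exchange of a triad: a form of `V_*` of the exchange gives a form of `V_*` -/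
theorem exists_ex (h : Tri L x y z w) (hx : x ∈ p.2) (hy : y ∈ p.2) (hz : z ∈ p.2)
    (hx1 : x ∉ p.1) (hy1 : y ∉ p.1) (hz1 : z ∉ p.1)
    (hT : ∃ T, InVs (tp (L.map (exl x y z w))) p T) : ∃ T, InVs (tp L) p T := by
  obtain ⟨T, hT1, hT2⟩ := hT
  obtain ⟨l, hl⟩ := norm_ex h hx hy hz hT1
  have hT' : InVs (tp (L.map (exl x y z w))) p (T + dg l) := by
    refine ⟨hT1.add (Pool.Agent.QU.dg_inV p l), fun q hq hr he => hT2 q hq hr ?_⟩
    obtain ⟨m, hm⟩ := he
    refine ⟨m - l, fun c hc d hd => ?_⟩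
    have h1 := hm c hc d hd
    rw [Pool.Agent.QU.dg_sub]
    simp only [LinearMap.add_apply, LinearMap.sub_apply, LinearMap.zero_apply] at h1 ⊢
    linear_combination h1
  exact ⟨_, invs_ex h (fp_of h hx1 hy1 hz1 hl) hx hy hz hx1 hy1 hz1 hT'⟩

end Pool.Agent.QUY
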