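import Pool.Agent.QUY.ExV

/-!
# QUY/ExR: the rich five-element minors under the Delta-Y exchange

(b) `x` contracted: the minor of `L` is the minor of the exchange with `x` deleted and the labels `y`, `z` exchanged (`tf`).  (c) the triple deleted: `x` may be contracted instead.
(a) the triple is contained in the ground set of the minor: a minor `U_{3,5}` of `L` becomes a minor `U_{2,5}`.  (d) nothing else is possible.
-/

set_option autoImplicit false

noncomputable section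

open scoped Classical

namespace Pool.Agent.QUY

open Pool.Agent.FRM Pool.Agent.QUS Pool.Agent.QUE
open Pool.Agent.QU (Fm van spt dg EqOn EqD InV TP Itv Sub Rich InVs)

variable {E : Type} [Fintype E] {L : Submodule F4 (E → F4)} {x y z : E} {w : E → F4} {p q : Itv E} {T' T : Fm F4 E}

/-- deletion of `x` and exchange of the labels `y` and `z` -/
def tf (x y z : E) (A : Finset E) : Finset E := Finset.univ.filter fun e => e ≠ x ∧ Equiv.swap y z e ∈ A

theorem mem_tf {e : E} {A : Finset E} : e ∈ tf x y z A ↔ e ≠ x ∧ Equiv.swap y z e ∈ A := by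
  unfold tf
  rw [Finset.mem_filter]
  exact ⟨fun h => h.2, fun h => ⟨Finset.mem_univ _, h⟩⟩

omit [Fintype E] in
private theorem swap_ne {e : E} (hy : e ≠ y) (hz : e ≠ z) : Equiv.swap y z e = e := Equiv.swap_apply_of_ne_of_ne hy hz

private theorem tf_set {A B : Finset E} (h : Tri L x y z w) (hx : x ∈ B) (hy : y ∈ B ↔ y ∈ A) (hz : z ∈ B ↔ z ∈ A)
    (ho : ∀ e, e ≠ x → e ≠ y → e ≠ z → (e ∈ B ↔ e ∈ A)) (hxA : x ∈ A) : B = A := by
  ext e
  by_cases h1 : e = x
  · rw [h1]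
    exact ⟨fun _ => hxA, fun _ => hx⟩
  by_cases h2 : e = y
  · rw [h2]
    exact hy
  by_cases h3 : e = z
  · rw [h3]
    exact hz
  · exact ho e h1 h2 h3

theorem rk_tf (h : Tri L x y z w) {A : Finset E} (hx : x ∈ A) :
    rk (L.map (exl x y z w)) (tf x y z A) = rk L A - 1 := by
  have mx : x ∉ tf x y z A := fun h1 => (mem_tf.1 h1).1 rfl
  have my : y ∈ tf x y z A ↔ z ∈ A := by
    rw [mem_tf, Equiv.swap_apply_left]
    exact ⟨fun h1 => h1.2, fun h1 => ⟨h.hxy.symm, h1⟩⟩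
  have mz : z ∈ tf x y z A ↔ y ∈ A := by
    rw [mem_tf, Equiv.swap_apply_right]
    exact ⟨fun h1 => h1.2, fun h1 => ⟨h.hzx, h1⟩⟩
  have mo : ∀ e, e ≠ x → e ≠ y → e ≠ z → (e ∈ tf x y z A ↔ e ∈ A) := by
    intro e h1 h2 h3
    rw [mem_tf, swap_ne h2 h3]
    exact ⟨fun h4 => h4.2, fun h4 => ⟨h1, h4⟩⟩
  have hxy := h.hxy
  have hyz := h.hyz
  have hzx := h.hzx
  by_cases hy : y ∈ A <;> by_cases hz : z ∈ A
  · have e1 : tf x y z A ∪ {x, y, z} = A :=
      tf_set h (by simp) (by simp [hy]) (by simp [hz]) (fun e h1 h2 h3 => by simp [h1, h2, h3, mo e h1 h2 h3]) hx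
    rw [rk_ex2 h (Or.inr (Or.inl ⟨my.2 hz, mz.2 hy⟩)), e1]
  · have e1 : insert x (insert y ((tf x y z A).erase z)) = A :=
      tf_set h (by simp) (by simp [hy]) (by simp [hz, hzx, hyz.symm])
        (fun e h1 h2 h3 => by simp [h1, h2, h3, mo e h1 h2 h3]) hx
    rw [rk_ex1'' h mx (fun h1 => hz (my.1 h1)) (mz.2 hy), e1]
  · have e1 : insert z (insert x ((tf x y z A).erase y)) = A :=
      tf_set h (by simp) (by simp [hy, hxy.symm, hyz]) (by simp [hz])
        (fun e h1 h2 h3 => by simp [h1, h2, h3, mo e h1 h2 h3]) hx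
    rw [rk_ex1' h mx (my.2 hz) (fun h1 => hy (mz.1 h1)), e1]
  · have e1 : insert x (tf x y z A) = A :=
      tf_set h (by simp) (by simp [hy, hxy.symm, my, hz]) (by simp [hz, hzx, mz, hy])
        (fun e h1 h2 h3 => by simp [h1, mo e h1 h2 h3]) hx
    rw [rk_ex0 h mx (fun h1 => hz (my.1 h1)) (fun h1 => hy (mz.1 h1)) (Or.inl rfl), e1]

private theorem swap_x (h : Tri L x y z w) : Equiv.swap y z x = x := swap_ne h.hxy h.hzx.symm

theorem mem_gs_tf (h : Tri L x y z w) (hx : x ∈ q.1) {e : E} :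
    e ∈ QUB.gs (tf x y z q.1, tf x y z q.2) ↔ Equiv.swap y z e ∈ QUB.gs q := by
  show e ∈ tf x y z q.2 \ tf x y z q.1 ↔ Equiv.swap y z e ∈ q.2 \ q.1
  rw [Finset.mem_sdiff, Finset.mem_sdiff, mem_tf, mem_tf]
  constructor
  · rintro ⟨⟨h1, h2⟩, h3⟩
    exact ⟨h2, fun h4 => h3 ⟨h1, h4⟩⟩
  · rintro ⟨h1, h2⟩
    refine ⟨⟨fun h3 => h2 ?_, h1⟩, fun h3 => h2 h3.2⟩
    rw [h3, swap_x h]
    exact hx

private theorem tf_pair (h : Tri L x y z w) {A : Finset E} {i : E} (hi : i ≠ x) :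
    insert i (tf x y z A) = tf x y z (insert (Equiv.swap y z i) A) := by
  ext e
  rw [Finset.mem_insert, mem_tf, mem_tf, Finset.mem_insert]
  constructor
  · rintro (rfl | ⟨h1, h2⟩)
    · exact ⟨hi, Or.inl rfl⟩
    · exact ⟨h1, Or.inr h2⟩
  · rintro ⟨h1, h2 | h2⟩
    · exact Or.inl ((Equiv.swap y z).injective h2)
    · exact Or.inr ⟨h1, h2⟩

omit [Fintype E] in
private theorem union2 (A : Finset E) (i j : E) : A ∪ {i, j} = insert i (insert j A) := by
  ext e
  simp only [Finset.mem_union, Finset.mem_insert, Finset.mem_singleton]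
  tauto

omit [Fintype E] in
private theorem union3 (A : Finset E) (i j k : E) : A ∪ {i, j, k} = insert i (insert j (insert k A)) := by
  ext e
  simp only [Finset.mem_union, Finset.mem_insert, Finset.mem_singleton]
  tauto

theorem rich_tf (h : Tri L x y z w) (hx : x ∈ q.1) (hr : Rich (rk L) q) :
    Rich (rk (L.map (exl x y z w))) (tf x y z q.1, tf x y z q.2) := by
  obtain ⟨h1, h2, h3⟩ := hr
  have hcard : (QUB.gs (tf x y z q.1, tf x y z q.2)).card = 5 := by
    rw [← h2]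
    refine Finset.card_bij (fun e _ => Equiv.swap y z e) (fun e he => (mem_gs_tf h hx).1 he)
      (fun a _ b _ hab => (Equiv.swap y z).injective hab) fun b hb => ⟨Equiv.swap y z b, ?_, Equiv.swap_apply_self _ _ _⟩
    rw [mem_gs_tf h hx, Equiv.swap_apply_self]
    exact hb
  have hix : ∀ i ∈ QUB.gs (tf x y z q.1, tf x y z q.2), i ≠ x := by
    rintro i hi rfl
    have h4 := (mem_gs_tf h hx).1 hi
    rw [swap_x h] at h4
    exact (Finset.mem_sdiff.1 h4).2 hx
  have r1 := rk_tf h hx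
  have r2 := rk_tf h (h1 hx)
  refine ⟨fun e he => ?_, hcard, ?_⟩
  · obtain ⟨h4, h5⟩ := mem_tf.1 he
    exact mem_tf.2 ⟨h4, h1 h5⟩
  rcases h3 with ⟨h3, h4⟩ | ⟨h3, h4⟩
  · left
    refine ⟨by rw [r1, r2, h3]; ring, fun i hi j hj hij => ?_⟩
    have h5 := h4 _ ((mem_gs_tf h hx).1 hi) _ ((mem_gs_tf h hx).1 hj) fun h6 => hij ((Equiv.swap y z).injective h6)
    show rk _ (tf x y z q.1 ∪ {i, j}) = rk _ (tf x y z q.1) + 2
    rw [union2] at h5 ⊢
    rw [tf_pair h (hix j hj), tf_pair h (hix i hi), rk_tf h (Finset.mem_insert_of_mem (Finset.mem_insert_of_mem hx)), h5, r1]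
    ring
  · right
    refine ⟨by rw [r1, r2, h3]; ring, fun i hi j hj k hk hij hik hjk => ?_⟩
    have h5 := h4 _ ((mem_gs_tf h hx).1 hi) _ ((mem_gs_tf h hx).1 hj) _ ((mem_gs_tf h hx).1 hk)
      (fun h6 => hij ((Equiv.swap y z).injective h6)) (fun h6 => hik ((Equiv.swap y z).injective h6))
      fun h6 => hjk ((Equiv.swap y z).injective h6)
    show rk _ (tf x y z q.1 ∪ {i, j, k}) = rk _ (tf x y z q.1) + 3
    rw [union3] at h5 ⊢
    rw [tf_pair h (hix k hk), tf_pair h (hix j hj), tf_pair h (hix i hi),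
      rk_tf h (Finset.mem_insert_of_mem (Finset.mem_insert_of_mem (Finset.mem_insert_of_mem hx))), h5, r1]
    ring

/-- case (b) for the forms -/
theorem eqD_tf (h : Tri L x y z w) (hF : FP L x y z w p T' T) (hq : Sub q p) (hy : y ∈ p.2) (hz : z ∈ p.2)
    (hx1 : x ∈ q.1) (hxq : x ∈ q.2) (hT : EqD L (WW L) q T 0) :
    EqD (L.map (exl x y z w)) (WW (L.map (exl x y z w))) (tf x y z q.1, tf x y z q.2) T' 0 := by
  obtain ⟨l, hl⟩ := hT
  have wx := h.wx
  have wy := h.wy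
  have wz := h.wz
  have my : ∀ A : Finset E, y ∈ tf x y z A ↔ z ∈ A := by
    intro A
    rw [mem_tf, Equiv.swap_apply_left]
    exact ⟨fun h1 => h1.2, fun h1 => ⟨h.hxy.symm, h1⟩⟩
  have mz : ∀ A : Finset E, z ∈ tf x y z A ↔ y ∈ A := by
    intro A
    rw [mem_tf, Equiv.swap_apply_right]
    exact ⟨fun h1 => h1.2, fun h1 => ⟨h.hzx, h1⟩⟩
  have mo : ∀ A : Finset E, ∀ e, e ≠ x → e ≠ y → e ≠ z → (e ∈ tf x y z A ↔ e ∈ A) := by
    intro A e h1 h2 h3
    rw [mem_tf, swap_ne h2 h3]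
    exact ⟨fun h4 => h4.2, fun h4 => ⟨h1, h4⟩⟩
  refine ⟨fun e => if e = x then 0 else if e = y then l z / w z else if e = z then l y / w y else l e, ?_⟩
  rintro c' ⟨⟨c0, hc0, rfl⟩, hc1⟩ d' ⟨hd, hd0⟩
  change ∀ e ∈ tf x y z q.1, exl x y z w c0 e = 0 at hc1
  change ∀ e, e ∉ tf x y z q.2 → d' e = 0 at hd0
  set c : E → F4 := c0 - (c0 x / w x) • w with hc
  have hcL : c ∈ L := L.sub_mem hc0 (L.smul_mem _ h.mem)
  have hex : exl x y z w c = exl x y z w c0 := h.exl_sub _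
  have hcx : c x = 0 := by
    rw [hc, Pi.sub_apply, Pi.smul_apply, smul_eq_mul, div_mul_cancel₀ _ wx, sub_self]
  rw [← hex] at hc1 ⊢
  have ey : exl x y z w c y = c z / w z := by rw [exl_y h.hxy, hcx, zero_div, sub_zero]
  have ez : exl x y z w c z = c y / w y := by rw [exl_z h.hzx h.hyz, hcx, zero_div, zero_sub, f4_neg]
  have hd'x : d' x = 0 := hd0 x fun h1 => (mem_tf.1 h1).1 rfl
  have hcq : c ∈ van L q.1 := by
    refine ⟨hcL, fun e he => ?_⟩
    by_cases h1 : e = x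
    · rw [h1, hcx]
    by_cases h2 : e = y
    · have h4 := hc1 z ((mz _).2 (h2 ▸ he))
      rw [ez] at h4
      rw [h2]
      exact (div_eq_zero_iff.1 h4).resolve_right wy
    by_cases h3 : e = z
    · have h4 := hc1 y ((my _).2 (h3 ▸ he))
      rw [ey] at h4
      rw [h3]
      exact (div_eq_zero_iff.1 h4).resolve_right wz
    · rw [← exl_out (w := w) (c := c) h1 h2 h3]
      exact hc1 e ((mo _ e h1 h2 h3).2 he)
  have hdq : psl x y z w d' ∈ spt (WW L) q.2 := by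
    refine ⟨(mem_ww_ex h).1 hd, fun e he => ?_⟩
    have h1 : e ≠ x := ne_out hxq he
    by_cases h2 : e = y
    · rw [h2, psl_y h.hxy, hd'x, hd0 z fun h4 => he (h2 ▸ (mz _).1 h4), add_zero, zero_div]
    by_cases h3 : e = z
    · rw [h3, psl_z h.hzx h.hyz, hd'x, hd0 y fun h4 => he (h3 ▸ (my _).1 h4), add_zero, zero_div]
    · rw [psl_out h1 h2 h3]
      exact hd0 e fun h4 => he ((mo _ e h1 h2 h3).1 h4)
  have hdp : d' ∈ spt (WW (L.map (exl x y z w))) p.2 := by
    refine ⟨hd, fun e he => hd0 e fun h4 => he ?_⟩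
    by_cases h2 : e = y
    · rw [h2]
      exact hy
    by_cases h3 : e = z
    · rw [h3]
      exact hz
    · exact hq.2 ((mo _ e (mem_tf.1 h4).1 h2 h3).1 h4)
  have h5 := hF c ⟨hcL, fun e he => hcq.2 e (hq.1 he)⟩ d' hdp
  rw [← h5, hl c hcq _ hdq]
  show (0 : Fm F4 E) _ _ + dg l _ _ = (0 : Fm F4 E) _ _ + dg _ _ _
  rw [LinearMap.zero_apply, LinearMap.zero_apply, Pool.Agent.QU.dg_apply, Pool.Agent.QU.dg_apply,
    sum3 h.hxy h.hyz h.hzx, sum3 h.hxy h.hyz h.hzx (fun e => _ * (exl x y z w c e * d' e))]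
  rw [LinearMap.zero_apply, LinearMap.zero_apply]
  congr 1
  rw [if_pos rfl, if_neg h.hxy.symm, if_pos rfl, if_neg h.hzx, if_neg h.hyz.symm, if_pos rfl, hcx, ey, ez,
    psl_y h.hxy, psl_z h.hzx h.hyz, hd'x]
  have h6 : ∑ e ∈ Finset.univ \ {x, y, z}, l e * (c e * psl x y z w d' e) =
      ∑ e ∈ Finset.univ \ {x, y, z}, (if e = x then 0 else if e = y then l z / w z else if e = z then l y / w y else l e) *
        (exl x y z w c e * d' e) := by
    refine Finset.sum_congr rfl fun e he => ?_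
    have he' := (Finset.mem_sdiff.1 he).2
    simp only [Finset.mem_insert, Finset.mem_singleton, not_or] at he'
    rw [exl_out he'.1 he'.2.1 he'.2.2, psl_out he'.1 he'.2.1 he'.2.2, if_neg he'.1, if_neg he'.2.1, if_neg he'.2.2]
  rw [h6]
  field_simp
  ring

end Pool.Agent.QUY
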