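import Pool.Agent.QUY.Exm
import Pool.Agent.QUL.LBase

/-!
# QUY/ExV: the forms under the Delta-Y exchange

`psl` is the adjoint of `exl` (with squares), `ssl` a section of it on `WW L`, `one` spans the kernel.  `FP`: the form `T` on `L` corresponds to the form `T'` on the exchange.
-/

set_option autoImplicit false

noncomputable section

open scoped Classical

namespace Pool.Agent.QUY

open Pool.Agent.FRM Pool.Agent.QUS Pool.Agent.QUE
open Pool.Agent.QU (Fm van spt dg EqOn EqD InV TP Itv Sub Rich InVs)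

variable {E : Type}

/-- the adjoint map -/
def psl (x y z : E) (w : E → F4) : (E → F4) →ₗ[F4] (E → F4) where
  toFun d e := if e = x then (d y + d z) / w x ^ 2 else if e = y then (d z + d x) / w y ^ 2 else
    if e = z then (d x + d y) / w z ^ 2 else d e
  map_add' c d := by
    funext e
    simp only [Pi.add_apply]
    split_ifs <;> ring
  map_smul' a c := by
    funext e
    simp only [Pi.smul_apply, smul_eq_mul, RingHom.id_apply]
    split_ifs <;> ring

/-- the section -/
def ssl (x y z : E) (w : E → F4) : (E → F4) →ₗ[F4] (E → F4) where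
  toFun d e := if e = x then 0 else if e = y then w z ^ 2 * d z else if e = z then w y ^ 2 * d y else d e
  map_add' c d := by
    funext e
    simp only [Pi.add_apply]
    split_ifs <;> ring
  map_smul' a c := by
    funext e
    simp only [Pi.smul_apply, smul_eq_mul, RingHom.id_apply]
    split_ifs <;> ring

theorem ne_in {x e : E} {A : Finset E} (hx : x ∉ A) (he : e ∈ A) : e ≠ x := fun h => hx (h ▸ he)

theorem ne_out {x e : E} {A : Finset E} (hx : x ∈ A) (he : e ∉ A) : e ≠ x := fun h => he (h ▸ hx)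

/-- one on the triple -/
def one (x y z : E) : E → F4 := fun e => if e = x ∨ e = y ∨ e = z then 1 else 0

theorem f4_two : (2 : F4) = 0 := by decide

theorem f4_neg (a : F4) : -a = a := by
  revert a
  decide

theorem f4_sub (a b : F4) : a - b = a + b := by
  revert a b
  decide

variable {L : Submodule F4 (E → F4)} {x y z : E} {w c d : E → F4} {e : E}

theorem psl_x : psl x y z w d x = (d y + d z) / w x ^ 2 := if_pos rfl

theorem psl_y (h : x ≠ y) : psl x y z w d y = (d z + d x) / w y ^ 2 := (if_neg h.symm).trans (if_pos rfl)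

theorem psl_z (h : z ≠ x) (h' : y ≠ z) : psl x y z w d z = (d x + d y) / w z ^ 2 :=
  (if_neg h).trans ((if_neg h'.symm).trans (if_pos rfl))

theorem psl_out (h : e ≠ x) (h1 : e ≠ y) (h2 : e ≠ z) : psl x y z w d e = d e :=
  (if_neg h).trans ((if_neg h1).trans (if_neg h2))

theorem ssl_x : ssl x y z w d x = 0 := if_pos rfl

theorem ssl_y (h : x ≠ y) : ssl x y z w d y = w z ^ 2 * d z := (if_neg h.symm).trans (if_pos rfl)

theorem ssl_z (h : z ≠ x) (h' : y ≠ z) : ssl x y z w d z = w y ^ 2 * d y :=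
  (if_neg h).trans ((if_neg h'.symm).trans (if_pos rfl))

theorem ssl_out (h : e ≠ x) (h1 : e ≠ y) (h2 : e ≠ z) : ssl x y z w d e = d e :=
  (if_neg h).trans ((if_neg h1).trans (if_neg h2))

theorem one_in (h : e = x ∨ e = y ∨ e = z) : one x y z e = 1 := if_pos h

theorem one_out (h : e ≠ x) (h1 : e ≠ y) (h2 : e ≠ z) : one x y z e = 0 :=
  if_neg fun h3 => h3.elim h fun h4 => h4.elim h1 h2

theorem psl_rot (h : Tri L x y z w) : psl x y z w = psl y z x w := by
  refine LinearMap.ext fun c => funext fun e => ?_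
  by_cases h1 : e = x
  · rw [h1, psl_x, psl_z h.hxy h.hzx]
  by_cases h2 : e = y
  · rw [h2, psl_y h.hxy, psl_x]
  by_cases h3 : e = z
  · rw [h3, psl_z h.hzx h.hyz, psl_y h.hyz]
  · rw [psl_out h1 h2 h3, psl_out h2 h3 h1]

theorem psl_one (h : Tri L x y z w) : psl x y z w (one x y z) = 0 := by
  have h11 : (1 : F4) + 1 = 0 := by decide
  funext e
  by_cases h1 : e = x
  · rw [h1, psl_x, one_in (Or.inr (Or.inl rfl)), one_in (Or.inr (Or.inr rfl)), h11, zero_div]
    rfl
  by_cases h2 : e = y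
  · rw [h2, psl_y h.hxy, one_in (Or.inr (Or.inr rfl)), one_in (Or.inl rfl), h11, zero_div]
    rfl
  by_cases h3 : e = z
  · rw [h3, psl_z h.hzx h.hyz, one_in (Or.inl rfl), one_in (Or.inr (Or.inl rfl)), h11, zero_div]
    rfl
  · rw [psl_out h1 h2 h3, one_out h1 h2 h3]
    rfl

theorem psl_ker (h : Tri L x y z w) (hd : psl x y z w d = 0) : ∃ t : F4, d = t • one x y z := by
  have hx : d y + d z = 0 := by
    have h1 : (d y + d z) / w x ^ 2 = 0 := by rw [← psl_x (x := x) (w := w), hd]; rfl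
    exact (div_eq_zero_iff.1 h1).resolve_right (pow_ne_zero 2 h.wx)
  have hy : d z + d x = 0 := by
    have h1 : (d z + d x) / w y ^ 2 = 0 := by rw [← psl_y (w := w) h.hxy, hd]; rfl
    exact (div_eq_zero_iff.1 h1).resolve_right (pow_ne_zero 2 h.wy)
  refine ⟨d x, funext fun e => ?_⟩
  rw [Pi.smul_apply, smul_eq_mul]
  by_cases h1 : e = x
  · rw [h1, one_in (Or.inl rfl), mul_one]
  by_cases h2 : e = y
  · rw [h2, one_in (Or.inr (Or.inl rfl)), mul_one]
    linear_combination hx + hy - (d z + d x) * f4_two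
  by_cases h3 : e = z
  · rw [h3, one_in (Or.inr (Or.inr rfl)), mul_one]
    linear_combination hy - d x * f4_two
  · rw [one_out h1 h2 h3, mul_zero, ← psl_out (w := w) (d := d) h1 h2 h3, hd]
    rfl

variable [Fintype E]

/-- a sum over the triple and the rest -/
theorem sum3 {K : Type} [Field K] {x y z : E} (h1 : x ≠ y) (h2 : y ≠ z) (h3 : z ≠ x) (f : E → K) :
    ∑ e, f e = f x + (f y + (f z + ∑ e ∈ Finset.univ \ {x, y, z}, f e)) := by
  have e1 : (Finset.univ : Finset E) = {x, y, z} ∪ (Finset.univ \ {x, y, z}) := by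
    ext e
    simp
  conv_lhs => rw [e1]
  rw [Finset.sum_union Finset.disjoint_sdiff, Finset.sum_insert, Finset.sum_insert, Finset.sum_singleton]
  · ring
  · rw [Finset.mem_singleton]
    exact h2
  · rw [Finset.mem_insert, Finset.mem_singleton, not_or]
    exact ⟨h1, h3.symm⟩

theorem psl_adj (h : Tri L x y z w) (c d : E → F4) :
    ∑ e, exl x y z w c e ^ 2 * d e = ∑ e, c e ^ 2 * psl x y z w d e := by
  rw [sum3 h.hxy h.hyz h.hzx, sum3 h.hxy h.hyz h.hzx (fun e => c e ^ 2 * psl x y z w d e)]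
  have h1 : ∑ e ∈ Finset.univ \ {x, y, z}, exl x y z w c e ^ 2 * d e =
      ∑ e ∈ Finset.univ \ {x, y, z}, c e ^ 2 * psl x y z w d e := by
    refine Finset.sum_congr rfl fun e he => ?_
    have he' := (Finset.mem_sdiff.1 he).2
    simp only [Finset.mem_insert, Finset.mem_singleton, not_or] at he'
    rw [exl_out he'.1 he'.2.1 he'.2.2, psl_out he'.1 he'.2.1 he'.2.2]
  rw [h1, exl_x, exl_y h.hxy, exl_z h.hzx h.hyz, psl_x, psl_y h.hxy, psl_z h.hzx h.hyz, f4_sub, f4_sub, f4_sub,
    F4.add_sq, F4.add_sq, F4.add_sq]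
  ring

theorem mem_ww_ex (h : Tri L x y z w) : d ∈ WW (L.map (exl x y z w)) ↔ psl x y z w d ∈ WW L := by
  constructor
  · rintro hd u ⟨v, hv, hu⟩
    have h1 := hd (fun e => exl x y z w v e ^ 2) ⟨_, Submodule.mem_map_of_mem hv, fun _ => rfl⟩
    rw [psl_adj h] at h1
    rw [← h1]
    exact Finset.sum_congr rfl fun e _ => by rw [hu]
  · rintro hd u ⟨v, ⟨v, hv, rfl⟩, hu⟩
    have h1 := hd (fun e => v e ^ 2) ⟨_, hv, fun _ => rfl⟩
    rw [← psl_adj h] at h1
    rw [← h1]
    exact Finset.sum_congr rfl fun e _ => by rw [hu]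

theorem ww_rel (h : Tri L x y z w) (hd : d ∈ WW L) : w x ^ 2 * d x + w y ^ 2 * d y + w z ^ 2 * d z = 0 := by
  have h1 := hd (fun e => w e ^ 2) ⟨_, h.mem, fun _ => rfl⟩
  rw [sum3 h.hxy h.hyz h.hzx, Finset.sum_eq_zero fun e he => by
    have he' := (Finset.mem_sdiff.1 he).2
    simp only [Finset.mem_insert, Finset.mem_singleton, not_or] at he'
    rw [h.out e he'.1 he'.2.1 he'.2.2]
    ring] at h1
  linear_combination h1

theorem psl_ssl (h : Tri L x y z w) (hd : d ∈ WW L) : psl x y z w (ssl x y z w d) = d := by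
  have h0 := ww_rel h hd
  have wx := h.wx
  have wy := h.wy
  have wz := h.wz
  funext e
  by_cases h1 : e = x
  · rw [h1, psl_x, ssl_y h.hxy, ssl_z h.hzx h.hyz, div_eq_iff (pow_ne_zero 2 wx)]
    linear_combination h0 - w x ^ 2 * d x * f4_two
  by_cases h2 : e = y
  · rw [h2, psl_y h.hxy, ssl_x, ssl_z h.hzx h.hyz, add_zero, mul_comm, mul_div_assoc, div_self (pow_ne_zero 2 wy), mul_one]
  by_cases h3 : e = z
  · rw [h3, psl_z h.hzx h.hyz, ssl_x, ssl_y h.hxy, zero_add, mul_comm, mul_div_assoc, div_self (pow_ne_zero 2 wz), mul_one]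
  · rw [psl_out h1 h2 h3, ssl_out h1 h2 h3]

theorem one_mem (h : Tri L x y z w) : one x y z ∈ WW (L.map (exl x y z w)) := by
  rw [mem_ww_ex h, psl_one h]
  exact (WW L).zero_mem

/-- the form `T` corresponds to the form `T'` on the exchange -/
def FP (L : Submodule F4 (E → F4)) (x y z : E) (w : E → F4) (p : Itv E) (T' T : Fm F4 E) : Prop :=
  ∀ c ∈ van L p.1, ∀ d ∈ spt (WW (L.map (exl x y z w))) p.2, T c (psl x y z w d) = T' (exl x y z w c) d

theorem FP.rot {p : Itv E} {T' T : Fm F4 E} (h : Tri L x y z w) (hF : FP L x y z w p T' T) : FP L y z x w p T' T := by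
  unfold FP
  rw [← h.exl_rot, ← psl_rot h]
  exact hF

theorem fp_of {p : Itv E} {T' : Fm F4 E} (h : Tri L x y z w) (hx : x ∉ p.1) (hy : y ∉ p.1) (hz : z ∉ p.1)
    (hN : ∀ c ∈ van (L.map (exl x y z w)) p.1, T' c (one x y z) = 0) :
    FP L x y z w p T' (T'.compl₁₂ (exl x y z w) (ssl x y z w)) := by
  intro c hc d hd
  have h1 : psl x y z w (ssl x y z w (psl x y z w d) - d) = 0 := by
    rw [map_sub, psl_ssl h ((mem_ww_ex h).1 hd.1), sub_self]
  obtain ⟨t, ht⟩ := psl_ker h h1
  have h2 : ssl x y z w (psl x y z w d) = d + t • one x y z := by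
    rw [← ht]
    ring
  have h3 : exl x y z w c ∈ van (L.map (exl x y z w)) p.1 := by
    refine ⟨Submodule.mem_map_of_mem hc.1, fun e he => ?_⟩
    rw [exl_out (ne_in hx he) (ne_in hy he) (ne_in hz he)]
    exact hc.2 e he
  rw [LinearMap.compl₁₂_apply, h2, map_add, map_smul, hN _ h3, smul_zero, add_zero]

theorem ssl_spt {G : Finset E} (h : Tri L x y z w) (hx : x ∈ G) (hy : y ∈ G) (hz : z ∈ G) (hd : d ∈ spt (WW L) G) :
    ssl x y z w d ∈ spt (WW (L.map (exl x y z w))) G := by
  refine ⟨(mem_ww_ex h).2 (by rw [psl_ssl h hd.1]; exact hd.1), fun e he => ?_⟩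
  rw [ssl_out (ne_out hx he) (ne_out hy he) (ne_out hz he)]
  exact hd.2 e he

/-- the case in which the supports meet the triple in one and in two elements -/
private theorem ExV_one {p : Itv E} {T' T : Fm F4 E} (h : Tri L x y z w) (hF : FP L x y z w p T' T)
    (hx : x ∈ p.2) (hx1 : x ∉ p.1) (hy1 : y ∉ p.1) (hz1 : z ∉ p.1)
    (hT : InV (L.map (exl x y z w)) (WW (L.map (exl x y z w))) p T')
    (hc : c ∈ van L p.1) (hd : d ∈ spt (WW L) p.2) (hcd : ∀ e, c e * d e = 0) (hdx : d x = 0) (hcy : c y = 0) (hcz : c z = 0) :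
    T c d = 0 := by
  have hr := ww_rel h hd.1
  rw [hdx, mul_zero, zero_add] at hr
  have wy := h.wy
  have wz := h.wz
  set d' : E → F4 := fun e => if e = x then w y ^ 2 * d y else if e = y then 0 else if e = z then 0 else d e with hd'
  have d1 : d' x = w y ^ 2 * d y := if_pos rfl
  have d2 : d' y = 0 := (if_neg h.hxy.symm).trans (if_pos rfl)
  have d3 : d' z = 0 := (if_neg h.hzx).trans ((if_neg h.hyz.symm).trans (if_pos rfl))
  have d4 : ∀ e, e ≠ x → e ≠ y → e ≠ z → d' e = d e := fun e h1 h2 h3 =>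
    (if_neg h1).trans ((if_neg h2).trans (if_neg h3))
  have hp : psl x y z w d' = d := by
    funext e
    by_cases h1 : e = x
    · rw [h1, psl_x, d2, d3, add_zero, zero_div, hdx]
    by_cases h2 : e = y
    · rw [h2, psl_y h.hxy, d1, d3, zero_add, mul_comm, mul_div_assoc, div_self (pow_ne_zero 2 wy), mul_one]
    by_cases h3 : e = z
    · rw [h3, psl_z h.hzx h.hyz, d1, d2, add_zero, div_eq_iff (pow_ne_zero 2 wz)]
      linear_combination hr - d z * w z ^ 2 * f4_two
    · rw [psl_out h1 h2 h3, d4 e h1 h2 h3]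
  have hs : d' ∈ spt (WW (L.map (exl x y z w))) p.2 := by
    refine ⟨(mem_ww_ex h).2 (by rw [hp]; exact hd.1), fun e he => ?_⟩
    have h1 : e ≠ x := fun h1 => he (h1 ▸ hx)
    by_cases h2 : e = y
    · rw [h2, d2]
    by_cases h3 : e = z
    · rw [h3, d3]
    · rw [d4 e h1 h2 h3]
      exact hd.2 e he
  have h5 := hF c hc d' hs
  rw [hp] at h5
  rw [h5]
  refine hT _ ⟨Submodule.mem_map_of_mem hc.1, fun e he => ?_⟩ _ hs fun e => ?_
  · rw [exl_out (ne_in hx1 he) (ne_in hy1 he) (ne_in hz1 he)]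
    exact hc.2 e he
  · by_cases h1 : e = x
    · rw [h1, exl_x, hcy, hcz, zero_div, zero_div, sub_zero, zero_mul]
    by_cases h2 : e = y
    · rw [h2, d2, mul_zero]
    by_cases h3 : e = z
    · rw [h3, d3, mul_zero]
    · rw [exl_out h1 h2 h3, d4 e h1 h2 h3]
      exact hcd e

/-- `T` is zero on the disjoint pairs if `T'` is -/
theorem inv_ex {p : Itv E} {T' T : Fm F4 E} (h : Tri L x y z w) (hF : FP L x y z w p T' T)
    (hx : x ∈ p.2) (hy : y ∈ p.2) (hz : z ∈ p.2) (hx1 : x ∉ p.1) (hy1 : y ∉ p.1) (hz1 : z ∉ p.1)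
    (hT : InV (L.map (exl x y z w)) (WW (L.map (exl x y z w))) p T') : InV L (WW L) p T := by
  intro c hc d hd hcd
  have hr := ww_rel h hd.1
  have hX : exl x y z w c ∈ van (L.map (exl x y z w)) p.1 := by
    refine ⟨Submodule.mem_map_of_mem hc.1, fun e he => ?_⟩
    rw [exl_out (ne_in hx1 he) (ne_in hy1 he) (ne_in hz1 he)]
    exact hc.2 e he
  have hS := ssl_spt h hx hy hz hd
  have h5 := hF c hc _ hS
  rw [psl_ssl h hd.1] at h5
  by_cases hcx : c x = 0
  · by_cases hcy : c y = 0
    · by_cases hcz : c z = 0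
      · rw [h5]
        refine hT _ hX _ hS fun e => ?_
        by_cases h1 : e = x
        · rw [h1, exl_x, hcy, hcz, zero_div, zero_div, sub_zero, zero_mul]
        by_cases h2 : e = y
        · rw [h2, exl_y h.hxy, hcx, hcz, zero_div, zero_div, sub_zero, zero_mul]
        by_cases h3 : e = z
        · rw [h3, exl_z h.hzx h.hyz, hcx, hcy, zero_div, zero_div, sub_zero, zero_mul]
        · rw [exl_out h1 h2 h3, ssl_out h1 h2 h3]
          exact hcd e
      · -- `c z` is not zero
        have hdz : d z = 0 := (mul_eq_zero.1 (hcd z)).resolve_left hcz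
        exact ExV_one h.rot.rot (hF.rot h |>.rot h.rot) hz hz1 hx1 hy1 (by rw [← h.rot.exl_rot, ← h.exl_rot]; exact hT)
          hc hd hcd hdz hcx hcy
    · have hdy : d y = 0 := (mul_eq_zero.1 (hcd y)).resolve_left hcy
      by_cases hcz : c z = 0
      · exact ExV_one h.rot (hF.rot h) hy hy1 hz1 hx1 (by rw [← h.exl_rot]; exact hT) hc hd hcd hdy hcz hcx
      · have hdz : d z = 0 := (mul_eq_zero.1 (hcd z)).resolve_left hcz
        have hdx : d x = 0 := by
          rw [hdy, hdz, mul_zero, mul_zero, add_zero, add_zero] at hr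
          exact (mul_eq_zero.1 hr).resolve_left (pow_ne_zero 2 h.wx)
        rw [h5]
        refine hT _ hX _ hS fun e => ?_
        by_cases h1 : e = x
        · rw [h1, ssl_x, mul_zero]
        by_cases h2 : e = y
        · rw [h2, ssl_y h.hxy, hdz, mul_zero, mul_zero]
        by_cases h3 : e = z
        · rw [h3, ssl_z h.hzx h.hyz, hdy, mul_zero, mul_zero]
        · rw [exl_out h1 h2 h3, ssl_out h1 h2 h3]
          exact hcd e
  · have hdx : d x = 0 := (mul_eq_zero.1 (hcd x)).resolve_left hcx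
    by_cases hdy : d y = 0
    · have hdz : d z = 0 := by
        rw [hdx, hdy, mul_zero, mul_zero, zero_add, zero_add] at hr
        exact (mul_eq_zero.1 hr).resolve_left (pow_ne_zero 2 h.wz)
      rw [h5]
      refine hT _ hX _ hS fun e => ?_
      by_cases h1 : e = x
      · rw [h1, ssl_x, mul_zero]
      by_cases h2 : e = y
      · rw [h2, ssl_y h.hxy, hdz, mul_zero, mul_zero]
      by_cases h3 : e = z
      · rw [h3, ssl_z h.hzx h.hyz, hdy, mul_zero, mul_zero]
      · rw [exl_out h1 h2 h3, ssl_out h1 h2 h3]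
        exact hcd e
    · have hcy : c y = 0 := (mul_eq_zero.1 (hcd y)).resolve_right hdy
      have hdz : d z ≠ 0 := by
        intro hdz
        rw [hdx, hdz, mul_zero, mul_zero, zero_add, add_zero] at hr
        exact hdy ((mul_eq_zero.1 hr).resolve_left (pow_ne_zero 2 h.wy))
      have hcz : c z = 0 := (mul_eq_zero.1 (hcd z)).resolve_right hdz
      exact ExV_one h hF hx hx1 hy1 hz1 hT hc hd hcd hdx hcy hcz

/-- a diagonal form on the triple makes the form zero at `one` -/
theorem norm_ex {p : Itv E} {T' : Fm F4 E} (h : Tri L x y z w) (hx : x ∈ p.2) (hy : y ∈ p.2) (hz : z ∈ p.2)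
    (hT : InV (L.map (exl x y z w)) (WW (L.map (exl x y z w))) p T') :
    ∃ l : E → F4, ∀ c ∈ van (L.map (exl x y z w)) p.1, (T' + dg l) c (one x y z) = 0 := by
  set V := van (L.map (exl x y z w)) p.1 with hV
  have hone : one x y z ∈ spt (WW (L.map (exl x y z w))) p.2 :=
    ⟨one_mem h, fun e he => one_out (ne_out hx he) (ne_out hy he) (ne_out hz he)⟩
  let ev : Fin 3 → E := ![x, y, z]
  let π : Fin 3 → (V →ₗ[F4] F4) := fun i => (LinearMap.proj (ev i)).comp V.subtype
  let f : V →ₗ[F4] F4 := (T'.flip (one x y z)).comp V.subtype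
  have hk : ⨅ i, LinearMap.ker (π i) ≤ LinearMap.ker f := by
    rintro ⟨c, hc⟩ h1
    rw [Submodule.mem_iInf] at h1
    have h2 : c x = 0 := h1 0
    have h3 : c y = 0 := h1 1
    have h4 : c z = 0 := h1 2
    show T' c (one x y z) = 0
    refine hT c hc _ hone fun e => ?_
    by_cases e1 : e = x
    · rw [e1, h2, zero_mul]
    by_cases e2 : e = y
    · rw [e2, h3, zero_mul]
    by_cases e3 : e = z
    · rw [e3, h4, zero_mul]
    · rw [one_out e1 e2 e3, mul_zero]
  have h5 := mem_span_of_iInf_ker_le_ker hk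
  obtain ⟨a, ha⟩ := (Submodule.mem_span_range_iff_exists_fun F4).1 h5
  refine ⟨fun e => if e = x then a 0 else if e = y then a 1 else if e = z then a 2 else 0, fun c hc => ?_⟩
  have h6 : T' c (one x y z) = a 0 * c x + a 1 * c y + a 2 * c z := by
    have h7 : f ⟨c, hc⟩ = (∑ i, a i • π i) ⟨c, hc⟩ := by rw [ha]
    rw [LinearMap.sum_apply, Fin.sum_univ_three] at h7
    exact h7
  rw [LinearMap.add_apply, LinearMap.add_apply, h6, Pool.Agent.QU.dg_apply, sum3 h.hxy h.hyz h.hzx]
  rw [Finset.sum_eq_zero fun e he => by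
    have he' := (Finset.mem_sdiff.1 he).2
    simp only [Finset.mem_insert, Finset.mem_singleton, not_or] at he'
    rw [one_out he'.1 he'.2.1 he'.2.2, mul_zero, mul_zero]]
  rw [one_in (Or.inl rfl), one_in (Or.inr (Or.inl rfl)), one_in (Or.inr (Or.inr rfl)), if_pos rfl, if_neg h.hxy.symm, if_pos rfl,
    if_neg h.hzx, if_neg h.hyz.symm, if_pos rfl]
  linear_combination (a 0 * c x + a 1 * c y + a 2 * c z) * f4_two

end Pool.Agent.QUY
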