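import Pool.Agent.QUY.Cut

/-!
# QUY/Exm: the Delta-Y exchange, linear algebra and ranks

`w ∈ L` is a vector with the support `{x, y, z}`; `exl x y z w c` has the coordinates `c y / w y - c z / w z` (cyclically) at `x, y, z` and is `c` elsewhere.
The kernel on `L` is spanned by `w`.  `rk_ex`: the rank of `A` in `L.map (exl x y z w)` is the rank of the completion of `A` in `L` minus one.
-/

set_option autoImplicit false

noncomputable section

open scoped Classical

namespace Pool.Agent.QUY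

open Pool.Agent.QUS Pool.Agent.QUE
open Pool.Agent.QU (van)

variable {K : Type} [Field K] {E : Type}

/-- the exchange map -/
def exl (x y z : E) (w : E → K) : (E → K) →ₗ[K] (E → K) where
  toFun c e := if e = x then c y / w y - c z / w z else if e = y then c z / w z - c x / w x else
    if e = z then c x / w x - c y / w y else c e
  map_add' c d := by
    funext e
    simp only [Pi.add_apply]
    split_ifs <;> ring
  map_smul' a c := by
    funext e
    simp only [Pi.smul_apply, smul_eq_mul, RingHom.id_apply]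
    split_ifs <;> ring

/-- three different elements and a vector of `L` with this support -/
structure Tri (L : Submodule K (E → K)) (x y z : E) (w : E → K) : Prop where
  hxy : x ≠ y
  hyz : y ≠ z
  hzx : z ≠ x
  mem : w ∈ L
  wx : w x ≠ 0
  wy : w y ≠ 0
  wz : w z ≠ 0
  out : ∀ e, e ≠ x → e ≠ y → e ≠ z → w e = 0

variable {L : Submodule K (E → K)} {x y z : E} {w c : E → K} {A B S : Finset E} {b e : E}

theorem exl_x : exl x y z w c x = c y / w y - c z / w z := if_pos rfl

theorem exl_y (h : x ≠ y) : exl x y z w c y = c z / w z - c x / w x := (if_neg h.symm).trans (if_pos rfl)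

theorem exl_z (h : z ≠ x) (h' : y ≠ z) : exl x y z w c z = c x / w x - c y / w y :=
  (if_neg h).trans ((if_neg h'.symm).trans (if_pos rfl))

theorem exl_out (h : e ≠ x) (h1 : e ≠ y) (h2 : e ≠ z) : exl x y z w c e = c e :=
  (if_neg h).trans ((if_neg h1).trans (if_neg h2))

namespace Tri

theorem rot (h : Tri L x y z w) : Tri L y z x w :=
  ⟨h.hyz, h.hzx, h.hxy, h.mem, h.wy, h.wz, h.wx, fun e h1 h2 h3 => h.out e h3 h1 h2⟩

theorem exl_rot (h : Tri L x y z w) : exl x y z w = exl y z x w := by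
  refine LinearMap.ext fun c => funext fun e => ?_
  by_cases h1 : e = x
  · rw [h1, exl_x, exl_z h.hxy h.hzx]
  by_cases h2 : e = y
  · rw [h2, exl_y h.hxy, exl_x]
  by_cases h3 : e = z
  · rw [h3, exl_z h.hzx h.hyz, exl_y h.hyz]
  · rw [exl_out h1 h2 h3, exl_out h2 h3 h1]

theorem ker (h : Tri L x y z w) (hc : exl x y z w c = 0) : ∃ t : K, c = t • w := by
  have hx : c y / w y - c z / w z = 0 := by rw [← exl_x (x := x), hc]; rfl
  have hy : c z / w z - c x / w x = 0 := by rw [← exl_y h.hxy, hc]; rfl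
  refine ⟨c x / w x, funext fun e => ?_⟩
  rw [Pi.smul_apply, smul_eq_mul]
  by_cases h1 : e = x
  · rw [h1, div_mul_cancel₀ _ h.wx]
  by_cases h2 : e = y
  · rw [h2, show c x / w x = c y / w y by linear_combination -hx - hy, div_mul_cancel₀ _ h.wy]
  by_cases h3 : e = z
  · rw [h3, show c x / w x = c z / w z by linear_combination -hy, div_mul_cancel₀ _ h.wz]
  · rw [h.out e h1 h2 h3, mul_zero, ← exl_out (w := w) (c := c) h1 h2 h3, hc]
    rfl

theorem exl_w (h : Tri L x y z w) : exl x y z w w = 0 := by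
  funext e
  by_cases h1 : e = x
  · rw [h1, exl_x, div_self h.wy, div_self h.wz, sub_self]
    rfl
  by_cases h2 : e = y
  · rw [h2, exl_y h.hxy, div_self h.wx, div_self h.wz, sub_self]
    rfl
  by_cases h3 : e = z
  · rw [h3, exl_z h.hzx h.hyz, div_self h.wx, div_self h.wy, sub_self]
    rfl
  · rw [exl_out h1 h2 h3, h.out e h1 h2 h3]
    rfl

theorem exl_sub (h : Tri L x y z w) (t : K) : exl x y z w (c - t • w) = exl x y z w c := by
  rw [map_sub, map_smul, h.exl_w, smul_zero, sub_zero]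

end Tri

variable [Fintype E]

/-- `B` is a completion of `A` -/
structure Cmp (L : Submodule K (E → K)) (x y z : E) (w : E → K) (A B : Finset E) : Prop where
  ne : ∃ i ∈ B, w i ≠ 0
  up : ∀ c ∈ L, (∀ e ∈ A, exl x y z w c e = 0) → ∃ t : K, ∀ e ∈ B, c e = t * w e
  dn : ∀ c ∈ L, (∀ e ∈ B, c e = 0) → ∀ e ∈ A, exl x y z w c e = 0

theorem finrank_cmp (h : Tri L x y z w) (hB : Cmp L x y z w A B) :
    Module.finrank K (van (L.map (exl x y z w)) A) = Module.finrank K (van L B) := by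
  have h1 : van (L.map (exl x y z w)) A = (van L B).map (exl x y z w) := by
    ext v
    constructor
    · rintro ⟨⟨c, hc, rfl⟩, h0⟩
      obtain ⟨t, ht⟩ := hB.up c hc h0
      refine ⟨c - t • w, ⟨L.sub_mem hc (L.smul_mem _ h.mem), fun e he => ?_⟩, h.exl_sub t⟩
      rw [Pi.sub_apply, Pi.smul_apply, smul_eq_mul, ht e he, sub_self]
    · rintro ⟨c, ⟨hc, h0⟩, rfl⟩
      exact ⟨Submodule.mem_map_of_mem hc, hB.dn c hc h0⟩
  have h2 : Function.Injective ((exl x y z w).domRestrict (van L B)) := by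
    rw [injective_iff_map_eq_zero]
    rintro ⟨c, hc⟩ h0
    obtain ⟨t, ht⟩ := h.ker (c := c) h0
    obtain ⟨i, hi, hwi⟩ := hB.ne
    have h3 : c i = 0 := hc.2 i hi
    rw [ht, Pi.smul_apply, smul_eq_mul] at h3
    have h4 : t = 0 := (mul_eq_zero.1 h3).resolve_right hwi
    apply Subtype.ext
    show c = 0
    rw [ht, h4, zero_smul]
  rw [h1, ← LinearMap.range_domRestrict]
  exact LinearMap.finrank_range_of_inj h2

theorem rk_cmp (h : Tri L x y z w) (hB : Cmp L x y z w A B) : rk (L.map (exl x y z w)) A = rk L B - 1 := by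
  have h0 : Cmp L x y z w (∅ : Finset E) {x} := by
    refine ⟨⟨x, Finset.mem_singleton_self x, h.wx⟩, fun c _ _ => ⟨c x / w x, fun e he => ?_⟩, fun c _ _ e he => ?_⟩
    · rw [Finset.mem_singleton.1 he, div_mul_cancel₀ _ h.wx]
    · exact absurd he (Finset.notMem_empty e)
  have h1 := finrank_cmp h hB
  have h2 := finrank_cmp h h0
  have h3 : van (L.map (exl x y z w)) ∅ = L.map (exl x y z w) :=
    le_antisymm (fun v hv => hv.1) fun v hv => ⟨hv, fun x hx => absurd hx (Finset.notMem_empty x)⟩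
  have h4 := rk_insert (A := ∅) h.mem (fun e he => absurd he (Finset.notMem_empty e)) h.wx
  rw [(isRk L).empty] at h4
  have h5 : (insert x ∅ : Finset E) = {x} := rfl
  rw [h5] at h4
  rw [h3] at h2
  unfold rk at h4 ⊢
  rw [h1, h2]
  omega

theorem cmp0 (h : Tri L x y z w) (hx : x ∉ A) (hy : y ∉ A) (hz : z ∉ A) {i : E} (hi : i = x ∨ i = y ∨ i = z) :
    Cmp L x y z w A (insert i A) := by
  have hwi : w i ≠ 0 := by
    rcases hi with rfl | rfl | rfl
    · exact h.wx
    · exact h.wy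
    · exact h.wz
  have hA : ∀ e ∈ A, e ≠ x ∧ e ≠ y ∧ e ≠ z := fun e he =>
    ⟨fun h1 => hx (h1 ▸ he), fun h1 => hy (h1 ▸ he), fun h1 => hz (h1 ▸ he)⟩
  refine ⟨⟨i, Finset.mem_insert_self i A, hwi⟩, fun c _ h0 => ⟨c i / w i, fun e he => ?_⟩, fun c _ h0 e he => ?_⟩
  · rcases Finset.mem_insert.1 he with rfl | he
    · rw [div_mul_cancel₀ _ hwi]
    · obtain ⟨h1, h2, h3⟩ := hA e he
      rw [h.out e h1 h2 h3, mul_zero, ← exl_out (w := w) (c := c) h1 h2 h3]
      exact h0 e he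
  · obtain ⟨h1, h2, h3⟩ := hA e he
    rw [exl_out h1 h2 h3]
    exact h0 e (Finset.mem_insert_of_mem he)

theorem cmp1 (h : Tri L x y z w) (hx : x ∈ A) (hy : y ∉ A) (hz : z ∉ A) :
    Cmp L x y z w A (insert y (insert z (A.erase x))) := by
  refine ⟨⟨y, Finset.mem_insert_self y _, h.wy⟩, fun c _ h0 => ⟨c y / w y, fun e he => ?_⟩, fun c _ h0 e he => ?_⟩
  · have h1 : c y / w y - c z / w z = 0 := by
      rw [← exl_x (x := x)]
      exact h0 x hx
    rcases Finset.mem_insert.1 he with rfl | he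
    · rw [div_mul_cancel₀ _ h.wy]
    rcases Finset.mem_insert.1 he with rfl | he
    · rw [sub_eq_zero.1 h1, div_mul_cancel₀ _ h.wz]
    · obtain ⟨h2, h3⟩ := Finset.mem_erase.1 he
      have h4 : e ≠ y := fun h5 => hy (h5 ▸ h3)
      have h5 : e ≠ z := fun h5 => hz (h5 ▸ h3)
      rw [h.out e h2 h4 h5, mul_zero, ← exl_out (w := w) (c := c) h2 h4 h5]
      exact h0 e h3
  · by_cases h1 : e = x
    · rw [h1, exl_x, h0 y (Finset.mem_insert_self y _), h0 z (Finset.mem_insert_of_mem (Finset.mem_insert_self z _)),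
        zero_div, zero_div, sub_zero]
    · have h4 : e ≠ y := fun h5 => hy (h5 ▸ he)
      have h5 : e ≠ z := fun h5 => hz (h5 ▸ he)
      rw [exl_out h1 h4 h5]
      exact h0 e (Finset.mem_insert_of_mem (Finset.mem_insert_of_mem (Finset.mem_erase.2 ⟨h1, he⟩)))

theorem cmp2 (h : Tri L x y z w) (hx : x ∈ A) (hy : y ∈ A) : Cmp L x y z w A (A ∪ {x, y, z}) := by
  refine ⟨⟨x, Finset.mem_union_left _ hx, h.wx⟩, fun c _ h0 => ⟨c x / w x, fun e he => ?_⟩, fun c _ h0 e he => ?_⟩
  · have h1 : c y / w y - c z / w z = 0 := by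
      rw [← exl_x (x := x)]
      exact h0 x hx
    have h2 : c z / w z - c x / w x = 0 := by
      rw [← exl_y h.hxy]
      exact h0 y hy
    by_cases e1 : e = x
    · rw [e1, div_mul_cancel₀ _ h.wx]
    by_cases e2 : e = y
    · rw [e2, show c x / w x = c y / w y by linear_combination -h1 - h2, div_mul_cancel₀ _ h.wy]
    by_cases e3 : e = z
    · rw [e3, show c x / w x = c z / w z by linear_combination -h2, div_mul_cancel₀ _ h.wz]
    · rw [h.out e e1 e2 e3, mul_zero, ← exl_out (w := w) (c := c) e1 e2 e3]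
      refine h0 e ?_
      rcases Finset.mem_union.1 he with he | he
      · exact he
      · simp only [Finset.mem_insert, Finset.mem_singleton, e1, e2, e3, or_self] at he
  · have h1 : c x = 0 := h0 x (by simp)
    have h2 : c y = 0 := h0 y (by simp)
    have h3 : c z = 0 := h0 z (by simp)
    by_cases e1 : e = x
    · rw [e1, exl_x, h2, h3, zero_div, zero_div, sub_zero]
    by_cases e2 : e = y
    · rw [e2, exl_y h.hxy, h1, h3, zero_div, zero_div, sub_zero]
    by_cases e3 : e = z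
    · rw [e3, exl_z h.hzx h.hyz, h1, h2, zero_div, zero_div, sub_zero]
    · rw [exl_out e1 e2 e3]
      exact h0 e (Finset.mem_union_left _ he)

theorem rk_ex0 (h : Tri L x y z w) (hx : x ∉ A) (hy : y ∉ A) (hz : z ∉ A) {i : E} (hi : i = x ∨ i = y ∨ i = z) :
    rk (L.map (exl x y z w)) A = rk L (insert i A) - 1 := rk_cmp h (cmp0 h hx hy hz hi)

theorem rk_ex1 (h : Tri L x y z w) (hx : x ∈ A) (hy : y ∉ A) (hz : z ∉ A) :
    rk (L.map (exl x y z w)) A = rk L (insert y (insert z (A.erase x))) - 1 := rk_cmp h (cmp1 h hx hy hz)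

theorem rk_ex1' (h : Tri L x y z w) (hx : x ∉ A) (hy : y ∈ A) (hz : z ∉ A) :
    rk (L.map (exl x y z w)) A = rk L (insert z (insert x (A.erase y))) - 1 := by
  rw [h.exl_rot]
  exact rk_ex1 h.rot hy hz hx

theorem rk_ex1'' (h : Tri L x y z w) (hx : x ∉ A) (hy : y ∉ A) (hz : z ∈ A) :
    rk (L.map (exl x y z w)) A = rk L (insert x (insert y (A.erase z))) - 1 := by
  rw [h.exl_rot, h.rot.exl_rot]
  exact rk_ex1 h.rot.rot hz hx hy

theorem rk_ex2 (h : Tri L x y z w) (hA : (x ∈ A ∧ y ∈ A) ∨ (y ∈ A ∧ z ∈ A) ∨ (z ∈ A ∧ x ∈ A)) :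
    rk (L.map (exl x y z w)) A = rk L (A ∪ {x, y, z}) - 1 := by
  rcases hA with ⟨h1, h2⟩ | ⟨h1, h2⟩ | ⟨h1, h2⟩
  · exact rk_cmp h (cmp2 h h1 h2)
  · rw [h.exl_rot]
    have h3 := rk_cmp h.rot (cmp2 h.rot h1 h2)
    rw [h3]
    congr 2
    ext e
    simp only [Finset.mem_union, Finset.mem_insert, Finset.mem_singleton]
    tauto
  · rw [h.exl_rot, h.rot.exl_rot]
    have h3 := rk_cmp h.rot.rot (cmp2 h.rot.rot h1 h2)
    rw [h3]
    congr 2
    ext e
    simp only [Finset.mem_union, Finset.mem_insert, Finset.mem_singleton]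
    tauto

/-- the ranks after the exchange depend only on the ranks -/
theorem rk_ex_congr {K' : Type} [Field K'] {L' : Submodule K' (E → K')} {w' : E → K'} (h : Tri L x y z w) (h' : Tri L' x y z w')
    (hr : rk L = rk L') : rk (L.map (exl x y z w)) = rk (L'.map (exl x y z w')) := by
  funext A
  by_cases hx : x ∈ A <;> by_cases hy : y ∈ A <;> by_cases hz : z ∈ A
  · rw [rk_ex2 h (Or.inl ⟨hx, hy⟩), rk_ex2 h' (Or.inl ⟨hx, hy⟩), hr]
  · rw [rk_ex2 h (Or.inl ⟨hx, hy⟩), rk_ex2 h' (Or.inl ⟨hx, hy⟩), hr]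
  · rw [rk_ex2 h (Or.inr (Or.inr ⟨hz, hx⟩)), rk_ex2 h' (Or.inr (Or.inr ⟨hz, hx⟩)), hr]
  · rw [rk_ex1 h hx hy hz, rk_ex1 h' hx hy hz, hr]
  · rw [rk_ex2 h (Or.inr (Or.inl ⟨hy, hz⟩)), rk_ex2 h' (Or.inr (Or.inl ⟨hy, hz⟩)), hr]
  · rw [rk_ex1' h hx hy hz, rk_ex1' h' hx hy hz, hr]
  · rw [rk_ex1'' h hx hy hz, rk_ex1'' h' hx hy hz, hr]
  · rw [rk_ex0 h hx hy hz (Or.inl rfl), rk_ex0 h' hx hy hz (Or.inl rfl), hr]

end Pool.Agent.QUY
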