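import Pool.Agent.QUR.TMain
import Pool.Agent.QUY.Sml
import Pool.Agent.QUN.NuC
import Pool.Agent.QUW.Fin
import Pool.Agent.QUN.Th
import Pool.Agent.QUY.Step

/-!
# QUY/TCore: the statement of `QUY.core` for a box with a triangle

Hypotheses of `t_core`: those of `QUY.core` and a triangle `hX`.
-/

set_option autoImplicit false

noncomputable section

open scoped Classical

namespace Pool.Agent.QUY

open Pool.Agent.FRM Pool.Agent.QUS Pool.Agent.QUE
open Pool.Agent.QU (Fm EqD InV Itv InVs Th3 HasRich NoTd Tri3 AllR NoTT)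
open QUB (gs Cn)

variable {E : Type} [Fintype E]

/-- no triads, in the form used in `QUR` -/
theorem notd_of {r : Finset E → ℤ} (hr : QUB.Rk r) {p : Itv E} (hp : p.1 ⊆ p.2) (h3 : Th3 r p) (hn : 4 ≤ (gs p).card)
    (hT : ∀ x y z, ¬ Triad r p x y z) : NoTd r p := by
  intro x hx y hy z hz hxy hxz hyz
  have two : ∀ u ∈ gs p, ∀ v ∈ gs p, u ≠ v → r (p.2 \ {u, v}) = r p.2 := by
    intro u hu v hv huv
    have hs : ({u, v} : Finset E) ⊆ gs p := by
      intro w hw
      rcases Finset.mem_insert.1 hw with rfl | hw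
      · exact hu
      · rw [Finset.mem_singleton.1 hw]; exact hv
    have hc : ({u, v} : Finset E).card = 2 := Finset.card_pair huv
    have h := h3 {u, v} hs (by omega) (by rw [Finset.card_sdiff_of_subset hs, hc]; omega)
    unfold QUB.lam at h
    have h1 := hr.unit p.1 v
    have h2 := hr.unit (insert v p.1) u
    have h4 := hr.mono (p.2 \ {u, v}) p.2 Finset.sdiff_subset
    have e : p.1 ∪ ({u, v} : Finset E) = insert u (insert v p.1) := by
      ext w; simp only [Finset.mem_union, Finset.mem_insert, Finset.mem_singleton]; tauto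
    rw [e] at h
    omega
  by_contra hne
  have e0 : ((p.2.erase x).erase y).erase z = p.2 \ {x, y, z} := by
    ext w; simp only [Finset.mem_erase, Finset.mem_sdiff, Finset.mem_insert, Finset.mem_singleton]; tauto
  rw [e0] at hne
  have mx : x ∈ p.2 := (Finset.mem_sdiff.1 hx).1
  have my : y ∈ p.2 := (Finset.mem_sdiff.1 hy).1
  have mz : z ∈ p.2 := (Finset.mem_sdiff.1 hz).1
  have ex : insert x (p.2 \ {x, y, z}) = p.2 \ {y, z} := by
    ext w
    simp only [Finset.mem_insert, Finset.mem_sdiff, Finset.mem_singleton]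
    by_cases h : w = x
    · subst h; simp [mx, hxy, hxz]
    · simp [h]
  have ey : insert y (p.2 \ {x, y, z}) = p.2 \ {x, z} := by
    ext w
    simp only [Finset.mem_insert, Finset.mem_sdiff, Finset.mem_singleton]
    by_cases h : w = y
    · subst h; simp [my, hxy.symm, hyz]
    · simp [h]
  have ez : insert z (p.2 \ {x, y, z}) = p.2 \ {x, y} := by
    ext w
    simp only [Finset.mem_insert, Finset.mem_sdiff, Finset.mem_singleton]
    by_cases h : w = z
    · subst h; simp [mz, hxz.symm, hyz.symm]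
    · simp [h]
  have ix : r (insert x (p.2 \ {x, y, z})) = r p.2 := by rw [ex]; exact two y hy z hz hyz
  have iy : r (insert y (p.2 \ {x, y, z})) = r p.2 := by rw [ey]; exact two x hx z hz hxz
  have iz : r (insert z (p.2 \ {x, y, z})) = r p.2 := by rw [ez]; exact two x hx y hy hxy
  have hu := hr.unit (p.2 \ {x, y, z}) x
  have hm := hr.mono (p.2 \ {x, y, z}) p.2 Finset.sdiff_subset
  exact hT x y z ⟨hxy, hyz, hxz.symm, hx, hy, hz, by omega, ix, iy, iz⟩

/-- a triad of the dual is a triangle -/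
theorem tri3_of {L : Submodule F4 (E → F4)} {p : Itv E} {x y z : E}
    (h : Triad (rk (WW L)) (QUB.dp p) x y z) : Tri3 (rk L) p x y z := by
  have hg : gs (QUB.dp p) = gs p := by
    ext y
    show y ∈ p.1ᶜ \ p.2ᶜ ↔ y ∈ p.2 \ p.1
    simp only [Finset.mem_sdiff, Finset.mem_compl]
    tauto
  have gx : x ∈ gs p := hg ▸ h.gx
  have gy : y ∈ gs p := hg ▸ h.gy
  have gz : z ∈ gs p := hg ▸ h.gz
  have nx : x ∉ p.1 := (Finset.mem_sdiff.1 gx).2
  have ny : y ∉ p.1 := (Finset.mem_sdiff.1 gy).2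
  have nz : z ∉ p.1 := (Finset.mem_sdiff.1 gz).2
  have hxy := h.hxy
  have hyz := h.hyz
  have hzx := h.hzx
  have key : ∀ A : Finset E, A ⊆ {x, y, z} → rk (WW L) (p.1ᶜ \ A) = (p.1ᶜ).card - A.card + rk L (p.1 ∪ A) - rk L Finset.univ := by
    intro A hA
    have hA' : A ⊆ p.1ᶜ := by
      intro w hw
      have := hA hw
      simp only [Finset.mem_insert, Finset.mem_singleton] at this
      rcases this with rfl | rfl | rfl
      · simpa using nx
      · simpa using ny
      · simpa using nz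
    have e : (p.1ᶜ \ A)ᶜ = p.1 ∪ A := by
      ext w; simp only [Finset.mem_compl, Finset.mem_sdiff, Finset.mem_union]; tauto
    rw [rk_ww]
    unfold QUB.rd
    rw [e, Finset.card_sdiff_of_subset hA']
    have := Finset.card_le_card hA'
    omega
  have e2 : (QUB.dp p).2 = p.1ᶜ := rfl
  have k0 := key ∅ (Finset.empty_subset _)
  have k3 := key {x, y, z} (Finset.Subset.refl _)
  have kx := key {y, z} (by intro w; simp only [Finset.mem_insert, Finset.mem_singleton]; tauto)
  have ky := key {x, z} (by intro w; simp only [Finset.mem_insert, Finset.mem_singleton]; tauto)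
  have kz := key {x, y} (by intro w; simp only [Finset.mem_insert, Finset.mem_singleton]; tauto)
  have c3 : ({x, y, z} : Finset E).card = 3 := Finset.card_eq_three.2 ⟨x, y, z, hxy, hzx.symm, hyz, rfl⟩
  have cx : ({y, z} : Finset E).card = 2 := Finset.card_pair hyz
  have cy : ({x, z} : Finset E).card = 2 := Finset.card_pair hzx.symm
  have cz : ({x, y} : Finset E).card = 2 := Finset.card_pair hxy
  rw [Finset.sdiff_empty, Finset.card_empty, Finset.union_empty] at k0
  rw [c3] at k3
  rw [cx] at kx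
  rw [cy] at ky
  rw [cz] at kz
  have ex : insert x (p.1ᶜ \ {x, y, z}) = p.1ᶜ \ {y, z} := by
    ext w
    simp only [Finset.mem_insert, Finset.mem_sdiff, Finset.mem_singleton, Finset.mem_compl]
    by_cases h : w = x
    · subst h; simp [nx, hxy, hzx.symm]
    · simp [h]
  have ey : insert y (p.1ᶜ \ {x, y, z}) = p.1ᶜ \ {x, z} := by
    ext w
    simp only [Finset.mem_insert, Finset.mem_sdiff, Finset.mem_singleton, Finset.mem_compl]
    by_cases h : w = y
    · subst h; simp [ny, hxy.symm, hyz]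
    · simp [h]
  have ez : insert z (p.1ᶜ \ {x, y, z}) = p.1ᶜ \ {x, y} := by
    ext w
    simp only [Finset.mem_insert, Finset.mem_sdiff, Finset.mem_singleton, Finset.mem_compl]
    by_cases h : w = z
    · subst h; simp [nz, hzx, hyz.symm]
    · simp [h]
  have l1 := h.lt
  have l2 := h.ix
  have l3 := h.iy
  have l4 := h.iz
  rw [e2] at l1 l2 l3 l4
  rw [ex, kx, k0] at l2
  rw [ey, ky, k0] at l3
  rw [ez, kz, k0] at l4
  rw [k3, k0] at l1
  have u3 : p.1 ∪ ({x, y, z} : Finset E) = insert x (insert y (insert z p.1)) := by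
    ext w; simp only [Finset.mem_union, Finset.mem_insert, Finset.mem_singleton]; tauto
  have ux : p.1 ∪ ({y, z} : Finset E) = insert y (insert z p.1) := by
    ext w; simp only [Finset.mem_union, Finset.mem_insert, Finset.mem_singleton]; tauto
  have uy : p.1 ∪ ({x, z} : Finset E) = insert x (insert z p.1) := by
    ext w; simp only [Finset.mem_union, Finset.mem_insert, Finset.mem_singleton]; tauto
  have uz : p.1 ∪ ({x, y} : Finset E) = insert x (insert y p.1) := by
    ext w; simp only [Finset.mem_union, Finset.mem_insert, Finset.mem_singleton]; tauto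
  rw [u3] at l1
  rw [ux] at l2
  rw [uy] at l3
  rw [uz] at l4
  refine ⟨⟨?_, ?_⟩, ?_⟩
  · omega
  · rw [Finset.insert_comm z x, Finset.insert_comm z y]
    omega
  · rw [Finset.insert_comm y x]
    omega

/-- NRX: `{x, y, z}` a triangle, `p \ x` not rich and `p` rich -/
theorem nrx_core {L : Submodule F4 (E → F4)} {p : Itv E} (hL : Cls L) (hp : p.1 ⊆ p.2) (hR : HasRich (rk L) p)
    {x y z : E} (hx : x ∈ gs p) (hy : y ∈ gs p) (hz : z ∈ gs p) (hxy : x ≠ y) (hxz : x ≠ z) (hT : Tri3 (rk L) p x y z)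
    (hCx : Cn (rk L) (QUB.rm true x p)) (hOx : QUB.Ok (rk L) (QUB.rm true x p)) (hn : ¬ HasRich (rk L) (QUB.rm true x p)) :
    ∃ T : Fm F4 E, InV L (WW L) p T ∧ ¬ EqD L (WW L) p T 0 :=
  Pool.Agent.QW.nrx hL hp hR hx hy hz hxy hxz hT hCx hOx hn

/-- a triangle is a triad of the dual -/
theorem triad_of {L : Submodule F4 (E → F4)} {p : Itv E} (hp : p.1 ⊆ p.2) (h3 : Th3 (rk L) p) (hn : 4 ≤ (gs p).card) {x y z : E}
    (gx : x ∈ gs p) (gy : y ∈ gs p) (gz : z ∈ gs p) (hxy : x ≠ y) (hxz : x ≠ z) (hyz : y ≠ z) (h : Tri3 (rk L) p x y z) :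
    Triad (rk (WW L)) (QUB.dp p) x y z := by
  have hr := isRk L
  have hg : gs (QUB.dp p) = gs p := by
    ext y
    show y ∈ p.1ᶜ \ p.2ᶜ ↔ y ∈ p.2 \ p.1
    simp only [Finset.mem_sdiff, Finset.mem_compl]
    tauto
  have nx : x ∉ p.1 := (Finset.mem_sdiff.1 gx).2
  have ny : y ∉ p.1 := (Finset.mem_sdiff.1 gy).2
  have nz : z ∉ p.1 := (Finset.mem_sdiff.1 gz).2
  have key : ∀ A : Finset E, A ⊆ {x, y, z} → rk (WW L) (p.1ᶜ \ A) = (p.1ᶜ).card - A.card + rk L (p.1 ∪ A) - rk L Finset.univ := by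
    intro A hA
    have hA' : A ⊆ p.1ᶜ := by
      intro w hw
      have := hA hw
      simp only [Finset.mem_insert, Finset.mem_singleton] at this
      rcases this with rfl | rfl | rfl
      · simpa using nx
      · simpa using ny
      · simpa using nz
    have e : (p.1ᶜ \ A)ᶜ = p.1 ∪ A := by
      ext w; simp only [Finset.mem_compl, Finset.mem_sdiff, Finset.mem_union]; tauto
    rw [rk_ww]
    unfold QUB.rd
    rw [e, Finset.card_sdiff_of_subset hA']
    have := Finset.card_le_card hA'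
    omega
  have e2 : (QUB.dp p).2 = p.1ᶜ := rfl
  have k0 := key ∅ (Finset.empty_subset _)
  have k3 := key {x, y, z} (Finset.Subset.refl _)
  have kx := key {y, z} (by intro w; simp only [Finset.mem_insert, Finset.mem_singleton]; tauto)
  have ky := key {x, z} (by intro w; simp only [Finset.mem_insert, Finset.mem_singleton]; tauto)
  have kz := key {x, y} (by intro w; simp only [Finset.mem_insert, Finset.mem_singleton]; tauto)
  have c3 : ({x, y, z} : Finset E).card = 3 := Finset.card_eq_three.2 ⟨x, y, z, hxy, hxz, hyz, rfl⟩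
  have cx : ({y, z} : Finset E).card = 2 := Finset.card_pair hyz
  have cy : ({x, z} : Finset E).card = 2 := Finset.card_pair hxz
  have cz : ({x, y} : Finset E).card = 2 := Finset.card_pair hxy
  rw [Finset.sdiff_empty, Finset.card_empty, Finset.union_empty] at k0
  rw [c3] at k3
  rw [cx] at kx
  rw [cy] at ky
  rw [cz] at kz
  have ex : insert x (p.1ᶜ \ {x, y, z}) = p.1ᶜ \ {y, z} := by
    ext w
    simp only [Finset.mem_insert, Finset.mem_sdiff, Finset.mem_singleton, Finset.mem_compl]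
    by_cases h : w = x
    · subst h; simp [nx, hxy, hxz]
    · simp [h]
  have ey : insert y (p.1ᶜ \ {x, y, z}) = p.1ᶜ \ {x, z} := by
    ext w
    simp only [Finset.mem_insert, Finset.mem_sdiff, Finset.mem_singleton, Finset.mem_compl]
    by_cases h : w = y
    · subst h; simp [ny, hxy.symm, hyz]
    · simp [h]
  have ez : insert z (p.1ᶜ \ {x, y, z}) = p.1ᶜ \ {x, y} := by
    ext w
    simp only [Finset.mem_insert, Finset.mem_sdiff, Finset.mem_singleton, Finset.mem_compl]
    by_cases h : w = z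
    · subst h; simp [nz, hxz.symm, hyz.symm]
    · simp [h]
  have u3 : p.1 ∪ ({x, y, z} : Finset E) = insert x (insert y (insert z p.1)) := by
    ext w; simp only [Finset.mem_union, Finset.mem_insert, Finset.mem_singleton]; tauto
  have ux : p.1 ∪ ({y, z} : Finset E) = insert y (insert z p.1) := by
    ext w; simp only [Finset.mem_union, Finset.mem_insert, Finset.mem_singleton]; tauto
  have uy : p.1 ∪ ({x, z} : Finset E) = insert x (insert z p.1) := by
    ext w; simp only [Finset.mem_union, Finset.mem_insert, Finset.mem_singleton]; tauto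
  have uz : p.1 ∪ ({x, y} : Finset E) = insert x (insert y p.1) := by
    ext w; simp only [Finset.mem_union, Finset.mem_insert, Finset.mem_singleton]; tauto
  rw [u3] at k3
  rw [ux] at kx
  rw [uy] at ky
  rw [uz] at kz
  have t1 := Pool.Agent.QU.th3_con2 hr hp h3 hn gy gz hyz
  have t2 := Pool.Agent.QU.th3_con2 hr hp h3 hn gx gz hxz
  have t3 := Pool.Agent.QU.th3_con2 hr hp h3 hn gx gy hxy
  have l1 := h.1.1
  refine ⟨hxy, hyz, hxz.symm, hg ▸ gx, hg ▸ gy, hg ▸ gz, ?_, ?_, ?_, ?_⟩
  · rw [e2, k3, k0]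
    omega
  · rw [e2, ex, kx, k0]
    omega
  · rw [e2, ey, ky, k0]
    omega
  · rw [e2, ez, kz, k0]
    omega

/-- the T-case of `core` -/
theorem t_core {L : Submodule F4 (E → F4)} {p : Itv E} (hL : Cls L) (hp : p.1 ⊆ p.2) (hC : Cn (rk L) p) (h3 : Th3 (rk L) p)
    (hR : HasRich (rk L) p) (hn : 9 ≤ (gs p).card) (hr : 4 ≤ rk L p.2 - rk L p.1) (hr2 : 2 * (rk L p.2 - rk L p.1) ≤ (gs p).card)
    (hT : ∀ x y z, ¬ Triad (rk L) p x y z)
    (hD : 2 * (rk L p.2 - rk L p.1) = (gs p).card → ∀ x y z, ¬ Triad (rk (WW L)) (QUB.dp p) x y z)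
    (hDD : ((gs p).card : ℤ) = 2 * (rk L p.2 - rk L p.1) + 1 → ∀ x y z x' y' z', Triad (rk (WW L)) (QUB.dp p) x y z →
      Triad (rk (WW L)) (QUB.dp p) x' y' z' → ¬ Disjoint ({x, y, z} : Finset E) {x', y', z'})
    (IH : Smaller E (gs p).card (rk L p.2 - rk L p.1))
    (hX : ∃ x y z, Triad (rk (WW L)) (QUB.dp p) x y z) :
    ∃ T : Fm F4 E, InV L (WW L) p T ∧ ¬ EqD L (WW L) p T 0 := by
  by_contra hcon
  have hA : AllR (rk L) p := by
    intro x hx y hy z hz hxy hxz hyz hT3 h3x
    by_contra hnx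
    exact hcon (nrx_core hL hp hR hx hy hz hxy hxz hT3 (Pool.Agent.QU.th3_cn (isRk L) hp hC h3 (by omega) hx true) (ok_of_th3 h3x) hnx)
  apply hcon
  have hne : 2 * (rk L p.2 - rk L p.1) ≠ (gs p).card := by
    intro h
    obtain ⟨x, y, z, hX⟩ := hX
    exact hD h x y z hX
  obtain ⟨x, y, z, hX⟩ := hX
  have hg : gs (QUB.dp p) = gs p := by
    ext y
    show y ∈ p.1ᶜ \ p.2ᶜ ↔ y ∈ p.2 \ p.1
    simp only [Finset.mem_sdiff, Finset.mem_compl]
    tauto
  have hTT : 2 * (rk L p.2 - rk L p.1) + 1 = ((gs p).card : ℤ) → NoTT (rk L) p := by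
    intro h u hu v hv w hw huv huw hvw u' hu' v' hv' w' hw' huv' huw' hvw' h1 h2
    exact hDD h.symm _ _ _ _ _ _ (triad_of hp h3 (by omega) hu hv hw huv huw hvw h1) (triad_of hp h3 (by omega) hu' hv' hw' huv' huw' hvw' h2)
  exact Pool.Agent.QU.t_main (tp L) (QUN.nu_of_cls hL) hp hC h3 hn hr
    (show 2 * (rk L p.2 - rk L p.1) + 1 ≤ ((gs p).card : ℤ) by omega) (notd_of (isRk L) hp h3 (by omega) hT) hTT hA
    (hg ▸ hX.gx) (hg ▸ hX.gy) (hg ▸ hX.gz) hX.hxy hX.hzx.symm hX.hyz (tri3_of hX)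
    (fun w hw t => IH L hL (QUB.rm t w p) (QUB.wf_rm hp hw) (Or.inl (by
      rw [QUB.gs_rm, Finset.card_erase_of_mem hw]
      omega)))

end Pool.Agent.QUY
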